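import Mathlib

set_option autoImplicit false

namespace Pool.Agent.LibHof81

/-- Colouring of the levels with `2 ^ m` colours (parities of `i / δ`, `δ ∈ Δ`). -/
theorem exists_colour (Δ : Finset ℕ) (m : ℕ) (hm : Δ.card ≤ m) (h0 : 0 ∉ Δ) :
    ∃ χ : ℕ → Fin (2 ^ m), ∀ i j, i < j → j - i ∈ Δ → χ i ≠ χ j := by
  classical
  have hcard : Fintype.card (Δ → Fin 2) ≤ Fintype.card (Fin (2 ^ m)) := by
    rw [Fintype.card_fun, Fintype.card_fin, Fintype.card_coe, Fintype.card_fin]
    exact Nat.pow_le_pow_right (by norm_num) hm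
  obtain ⟨e⟩ : Nonempty ((Δ → Fin 2) ↪ Fin (2 ^ m)) := Function.Embedding.nonempty_of_card_le hcard
  refine ⟨fun i => e (fun δ => Fin.ofNat 2 (i / (δ : ℕ))), fun i j hij hmem heq => ?_⟩
  have h1 := congrFun (e.injective heq) ⟨j - i, hmem⟩
  have hpos : 0 < j - i := by omega
  have h2 : j / (j - i) = i / (j - i) + 1 := by
    conv_lhs => rw [show j = i + (j - i) by omega]
    rw [show i + (j - i) - i = j - i by omega]
    exact Nat.add_div_right _ hpos
  have h3 := congrArg Fin.val h1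
  simp only [Fin.ofNat] at h3
  rw [h2] at h3
  omega

end Pool.Agent.LibHof81
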