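import Pool.Agent.LibHof81.Defs

set_option autoImplicit false

namespace Pool.Agent.LibHof81

/-- Task D1a: many low levels are hit. -/
theorem low_levels (c : ℝ) (hc : 0 ≤ c) (h n : ℕ) (hn : 0 < n) (C : Finset (ℕ × ℕ))
    (hd : ∀ l, l + 2 ≤ h → c * (n : ℝ) ^ 2 ≤ ((C ∩ sq n 0 l).card : ℝ)) :
    ∃ Q : Finset (ℕ × ℕ), Q ⊆ C ∧ Set.InjOn lev (Q : Set (ℕ × ℕ)) ∧ (∀ q ∈ Q, lev q < h * n) ∧
      ((h : ℝ) - 1) * c * n ≤ (Q.card : ℝ) := by
  classical
  have hn0 : (0:ℝ) < n := by exact_mod_cast hn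
  rcases Nat.lt_or_ge h 1 with h0 | h1
  · refine ⟨∅, by simp, by simp, by simp, ?_⟩
    have : h = 0 := by omega
    subst this
    simp only [Nat.cast_zero, zero_sub, Finset.card_empty]
    have : 0 ≤ c * n := by positivity
    linarith
  set P : Finset (ℕ × ℕ) := (Finset.range (h - 1)).biUnion (fun l => C ∩ sq n 0 l) with hP
  have hsq : ∀ l, ∀ q ∈ sq n 0 l, q.1 < n ∧ l * n ≤ q.2 ∧ q.2 < (l + 1) * n := by
    intro l q hq
    unfold sq at hq
    rw [Finset.mem_product, Finset.mem_Ico, Finset.mem_Ico] at hq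
    refine ⟨by simpa using hq.1.2, hq.2⟩
  have hPC : P ⊆ C := by
    intro q hq
    rw [hP, Finset.mem_biUnion] at hq
    obtain ⟨l, _, hq⟩ := hq
    exact (Finset.mem_inter.1 hq).1
  have hPl : ∀ q ∈ P, q.1 < n ∧ lev q < h * n := by
    intro q hq
    rw [hP, Finset.mem_biUnion] at hq
    obtain ⟨l, hl, hq⟩ := hq
    obtain ⟨a1, a2, a3⟩ := hsq l q (Finset.mem_inter.1 hq).2
    refine ⟨a1, ?_⟩
    rw [Finset.mem_range] at hl
    unfold lev
    have : (l + 2) * n ≤ h * n := Nat.mul_le_mul_right n (by omega)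
    nlinarith
  have hcard : ((h : ℝ) - 1) * (c * n ^ 2) ≤ (P.card : ℝ) := by
    rw [hP, Finset.card_biUnion]
    · push_cast
      calc ((h : ℝ) - 1) * (c * n ^ 2) = ∑ l ∈ Finset.range (h - 1), c * (n:ℝ) ^ 2 := by
            rw [Finset.sum_const, Finset.card_range, nsmul_eq_mul, Nat.cast_sub h1]; push_cast; ring
        _ ≤ _ := Finset.sum_le_sum fun l hl => hd l (by rw [Finset.mem_range] at hl; omega)
    · intro l _ l' _ hne
      rw [Function.onFun, Finset.disjoint_left]
      intro q hq hq'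
      obtain ⟨_, a2, a3⟩ := hsq l q (Finset.mem_inter.1 hq).2
      obtain ⟨_, b2, b3⟩ := hsq l' q (Finset.mem_inter.1 hq').2
      rcases Nat.lt_or_gt_of_ne hne with h3 | h3
      · have : (l + 1) * n ≤ l' * n := Nat.mul_le_mul_right n h3
        omega
      · have : (l' + 1) * n ≤ l * n := Nat.mul_le_mul_right n h3
        omega
  have hfib : P.card ≤ n * (P.image lev).card := by
    refine Finset.card_le_mul_card_image P n fun a _ => ?_
    have : (P.filter (fun x => lev x = a)).card ≤ (Finset.range n).card := by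
      refine Finset.card_le_card_of_injOn Prod.fst ?_ ?_
      · intro q hq
        rw [Finset.mem_coe, Finset.mem_filter] at hq
        rw [Finset.mem_coe, Finset.mem_range]
        exact (hPl q hq.1).1
      · intro q hq r hr hqr
        rw [Finset.mem_coe, Finset.mem_filter] at hq hr
        have e1 : q.1 = r.1 := hqr
        have e2 : lev q = lev r := hq.2.trans hr.2.symm
        unfold lev at e2
        exact Prod.ext e1 (by omega)
    rwa [Finset.card_range] at this
  obtain ⟨Q, hQP, hinj, himg⟩ := Finset.exists_subset_injOn_image_eq_of_surjOn (f := lev) (P : Set (ℕ × ℕ)) (P.image lev)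
    (by rw [Finset.coe_image]; exact Set.surjOn_image _ _)
  have hQP' : Q ⊆ P := by exact_mod_cast hQP
  refine ⟨Q, hQP'.trans hPC, hinj, fun q hq => (hPl q (hQP' hq)).2, ?_⟩
  have hQc : Q.card = (P.image lev).card := by
    rw [← himg, Finset.card_image_of_injOn hinj]
  have h5 : (P.card : ℝ) ≤ n * (Q.card : ℝ) := by rw [hQc]; exact_mod_cast hfib
  have h6 : n * (((h : ℝ) - 1) * c * n) ≤ n * (Q.card : ℝ) := by
    calc n * (((h : ℝ) - 1) * c * n) = ((h : ℝ) - 1) * (c * n ^ 2) := by ring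
      _ ≤ P.card := hcard
      _ ≤ _ := h5
  exact le_of_mul_le_mul_left h6 hn0

end Pool.Agent.LibHof81
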