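import Pool.Agent.LibHof81.Defs

set_option autoImplicit false

namespace Pool.Agent.LibHof81

/-- Task D1b: a block row contains many full squares of high level. -/
theorem block_row (c : ℝ) (hc : 0 ≤ c) (h n k : ℕ) (hn : 0 < n) (hk : k < 2 * h)
    (C : Finset (ℕ × ℕ))
    (hd : ∀ k < 2 * h, ∀ l < 2 * h, c * (n : ℝ) ^ 2 ≤ ((C ∩ sq n k l).card : ℝ)) :
    (min (2 * (h : ℝ) - 1 - k) ((h : ℝ) - 1)) * (c * (n : ℝ) ^ 2) ≤
      ((((C.filter (fun p => h * n ≤ lev p ∧ lev p < 2 * h * n)).filter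
        (fun p => k * n ≤ p.1 ∧ p.1 < (k + 1) * n)).card : ℕ) : ℝ) := by
  classical
  set L : Finset ℕ := Finset.Ico (h - k) (2 * h - 1 - k) with hL
  set P : Finset (ℕ × ℕ) := L.biUnion (fun l => C ∩ sq n k l) with hP
  have hsq : ∀ l, ∀ q ∈ sq n k l, (k * n ≤ q.1 ∧ q.1 < (k + 1) * n) ∧ l * n ≤ q.2 ∧ q.2 < (l + 1) * n := by
    intro l q hq
    unfold sq at hq
    rw [Finset.mem_product, Finset.mem_Ico, Finset.mem_Ico] at hq
    exact hq
  have hsub : P ⊆ (C.filter (fun p => h * n ≤ lev p ∧ lev p < 2 * h * n)).filter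
        (fun p => k * n ≤ p.1 ∧ p.1 < (k + 1) * n) := by
    intro q hq
    rw [hP, Finset.mem_biUnion] at hq
    obtain ⟨l, hl, hq⟩ := hq
    obtain ⟨a1, a2, a3⟩ := hsq l q (Finset.mem_inter.1 hq).2
    rw [hL, Finset.mem_Ico] at hl
    rw [Finset.mem_filter, Finset.mem_filter]
    refine ⟨⟨(Finset.mem_inter.1 hq).1, ?_, ?_⟩, a1⟩
    · unfold lev
      have : h * n ≤ (k + l) * n := Nat.mul_le_mul_right n (by omega)
      nlinarith [a1.1]
    · unfold lev
      have : (k + l + 2) * n ≤ 2 * h * n := Nat.mul_le_mul_right n (by omega)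
      nlinarith [a1.2]
  have hcard : (L.card : ℝ) * (c * n ^ 2) ≤ (P.card : ℝ) := by
    rw [hP, Finset.card_biUnion]
    · push_cast
      calc (L.card : ℝ) * (c * n ^ 2) = ∑ l ∈ L, c * (n:ℝ) ^ 2 := by
            rw [Finset.sum_const, nsmul_eq_mul]
        _ ≤ _ := Finset.sum_le_sum fun l hl => hd k hk l (by rw [hL, Finset.mem_Ico] at hl; omega)
    · intro l _ l' _ hne
      rw [Function.onFun, Finset.disjoint_left]
      intro q hq hq'
      obtain ⟨_, a2, a3⟩ := hsq l q (Finset.mem_inter.1 hq).2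
      obtain ⟨_, b2, b3⟩ := hsq l' q (Finset.mem_inter.1 hq').2
      rcases Nat.lt_or_gt_of_ne hne with h3 | h3
      · have : (l + 1) * n ≤ l' * n := Nat.mul_le_mul_right n h3
        omega
      · have : (l' + 1) * n ≤ l * n := Nat.mul_le_mul_right n h3
        omega
  have hLc : min (2 * (h : ℝ) - 1 - k) ((h : ℝ) - 1) ≤ (L.card : ℝ) := by
    rw [hL, Nat.card_Ico]
    rcases le_total k h with h3 | h3
    · refine (min_le_right _ _).trans ?_
      have : 2 * h - 1 - k - (h - k) = h - 1 := by omega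
      rw [this, Nat.cast_sub (by omega)]; push_cast; exact le_rfl
    · refine (min_le_left _ _).trans ?_
      have : 2 * h - 1 - k - (h - k) = 2 * h - (1 + k) := by omega
      rw [this, Nat.cast_sub (by omega)]; push_cast; linarith
  calc (min (2 * (h : ℝ) - 1 - k) ((h : ℝ) - 1)) * (c * (n : ℝ) ^ 2) ≤ (L.card : ℝ) * (c * n ^ 2) :=
        mul_le_mul_of_nonneg_right hLc (by positivity)
    _ ≤ P.card := hcard
    _ ≤ _ := by exact_mod_cast Finset.card_le_card hsub

end Pool.Agent.LibHof81
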