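import Pool.Agent.LibHof81.Defs

set_option autoImplicit false

namespace Pool.Agent.LibHof81

open Polynomial

theorem mon_mem_degreeLT (p : ℕ × ℕ) (N : ℕ) (h : lev p ≤ N) : mon p ∈ degreeLT ℚ (2 * N + 1) := by
  rw [mem_degreeLT]
  have h1 : (mon p).natDegree ≤ 2 * N := by
    unfold mon
    refine natDegree_mul_le.trans ?_
    have h2 : ((X : ℚ[X]) ^ (2 * p.1)).natDegree ≤ 2 * p.1 := natDegree_X_pow_le _
    have h3 : ((1 - X : ℚ[X]) ^ (2 * p.2)).natDegree ≤ 2 * p.2 := by
      refine natDegree_pow_le.trans ?_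
      have : (1 - X : ℚ[X]).natDegree ≤ 1 := by
        refine (natDegree_sub_le _ _).trans ?_
        simp
      nlinarith
    unfold lev at h
    omega
  refine lt_of_le_of_lt degree_le_natDegree ?_
  exact_mod_cast Nat.lt_succ_of_le h1

/-- Task J1: every further level of a good set adds at least one to the rank. -/
theorem rank_levels (C : Set (ℕ × ℕ)) (hC : Good C) (P Q : Finset (ℕ × ℕ))
    (hP : (P : Set (ℕ × ℕ)) ⊆ C) (hQ : (Q : Set (ℕ × ℕ)) ⊆ C)
    (hinj : Set.InjOn lev (Q : Set (ℕ × ℕ)))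
    (hdis : ∀ p ∈ P, ∀ q ∈ Q, lev p ≠ lev q) (N : ℕ)
    (hNP : ∀ p ∈ P, lev p ≤ N) (hNQ : ∀ q ∈ Q, lev q ≤ N) :
    Module.finrank ℚ (Submodule.span ℚ (mon '' (P : Set (ℕ × ℕ)))) + Q.card ≤ 2 * N + 1 := by
  classical
  have hfin : ∀ S : Finset (ℕ × ℕ), Module.Finite ℚ (Submodule.span ℚ (mon '' (S : Set (ℕ × ℕ)))) :=
    fun S => Module.Finite.span_of_finite ℚ (S.finite_toSet.image _)
  have key : ∀ Q' : Finset (ℕ × ℕ), Q' ⊆ Q →
      Module.finrank ℚ (Submodule.span ℚ (mon '' (P : Set (ℕ × ℕ)))) + Q'.card ≤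
        Module.finrank ℚ (Submodule.span ℚ (mon '' ((P ∪ Q' : Finset (ℕ × ℕ)) : Set (ℕ × ℕ)))) := by
    intro Q'
    induction Q' using Finset.induction_on with
    | empty => intro _; rw [Finset.union_empty, Finset.card_empty, add_zero]
    | insert q Q' hq ih =>
      intro hsub
      have hq2 : q ∈ Q := hsub (Finset.mem_insert_self _ _)
      have hsub' : Q' ⊆ Q := fun x hx => hsub (Finset.mem_insert_of_mem hx)
      have ih' := ih hsub'
      rw [Finset.card_insert_of_notMem hq]
      have hlt : Submodule.span ℚ (mon '' ((P ∪ Q' : Finset (ℕ × ℕ)) : Set (ℕ × ℕ))) <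
          Submodule.span ℚ (mon '' ((P ∪ insert q Q' : Finset (ℕ × ℕ)) : Set (ℕ × ℕ))) := by
        refine lt_of_le_of_ne (Submodule.span_mono (Set.image_mono ?_)) ?_
        · intro x hx
          simp only [Finset.coe_union, Finset.coe_insert, Set.mem_union, Finset.mem_coe,
            Set.mem_insert_iff] at hx ⊢
          tauto
        · intro heq
          have h1 : mon q ∈ Submodule.span ℚ
              (mon '' ((P ∪ insert q Q' : Finset (ℕ × ℕ)) : Set (ℕ × ℕ))) :=
            Submodule.subset_span ⟨q, by simp, rfl⟩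
          rw [← heq] at h1
          refine hC q (hQ hq2) (Submodule.span_mono (Set.image_mono ?_) h1)
          intro x hx
          simp only [Finset.coe_union, Set.mem_union, Finset.mem_coe] at hx
          rcases hx with hx | hx
          · exact ⟨hP hx, hdis x hx q hq2⟩
          · refine ⟨hQ (hsub' hx), fun h => ?_⟩
            have := hinj (hsub' hx) hq2 h
            subst this
            exact hq hx
      have := hfin (P ∪ insert q Q')
      have h2 := Submodule.finrank_lt_finrank_of_lt hlt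
      omega
  have h1 := key Q (Finset.Subset.refl _)
  have h2 : Submodule.span ℚ (mon '' ((P ∪ Q : Finset (ℕ × ℕ)) : Set (ℕ × ℕ))) ≤
      degreeLT ℚ (2 * N + 1) := by
    rw [Submodule.span_le]
    rintro _ ⟨x, hx, rfl⟩
    simp only [Finset.coe_union, Set.mem_union, Finset.mem_coe] at hx
    rcases hx with hx | hx
    · exact mon_mem_degreeLT x N (hNP x hx)
    · exact mon_mem_degreeLT x N (hNQ x hx)
  have hfd : Module.Finite ℚ (degreeLT ℚ (2 * N + 1)) :=
    Module.Finite.equiv (degreeLTEquiv ℚ (2 * N + 1)).symm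
  have h3 := Submodule.finrank_mono h2
  have h4 : Module.finrank ℚ (degreeLT ℚ (2 * N + 1)) = 2 * N + 1 := by
    rw [(degreeLTEquiv ℚ (2 * N + 1)).finrank_eq]
    simp
  omega

end Pool.Agent.LibHof81
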