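import Pool.Agent.LibHof81.B3
import Pool.Agent.LibHof81.J1
import Pool.Agent.LibHof81.D1a
import Pool.Agent.LibHof81.D1b

set_option autoImplicit false

namespace Pool.Agent.LibHof81

/-- No good set is dense in every grid square. -/
theorem no_dense (c : ℝ) (hc : 0 < c) (hc1 : c ≤ 1) (h n : ℕ) (hn : 0 < n)
    (hh : 4 / c + 3 < ((h : ℝ) - 1) * c / 2) (C : Finset (ℕ × ℕ))
    (hC : Good (C : Set (ℕ × ℕ)))
    (hd : ∀ k < 2 * h, ∀ l < 2 * h, c * (n : ℝ) ^ 2 ≤ ((C ∩ sq n k l).card : ℝ)) : False := by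
  have hn' : (0 : ℝ) < n := by exact_mod_cast hn
  have h4c : 4 ≤ 4 / c := by
    rw [le_div_iff₀ hc]; linarith
  have hX : 7 < ((h : ℝ) - 1) * c / 2 := by linarith
  have hh1 : (0 : ℝ) < (h : ℝ) - 1 := by
    by_contra hcon
    push Not at hcon
    have := mul_nonneg (neg_nonneg.2 hcon) hc.le
    linarith
  have hhpos : 1 < h := by
    have : (1 : ℝ) < h := by linarith
    exact_mod_cast this
  obtain ⟨Q, hQC, hinj, hQlev, hQcard⟩ := low_levels c hc.le h n hn C
    (fun l hl => hd 0 (by omega) l (by omega))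
  set P : Finset (ℕ × ℕ) := C.filter (fun p => h * n ≤ lev p ∧ lev p < 2 * h * n) with hPdef
  have hhn : 0 < 2 * h * n := by positivity
  have hr := rank_levels (C : Set (ℕ × ℕ)) hC P Q (by
      intro p hp
      exact (Finset.mem_filter.1 (Finset.mem_coe.1 hp)).1) (by exact_mod_cast hQC) hinj (by
      intro p hp q hq
      have h1 := (Finset.mem_filter.1 hp).2.1
      have h2 := hQlev q hq
      omega) (2 * h * n - 1) (by
      intro p hp
      have h1 := (Finset.mem_filter.1 hp).2.2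
      omega) (by
      intro q hq
      have h2 := hQlev q hq
      have : h * n ≤ 2 * h * n := by nlinarith
      omega)
  have hQ14 : 14 * n < Q.card := by
    have : (14 : ℝ) * n < Q.card := by
      have : (14 : ℝ) * n < ((h : ℝ) - 1) * c * n := by
        apply mul_lt_mul_of_pos_right _ hn'
        linarith
      linarith
    exact_mod_cast this
  obtain ⟨m, hsm, hmg, hrow⟩ := rows_le (2 * h * n - 1) Q.card (4 * n) P (by
      intro p hp
      have h1 := (Finset.mem_filter.1 hp).2.2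
      omega) hr (by omega)
  set a0 := m / 2 with ha0
  set t := (a0 + 1) / n with ht
  have ht1 : t * n ≤ a0 + 1 := Nat.div_mul_le_self _ _
  have ht2 : a0 + 1 < (t + 1) * n := by
    rw [ht]
    have h3 := Nat.lt_mul_div_succ (a0 + 1) hn
    calc a0 + 1 < n * ((a0 + 1) / n + 1) := h3
      _ = _ := by ring
  clear_value t
  have hm0 : 2 * a0 ≤ m := by omega
  have hm1 : m ≤ 2 * a0 + 1 := by omega
  have ht3 : 2 ≤ t := by
    by_contra hcon
    push Not at hcon
    have : (t + 1) * n ≤ 2 * n := Nat.mul_le_mul_right _ (by omega)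
    omega
  clear ht
  obtain ⟨k, rfl⟩ : ∃ k, t = k + 1 := ⟨t - 1, by omega⟩
  have hkey : 2 * ((k + 1) * n) + Q.card ≤ 4 * h * n + 4 * n + 1 := by
    have : 2 * (2 * h * n - 1) + 1 + 1 = 4 * h * n := by
      have : 4 * h * n = 2 * (2 * h * n) := by ring
      omega
    omega
  have hk : k < 2 * h := by
    by_contra hcon
    push Not at hcon
    have h5 : 2 * h * n ≤ k * n := Nat.mul_le_mul_right _ hcon
    have h6 : (k + 1) * n = k * n + n := by ring
    have h7 : 4 * h * n = 2 * (2 * h * n) := by ring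
    omega
  have hb := block_row c hc.le h n k hn hk C hd
  rw [← hPdef] at hb
  have hub : ((P.filter (fun p => k * n ≤ p.1 ∧ p.1 < (k + 1) * n)).card) ≤ n * (4 * n) := by
    have hsub : P.filter (fun p => k * n ≤ p.1 ∧ p.1 < (k + 1) * n) ⊆
        (Finset.Ico (k * n) ((k + 1) * n)).biUnion (fun a => P.filter (fun p => p.1 = a)) := by
      intro p hp
      rw [Finset.mem_filter] at hp
      rw [Finset.mem_biUnion]
      exact ⟨p.1, Finset.mem_Ico.2 hp.2, Finset.mem_filter.2 ⟨hp.1, rfl⟩⟩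
    refine (Finset.card_le_card hsub).trans ?_
    refine (Finset.card_biUnion_le_card_mul _ _ (4 * n) ?_).trans ?_
    · intro a ha
      rw [Finset.mem_Ico] at ha
      have h2a : 2 * a ≤ m := by omega
      refine (hrow a h2a).trans ?_
      have h6 : (k + 1 + 1) * n = k * n + 2 * n := by ring
      omega
    · rw [Nat.card_Ico]
      have h6 : (k + 1) * n - k * n = n := by
        have : (k + 1) * n = k * n + n := by ring
        omega
      rw [h6]
  have hub' : ((P.filter (fun p => k * n ≤ p.1 ∧ p.1 < (k + 1) * n)).card : ℝ) ≤ 4 * (n : ℝ) ^ 2 := by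
    have : ((P.filter (fun p => k * n ≤ p.1 ∧ p.1 < (k + 1) * n)).card : ℝ) ≤ ((n * (4 * n) : ℕ) : ℝ) := by
      exact_mod_cast hub
    refine this.trans (le_of_eq ?_)
    push_cast
    ring
  have hmin : 4 / c < min (2 * (h : ℝ) - 1 - k) ((h : ℝ) - 1) := by
    rw [lt_min_iff]
    constructor
    · have h8 : (2 : ℝ) * ((k + 1) * n) + Q.card ≤ 4 * h * n + 4 * n + 1 := by exact_mod_cast hkey
      have h9 : (1 : ℝ) ≤ n := by exact_mod_cast hn
      have h10 : (2 : ℝ) * (k + 1) * n + ((h : ℝ) - 1) * c * n ≤ (4 * h + 5) * n := by nlinarith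
      have h11 : (2 : ℝ) * (k + 1) + ((h : ℝ) - 1) * c ≤ 4 * h + 5 := by
        have : ((2 : ℝ) * (k + 1) + ((h : ℝ) - 1) * c) * n ≤ (4 * h + 5) * n := by
          calc _ = (2 : ℝ) * (k + 1) * n + ((h : ℝ) - 1) * c * n := by ring
            _ ≤ _ := h10
        exact le_of_mul_le_mul_right this hn'
      linarith
    · have : ((h : ℝ) - 1) * c ≤ ((h : ℝ) - 1) * 1 := mul_le_mul_of_nonneg_left hc1 hh1.le
      linarith
  have h12 : 4 * (n : ℝ) ^ 2 < min (2 * (h : ℝ) - 1 - k) ((h : ℝ) - 1) * (c * (n : ℝ) ^ 2) := by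
    have h13 : 4 < min (2 * (h : ℝ) - 1 - k) ((h : ℝ) - 1) * c := by
      rwa [div_lt_iff₀ hc] at hmin
    have h14 : (0 : ℝ) < (n : ℝ) ^ 2 := by positivity
    calc 4 * (n : ℝ) ^ 2 < (min (2 * (h : ℝ) - 1 - k) ((h : ℝ) - 1) * c) * (n : ℝ) ^ 2 :=
          mul_lt_mul_of_pos_right h13 h14
      _ = _ := by ring
  linarith

end Pool.Agent.LibHof81
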