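import Pool.Agent.LibHof81.D0
import Pool.Agent.LibHof81.D1

set_option autoImplicit false

namespace Pool.Agent.LibHof81

open scoped Classical in
/-- The largest size of a good subset of `[0, n)²`. -/
noncomputable def Gmax (n : ℕ) : ℕ :=
  ((Finset.range n ×ˢ Finset.range n).powerset.filter
    (fun C : Finset (ℕ × ℕ) => Good (C : Set (ℕ × ℕ)))).sup Finset.card

theorem le_Gmax (n : ℕ) (C : Finset (ℕ × ℕ)) (hC : Good (C : Set (ℕ × ℕ)))
    (hn : ∀ p ∈ C, p.1 < n ∧ p.2 < n) : C.card ≤ Gmax n := by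
  classical
  unfold Gmax
  refine Finset.le_sup (f := Finset.card) ?_
  rw [Finset.mem_filter, Finset.mem_powerset]
  refine ⟨?_, hC⟩
  intro p hp
  rw [Finset.mem_product, Finset.mem_range, Finset.mem_range]
  exact hn p hp

theorem exists_Gmax (n : ℕ) : ∃ C : Finset (ℕ × ℕ), Good (C : Set (ℕ × ℕ)) ∧
    (∀ p ∈ C, p.1 < n ∧ p.2 < n) ∧ C.card = Gmax n := by
  classical
  have hne : ((Finset.range n ×ˢ Finset.range n).powerset.filter
    (fun C : Finset (ℕ × ℕ) => Good (C : Set (ℕ × ℕ)))).Nonempty := by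
    refine ⟨∅, ?_⟩
    rw [Finset.mem_filter, Finset.mem_powerset]
    refine ⟨Finset.empty_subset _, ?_⟩
    intro p hp
    simp at hp
  obtain ⟨C, hC, hCm⟩ := Finset.exists_mem_eq_sup _ hne Finset.card
  rw [Finset.mem_filter, Finset.mem_powerset] at hC
  refine ⟨C, hC.2, ?_, ?_⟩
  · intro p hp
    have := hC.1 hp
    rw [Finset.mem_product, Finset.mem_range, Finset.mem_range] at this
    exact this
  · unfold Gmax
    rw [← hCm]

theorem card_sq_le (n k l : ℕ) (C : Finset (ℕ × ℕ)) (hC : Good (C : Set (ℕ × ℕ))) :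
    (C ∩ sq n k l).card ≤ Gmax n := by
  classical
  set v : ℕ × ℕ := (k * n, l * n) with hv
  set D : Finset (ℕ × ℕ) := (Finset.range n ×ˢ Finset.range n).filter (fun p => p + v ∈ C) with hD
  have hDgood : Good (D : Set (ℕ × ℕ)) := by
    refine (Good.translate hC v).mono ?_
    intro p hp
    have := (Finset.mem_filter.1 (Finset.mem_coe.1 hp)).2
    simpa using this
  have h1 : C ∩ sq n k l ⊆ D.image (fun p => p + v) := by
    intro p hp
    rw [Finset.mem_inter] at hp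
    obtain ⟨hpC, hps⟩ := hp
    rw [sq, Finset.mem_product, Finset.mem_Ico, Finset.mem_Ico] at hps
    have e1 : (k + 1) * n = k * n + n := by ring
    have e2 : (l + 1) * n = l * n + n := by ring
    have hp : (p.1 - k * n, p.2 - l * n) + v = p := by
      refine Prod.ext ?_ ?_
      · simp only [hv, Prod.fst_add]; omega
      · simp only [hv, Prod.snd_add]; omega
    rw [Finset.mem_image]
    refine ⟨(p.1 - k * n, p.2 - l * n), ?_, hp⟩
    rw [hD, Finset.mem_filter, hp]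
    refine ⟨?_, hpC⟩
    rw [Finset.mem_product, Finset.mem_range, Finset.mem_range]
    constructor
    · show p.1 - k * n < n
      omega
    · show p.2 - l * n < n
      omega
  refine (Finset.card_le_card h1).trans (Finset.card_image_le.trans (le_Gmax n D hDgood ?_))
  intro p hp
  have := (Finset.mem_filter.1 hp).1
  rw [Finset.mem_product, Finset.mem_range, Finset.mem_range] at this
  exact this

theorem card_le_sum_sq (n q : ℕ) (hn : 0 < n) (C : Finset (ℕ × ℕ))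
    (hC : ∀ p ∈ C, p.1 < q * n ∧ p.2 < q * n) :
    C.card ≤ ∑ kl ∈ Finset.range q ×ˢ Finset.range q, (C ∩ sq n kl.1 kl.2).card := by
  classical
  have h1 : C ⊆ (Finset.range q ×ˢ Finset.range q).biUnion (fun kl => C ∩ sq n kl.1 kl.2) := by
    intro p hp
    rw [Finset.mem_biUnion]
    refine ⟨(p.1 / n, p.2 / n), ?_, ?_⟩
    · rw [Finset.mem_product, Finset.mem_range, Finset.mem_range]
      exact ⟨(Nat.div_lt_iff_lt_mul hn).2 (hC p hp).1, (Nat.div_lt_iff_lt_mul hn).2 (hC p hp).2⟩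
    · rw [Finset.mem_inter]
      refine ⟨hp, ?_⟩
      rw [sq, Finset.mem_product, Finset.mem_Ico, Finset.mem_Ico]
      refine ⟨⟨Nat.div_mul_le_self _ _, ?_⟩, ⟨Nat.div_mul_le_self _ _, ?_⟩⟩
      · have := Nat.lt_mul_div_succ p.1 hn
        rw [mul_comm] at this
        exact this
      · have := Nat.lt_mul_div_succ p.2 hn
        rw [mul_comm] at this
        exact this
  exact (Finset.card_le_card h1).trans Finset.card_biUnion_le

theorem Gmax_small (ε : ℝ) (hε : 0 < ε) : ∃ n : ℕ, 0 < n ∧ (Gmax n : ℝ) ≤ ε * (n : ℝ) ^ 2 := by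
  by_contra hcon
  push Not at hcon
  set S : Set ℝ := {x | ∃ n : ℕ, 0 < n ∧ x = (Gmax n : ℝ) / (n : ℝ) ^ 2} with hS
  have hSne : S.Nonempty := ⟨_, 1, one_pos, rfl⟩
  have hSbdd : BddBelow S := by
    refine ⟨ε, ?_⟩
    rintro x ⟨n, hn, rfl⟩
    have : (0 : ℝ) < (n : ℝ) ^ 2 := by positivity
    rw [le_div_iff₀ this]
    exact (hcon n hn).le
  set D := sInf S with hD
  have hεD : ε ≤ D := by
    refine le_csInf hSne ?_
    rintro x ⟨n, hn, rfl⟩
    have : (0 : ℝ) < (n : ℝ) ^ 2 := by positivity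
    rw [le_div_iff₀ this]
    exact (hcon n hn).le
  have hDle : ∀ n : ℕ, 0 < n → D * (n : ℝ) ^ 2 ≤ Gmax n := by
    intro n hn
    have h1 : D ≤ (Gmax n : ℝ) / (n : ℝ) ^ 2 := csInf_le hSbdd ⟨n, hn, rfl⟩
    have : (0 : ℝ) < (n : ℝ) ^ 2 := by positivity
    rwa [le_div_iff₀ this] at h1
  have hDpos : 0 < D := lt_of_lt_of_le hε hεD
  have hD1 : D ≤ 1 := by
    have h1 := hDle 1 one_pos
    obtain ⟨C, -, hC, hCc⟩ := exists_Gmax 1
    have h2 : C ⊆ {((0 : ℕ), (0 : ℕ))} := by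
      intro p hp
      have := hC p hp
      rw [Finset.mem_singleton]
      exact Prod.ext (by show p.1 = 0; omega) (by show p.2 = 0; omega)
    have h3 : Gmax 1 ≤ 1 := by
      rw [← hCc]
      exact (Finset.card_le_card h2).trans (by simp)
    have h4 : (Gmax 1 : ℝ) ≤ 1 := by exact_mod_cast h3
    simp at h1
    linarith
  set c := D / 2 with hc
  have hcpos : 0 < c := by positivity
  obtain ⟨h, hh⟩ : ∃ h : ℕ, 4 / c + 3 < ((h : ℝ) - 1) * c / 2 := by
    obtain ⟨h, hh⟩ := exists_nat_gt ((4 / c + 3) * (2 / c) + 1)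
    refine ⟨h, ?_⟩
    have h1 : (4 / c + 3) * (2 / c) < (h : ℝ) - 1 := by linarith
    calc 4 / c + 3 = ((4 / c + 3) * (2 / c)) * (c / 2) := by field_simp
      _ < ((h : ℝ) - 1) * (c / 2) := mul_lt_mul_of_pos_right h1 (by positivity)
      _ = _ := by ring
  have hhpos : 0 < h := by
    rcases Nat.eq_zero_or_pos h with h0 | h0
    · subst h0
      have : (0 : ℝ) < 4 / c := by positivity
      simp only [Nat.cast_zero] at hh
      linarith
    · exact h0
  set Q : ℝ := (2 * h : ℝ) with hQ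
  have hQpos : 0 < Q := by positivity
  have hlt : D < (1 + 1 / (2 * Q ^ 2)) * D := by
    have : 0 < 1 / (2 * Q ^ 2) * D := by positivity
    linarith
  obtain ⟨_, ⟨n, hn, rfl⟩, hxn⟩ := exists_lt_of_csInf_lt hSne hlt
  have hn2 : (0 : ℝ) < (n : ℝ) ^ 2 := by positivity
  rw [div_lt_iff₀ hn2] at hxn
  obtain ⟨C, hCgood, hCsub, hCcard⟩ := exists_Gmax (2 * h * n)
  refine no_dense c hcpos (by linarith) h n hn hh C hCgood ?_
  intro k hk l hl
  by_contra hlt2
  push Not at hlt2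
  have h5 := card_le_sum_sq n (2 * h) hn C hCsub
  have hmem : (k, l) ∈ Finset.range (2 * h) ×ˢ Finset.range (2 * h) := by
    rw [Finset.mem_product, Finset.mem_range, Finset.mem_range]
    exact ⟨hk, hl⟩
  rw [← Finset.add_sum_erase _ _ hmem] at h5
  have h6 : ∑ kl ∈ (Finset.range (2 * h) ×ˢ Finset.range (2 * h)).erase (k, l),
      (C ∩ sq n kl.1 kl.2).card ≤ ((2 * h) * (2 * h) - 1) * Gmax n := by
    refine (Finset.sum_le_card_nsmul _ _ (Gmax n) (fun kl _ => card_sq_le n kl.1 kl.2 C hCgood)).trans ?_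
    rw [Finset.card_erase_of_mem hmem, Finset.card_product, Finset.card_range, smul_eq_mul]
  have h7 : ((Gmax (2 * h * n) : ℕ) : ℝ) ≤ ((C ∩ sq n k l).card : ℝ) + (Q ^ 2 - 1) * Gmax n := by
    have h8 : Gmax (2 * h * n) ≤ (C ∩ sq n k l).card + ((2 * h) * (2 * h) - 1) * Gmax n := by
      rw [← hCcard]
      exact h5.trans (Nat.add_le_add_left h6 _)
    have h9 : ((((2 * h) * (2 * h) - 1 : ℕ) : ℕ) : ℝ) = Q ^ 2 - 1 := by
      rw [Nat.cast_sub (by nlinarith)]
      push_cast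
      rw [hQ]; ring
    calc ((Gmax (2 * h * n) : ℕ) : ℝ) ≤ (((C ∩ sq n k l).card + ((2 * h) * (2 * h) - 1) * Gmax n : ℕ) : ℝ) := by
          exact_mod_cast h8
      _ = _ := by rw [Nat.cast_add, Nat.cast_mul, h9]
  have h10 := hDle (2 * h * n) (by positivity)
  have h11 : D * (Q ^ 2 * (n : ℝ) ^ 2) ≤ ((Gmax (2 * h * n) : ℕ) : ℝ) := by
    refine le_trans (le_of_eq ?_) h10
    push_cast
    rw [hQ]; ring
  have hQ1 : 1 ≤ Q ^ 2 := by
    have : (1 : ℝ) ≤ h := by exact_mod_cast hhpos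
    rw [hQ]; nlinarith
  have h12 : (Q ^ 2 - 1) * (Gmax n : ℝ) ≤ (Q ^ 2 - 1) * ((1 + 1 / (2 * Q ^ 2)) * D * (n : ℝ) ^ 2) :=
    mul_le_mul_of_nonneg_left hxn.le (by linarith)
  have h13 : (Q ^ 2 - 1) * ((1 + 1 / (2 * Q ^ 2)) * D * (n : ℝ) ^ 2) ≤
      (Q ^ 2 - 1 / 2) * (D * (n : ℝ) ^ 2) := by
    have h14 : (Q ^ 2 - 1) * (1 + 1 / (2 * Q ^ 2)) ≤ Q ^ 2 - 1 / 2 := by
      have h15 : (Q ^ 2 - 1) * (1 + 1 / (2 * Q ^ 2)) = Q ^ 2 - 1 / 2 - 1 / (2 * Q ^ 2) := by
        field_simp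
        ring
      rw [h15]
      have : 0 < 1 / (2 * Q ^ 2) := by positivity
      linarith
    calc _ = ((Q ^ 2 - 1) * (1 + 1 / (2 * Q ^ 2))) * (D * (n : ℝ) ^ 2) := by ring
      _ ≤ _ := mul_le_mul_of_nonneg_right h14 (by positivity)
  have h16 : c * (n : ℝ) ^ 2 = 1 / 2 * (D * (n : ℝ) ^ 2) := by rw [hc]; ring
  nlinarith

/-- Good sets have density tending to zero. -/
theorem good_density (ε : ℝ) (hε : 0 < ε) : ∃ M₀ : ℕ, ∀ M ≥ M₀, ∀ C : Finset (ℕ × ℕ),
    Good (C : Set (ℕ × ℕ)) → (∀ p ∈ C, p.1 < M ∧ p.2 < M) → (C.card : ℝ) ≤ ε * (M : ℝ) ^ 2 := by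
  obtain ⟨n, hn, hG⟩ := Gmax_small (ε / 4) (by positivity)
  refine ⟨n, fun M hM C hC hCM => ?_⟩
  have hlt : ∀ x, x < M → x < (M / n + 1) * n := by
    intro x hx
    have := Nat.lt_mul_div_succ M hn
    rw [mul_comm] at this
    omega
  have h1 := card_le_sum_sq n (M / n + 1) hn C
    (fun p hp => ⟨hlt _ (hCM p hp).1, hlt _ (hCM p hp).2⟩)
  have h2 : C.card ≤ (M / n + 1) * (M / n + 1) * Gmax n := by
    refine h1.trans ((Finset.sum_le_card_nsmul _ _ (Gmax n)
      (fun kl _ => card_sq_le n kl.1 kl.2 C hC)).trans ?_)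
    rw [Finset.card_product, Finset.card_range, smul_eq_mul]
  have hn' : (0 : ℝ) < n := by exact_mod_cast hn
  have h3 : ((M / n + 1 : ℕ) : ℝ) * n ≤ 2 * M := by
    have : (M / n + 1) * n ≤ 2 * M := by
      have := Nat.div_mul_le_self M n
      have e : (M / n + 1) * n = M / n * n + n := by ring
      omega
    exact_mod_cast this
  have h4 : (0 : ℝ) ≤ ((M / n + 1 : ℕ) : ℝ) * n := by positivity
  calc (C.card : ℝ) ≤ (((M / n + 1) * (M / n + 1) * Gmax n : ℕ) : ℝ) := by exact_mod_cast h2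
    _ = ((M / n + 1 : ℕ) : ℝ) * ((M / n + 1 : ℕ) : ℝ) * (Gmax n : ℝ) := by push_cast; ring
    _ ≤ ((M / n + 1 : ℕ) : ℝ) * ((M / n + 1 : ℕ) : ℝ) * (ε / 4 * (n : ℝ) ^ 2) :=
        mul_le_mul_of_nonneg_left hG (by positivity)
    _ = ε / 4 * ((((M / n + 1 : ℕ) : ℝ) * n) * (((M / n + 1 : ℕ) : ℝ) * n)) := by ring
    _ ≤ ε / 4 * ((2 * M) * (2 * M)) := by
        refine mul_le_mul_of_nonneg_left ?_ (by positivity)
        exact mul_le_mul h3 h3 h4 (by positivity)
    _ = ε * (M : ℝ) ^ 2 := by ring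

end Pool.Agent.LibHof81
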