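import Pool.Agent.LibHof81.Defs

set_option autoImplicit false

namespace Pool.Agent.LibHof81

/-- Task V2: a valuation trivial on `K` takes at most `d` values on a `d`-dimensional space. -/
theorem values_card {K : Type*} [Field K] [Algebra K ℂ] {Γ : Type}
    [LinearOrderedCommGroupWithZero Γ] (v : Valuation ℂ Γ)
    (hv : ∀ k : K, k ≠ 0 → v (algebraMap K ℂ k) = 1) (d : ℕ) (w : Fin d → ℂ) :
    ∃ D : Finset Γ, D.card ≤ d ∧
      ∀ z ∈ Submodule.span K (Set.range w), z ≠ 0 → v z ∈ D := by
  classical
  set W := Submodule.span K (Set.range w) with hW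
  have hfin : Module.Finite K W := Module.Finite.span_of_finite K (Set.finite_range w)
  have hdim : Module.finrank K W ≤ d := by
    have := finrank_range_le_card (R := K) w
    rwa [Fintype.card_fin] at this
  set V : Set Γ := {γ | ∃ z ∈ W, z ≠ 0 ∧ v z = γ} with hV
  have key : ∀ F : Finset Γ, (F : Set Γ) ⊆ V → F.card ≤ d := by
    intro F hF
    have hF' : ∀ γ : F, ∃ z : W, (z : ℂ) ≠ 0 ∧ v z = γ := by
      intro γ
      obtain ⟨z, hz, h1, h2⟩ := hF γ.2
      exact ⟨⟨z, hz⟩, h1, h2⟩
    choose z hz1 hz2 using hF'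
    have hli : LinearIndependent K z := by
      rw [linearIndependent_iff']
      intro s a hsum
      by_contra hcon
      push Not at hcon
      obtain ⟨i, hi, hai⟩ := hcon
      set S := s.filter (fun i => a i ≠ 0) with hS
      have hSne : S.Nonempty := ⟨i, by rw [hS, Finset.mem_filter]; exact ⟨hi, hai⟩⟩
      obtain ⟨m, hm, hmax⟩ := S.exists_max_image (fun i : F => (i : Γ)) hSne
      have hsum' : ∑ i ∈ S, a i • (z i : ℂ) = 0 := by
        have h1 : ∑ i ∈ s, a i • (z i : ℂ) = 0 := by
          have := congrArg (fun t : W => (t : ℂ)) hsum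
          simpa using this
        rw [← h1, hS, Finset.sum_filter_of_ne]
        intro x _ hx h0
        apply hx
        rw [h0, zero_smul]
      have hval : ∀ i ∈ S, v (a i • (z i : ℂ)) = (i : Γ) := by
        intro i hi
        rw [hS, Finset.mem_filter] at hi
        rw [Algebra.smul_def, map_mul, hv _ hi.2, one_mul, hz2]
      rw [← Finset.add_sum_erase S _ hm] at hsum'
      have h2 : v (∑ i ∈ S.erase m, a i • (z i : ℂ)) < (m : Γ) := by
        apply Valuation.map_sum_lt
        · rw [← hz2 m]
          exact (Valuation.ne_zero_iff v).2 (hz1 m)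
        · intro i hi
          rw [Finset.mem_erase] at hi
          rw [hval i hi.2]
          exact lt_of_le_of_ne (hmax i hi.2) (fun h => hi.1 (Subtype.ext h))
      have h3 : ∑ i ∈ S.erase m, a i • (z i : ℂ) = -(a m • (z m : ℂ)) :=
        eq_neg_of_add_eq_zero_right hsum'
      rw [h3, Valuation.map_neg, hval m hm] at h2
      exact lt_irrefl _ h2
    have h1 := hli.fintype_card_le_finrank
    rw [Fintype.card_coe] at h1
    exact h1.trans hdim
  have hVfin : V.Finite := by
    by_contra hinf
    obtain ⟨F, hF, hc⟩ := Set.Infinite.exists_subset_card_eq hinf (d + 1)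
    have := key F hF
    omega
  refine ⟨hVfin.toFinset, key _ (by simp), fun z hz hz0 => ?_⟩
  rw [Set.Finite.mem_toFinset]
  exact ⟨z, hz, hz0, rfl⟩

end Pool.Agent.LibHof81
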