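import Pool.Agent.LibHof81.V1
import Pool.Agent.LibHof81.V2

set_option autoImplicit false

namespace Pool.Agent.LibHof81

/-- Task V3: the finitely many forbidden differences of levels. -/
theorem exists_differences {K : Type*} [Field K] [Algebra K ℂ] (x : ℂ) (hx : Transcendental K x)
    (d : ℕ) (w : Fin d → ℂ) :
    ∃ Δ : Finset ℕ, Δ.card ≤ d ^ 2 ∧ 0 ∉ Δ ∧
      ∀ (S : Finset ℕ) (z : ℕ → ℂ), (∀ j ∈ S, z j ∈ Submodule.span K (Set.range w)) →
        (∀ i ∈ S, ∀ j ∈ S, i < j → j - i ∉ Δ) →
        ∑ j ∈ S, x ^ j * z j = 0 → ∀ j ∈ S, z j = 0 := by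
  classical
  obtain ⟨Γ, _, v, hvx, hvK⟩ := exists_valuation x hx
  obtain ⟨D, hDcard, hD⟩ := values_card v hvK d w
  have hvx0 : v x ≠ 0 := (zero_lt_one.trans hvx).ne'
  have hmono : StrictMono fun n : ℕ => v x ^ n := by
    refine strictMono_nat_of_lt_succ fun n => ?_
    rw [pow_succ]
    have h0 : v x ^ n ≠ 0 := pow_ne_zero n hvx0
    calc v x ^ n = v x ^ n * 1 := (mul_one _).symm
      _ < v x ^ n * v x := by
        exact (mul_lt_mul_iff_right₀ (zero_lt_iff.mpr h0)).mpr hvx
  let f : Γ × Γ → ℕ := fun p => if h : ∃ δ : ℕ, v x ^ δ * p.2 = p.1 then h.choose else 0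
  refine ⟨((D ×ˢ D).image f).erase 0, ?_, by simp, ?_⟩
  · calc (((D ×ˢ D).image f).erase 0).card ≤ ((D ×ˢ D).image f).card := Finset.card_erase_le
      _ ≤ (D ×ˢ D).card := Finset.card_image_le
      _ = D.card * D.card := Finset.card_product D D
      _ ≤ d * d := Nat.mul_le_mul hDcard hDcard
      _ = d ^ 2 := by ring
  · intro S z hz hdiff hsum
    by_contra hne
    push Not at hne
    obtain ⟨j0, hj0, hzj0⟩ := hne
    let S' := S.filter fun j => z j ≠ 0
    have hS'ne : S'.Nonempty := ⟨j0, Finset.mem_filter.mpr ⟨hj0, hzj0⟩⟩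
    have hsum' : ∑ j ∈ S', x ^ j * z j = 0 := by
      rw [← hsum]
      refine Finset.sum_subset (Finset.filter_subset _ _) fun j hj hj' => ?_
      have : z j = 0 := by
        by_contra h
        exact hj' (Finset.mem_filter.mpr ⟨hj, h⟩)
      rw [this, mul_zero]
    -- the values are pairwise different
    have hval : ∀ j, v (x ^ j * z j) = v x ^ j * v (z j) := fun j => by
      rw [map_mul, map_pow]
    have hdist : ∀ i ∈ S', ∀ j ∈ S', i < j → v (x ^ i * z i) ≠ v (x ^ j * z j) := by
      intro i hi j hj hij heq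
      have hi' := Finset.mem_filter.mp hi
      have hj' := Finset.mem_filter.mp hj
      have hDi := hD _ (hz i hi'.1) hi'.2
      have hDj := hD _ (hz j hj'.1) hj'.2
      apply hdiff i hi'.1 j hj'.1 hij
      have h1 : v x ^ (j - i) * v (z j) = v (z i) := by
        rw [hval, hval] at heq
        have h2 : v x ^ j = v x ^ i * v x ^ (j - i) := by
          rw [← pow_add]
          congr 1
          omega
        rw [h2, mul_assoc] at heq
        exact (mul_left_cancel₀ (pow_ne_zero i hvx0) heq).symm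
      have h3 : ∃ δ : ℕ, v x ^ δ * (v (z i), v (z j)).2 = (v (z i), v (z j)).1 := ⟨j - i, h1⟩
      have hvzj : v (z j) ≠ 0 := (v.ne_zero_iff).mpr hj'.2
      have h4 : f (v (z i), v (z j)) = j - i := by
        simp only [f]
        rw [dif_pos h3]
        have h5 := h3.choose_spec
        have h6 : v x ^ h3.choose = v x ^ (j - i) := by
          apply mul_right_cancel₀ hvzj
          rw [h1]
          exact h5
        exact hmono.injective h6
      refine Finset.mem_erase.mpr ⟨by omega, Finset.mem_image.mpr ⟨(v (z i), v (z j)), ?_, h4⟩⟩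
      exact Finset.mem_product.mpr ⟨hDi, hDj⟩
    obtain ⟨m, hm, hmax⟩ := S'.exists_max_image (fun j => v (x ^ j * z j)) hS'ne
    have hlt : ∀ i ∈ S' \ {m}, v (x ^ i * z i) < v (x ^ m * z m) := by
      intro i hi
      rw [Finset.mem_sdiff, Finset.mem_singleton] at hi
      refine lt_of_le_of_ne (hmax i hi.1) ?_
      rcases lt_or_gt_of_ne hi.2 with h | h
      · exact hdist i hi.1 m hm h
      · exact (hdist m hm i hi.1 h).symm
    have hs := v.map_sum_eq_of_lt hm hlt
    rw [hsum', map_zero] at hs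
    have hm' := Finset.mem_filter.mp hm
    have : v (x ^ m * z m) ≠ 0 := by
      rw [hval]
      exact mul_ne_zero (pow_ne_zero m hvx0) ((v.ne_zero_iff).mpr hm'.2)
    exact this hs.symm

end Pool.Agent.LibHof81
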