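import Pool.Agent.LibHof81.Defs

set_option autoImplicit false

namespace Pool.Agent.LibHof81

open Polynomial

theorem coeff_one_sub_X_pow (n k : ℕ) : ((1 - X : ℚ[X]) ^ n).coeff k = (n.choose k : ℚ) * (-1) ^ k := by
  have h : (1 - X : ℚ[X]) ^ n = ((1 + X : ℚ[X]) ^ n).comp (C (-1) * X) := by
    rw [pow_comp, add_comp, one_comp, X_comp]
    congr 1
    rw [map_neg, map_one]
    ring
  rw [h, comp_C_mul_X_coeff, coeff_one_add_X_pow]

theorem coeff_mon (a b i : ℕ) : (mon (a, b)).coeff i =
    if 2 * a ≤ i then ((2 * b).choose (i - 2 * a) : ℚ) * (-1) ^ (i - 2 * a) else 0 := by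
  unfold mon
  rw [coeff_X_pow_mul']
  simp only [coeff_one_sub_X_pow]

/-- the polynomial with value `binom(2b, j) (-1)^j` at `b` -/
noncomputable def binp (j : ℕ) : ℚ[X] :=
  C ((-1) ^ j / (j.factorial : ℚ)) * (descPochhammer ℚ j).comp (C 2 * X)

theorem eval_binp (j b : ℕ) : (binp j).eval (b : ℚ) = ((2 * b).choose j : ℚ) * (-1) ^ j := by
  unfold binp
  rw [eval_mul, eval_C, eval_comp, eval_mul, eval_C, eval_X, Nat.cast_choose_eq_descPochhammer_div]
  push_cast
  ring

theorem natDegree_binp_le (j : ℕ) : (binp j).natDegree ≤ j := by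
  unfold binp
  refine (natDegree_C_mul_le _ _).trans ?_
  rw [natDegree_comp, descPochhammer_natDegree]
  have : (C (2 : ℚ) * X : ℚ[X]).natDegree ≤ 1 :=
    (natDegree_C_mul_le _ _).trans natDegree_X_le
  nlinarith

theorem coeff_binp (j : ℕ) : (binp j).coeff j = (-1) ^ j / (j.factorial : ℚ) * 2 ^ j := by
  unfold binp
  rw [coeff_C_mul, comp_C_mul_X_coeff]
  have h := monic_descPochhammer ℚ j
  have h2 : (descPochhammer ℚ j).coeff j = 1 := by
    have := h.coeff_natDegree
    rwa [descPochhammer_natDegree] at this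
  rw [h2, one_mul]

/-- In the row `a` the functional is a polynomial in `b` of exact degree `m - 2a`. -/
theorem row_card (c : ℕ → ℚ) (m K a : ℕ) (hm : c m ≠ 0) (hc : ∀ i, m < i → c i = 0) (hmK : m < K)
    (ha : 2 * a ≤ m) (B : Finset ℕ)
    (hB : ∀ b ∈ B, ∑ i ∈ Finset.range K, c i * (mon (a, b)).coeff i = 0) :
    B.card ≤ m - 2 * a := by
  classical
  set J := m - 2 * a with hJ
  set G : ℚ[X] := ∑ j ∈ Finset.range (J + 1), C (c (2 * a + j)) * binp j with hG
  have hdeg : G.natDegree ≤ J := by
    refine natDegree_sum_le_of_forall_le _ _ (fun j hj => ?_)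
    rw [Finset.mem_range] at hj
    exact (natDegree_C_mul_le _ _).trans ((natDegree_binp_le j).trans (by omega))
  have hcoeff : G.coeff J ≠ 0 := by
    rw [hG, finsetSum_coeff, Finset.sum_eq_single J]
    · rw [coeff_C_mul, coeff_binp, show 2 * a + J = m by omega]
      refine mul_ne_zero hm (mul_ne_zero (div_ne_zero (pow_ne_zero _ (by norm_num)) ?_)
        (pow_ne_zero _ (by norm_num)))
      exact_mod_cast Nat.factorial_ne_zero J
    · intro j hj hne
      rw [Finset.mem_range] at hj
      rw [coeff_C_mul, coeff_eq_zero_of_natDegree_lt, mul_zero]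
      exact (natDegree_binp_le j).trans_lt (by omega)
    · intro h
      exact absurd (Finset.mem_range.2 (Nat.lt_succ_self J)) h
  have hG0 : G ≠ 0 := by
    intro h
    rw [h] at hcoeff
    simp at hcoeff
  have heval : ∀ b ∈ B, G.eval (b : ℚ) = 0 := by
    intro b hb
    have h1 := hB b hb
    rw [← h1, hG, eval_finsetSum]
    simp only [eval_mul, eval_C, eval_binp]
    have h2 : ∑ i ∈ Finset.range K, c i * (mon (a, b)).coeff i =
        ∑ i ∈ (Finset.range K).filter (fun i => 2 * a ≤ i ∧ i ≤ m), c i * (mon (a, b)).coeff i := by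
      rw [Finset.sum_filter]
      refine Finset.sum_congr rfl (fun i _ => ?_)
      split_ifs with h
      · rfl
      · rw [not_and_or] at h
        rcases h with h | h
        · rw [coeff_mon, if_neg h, mul_zero]
        · rw [hc i (by omega), zero_mul]
    rw [h2]
    refine Finset.sum_bij (fun j _ => 2 * a + j) ?_ ?_ ?_ ?_
    · intro j hj
      rw [Finset.mem_range] at hj
      rw [Finset.mem_filter, Finset.mem_range]
      omega
    · intro j _ j' _ h
      omega
    · intro i hi
      rw [Finset.mem_filter, Finset.mem_range] at hi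
      exact ⟨i - 2 * a, Finset.mem_range.2 (by omega), by omega⟩
    · intro j hj
      rw [coeff_mon, if_pos (by omega), show 2 * a + j - 2 * a = j by omega]
  have hcard : (B.image (fun b : ℕ => (b : ℚ))).card = B.card :=
    Finset.card_image_of_injective _ Nat.cast_injective
  rw [← hcard]
  refine (card_le_degree_of_subset_roots ?_).trans hdeg
  intro x hx
  rw [Finset.mem_val, Finset.mem_image] at hx
  obtain ⟨b, hb, rfl⟩ := hx
  rw [mem_roots hG0]
  exact heval b hb

end Pool.Agent.LibHof81
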