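import Pool.Agent.LibHof81.B1
import Pool.Agent.LibHof81.B2

set_option autoImplicit false

namespace Pool.Agent.LibHof81

open Polynomial

/-- Lemma B. -/
theorem rows_le (N g s : ℕ) (P : Finset (ℕ × ℕ)) (hN : ∀ p ∈ P, lev p ≤ N)
    (hr : Module.finrank ℚ (Submodule.span ℚ (mon '' (P : Set (ℕ × ℕ)))) + g ≤ 2 * N + 1)
    (hs : s < g) :
    ∃ m, s ≤ m ∧ m + g ≤ 2 * N + 1 + s ∧
      ∀ a, 2 * a ≤ m → (P.filter (fun p => p.1 = a)).card ≤ m - 2 * a := by
  obtain ⟨c, m, hsm, hmg, hcm, hc, -, hP⟩ := exists_functional N g s P hN hr hs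
  refine ⟨m, hsm, hmg, fun a ha => ?_⟩
  have h1 : (P.filter (fun p => p.1 = a)).card =
      ((P.filter (fun p => p.1 = a)).image Prod.snd).card := by
    rw [Finset.card_image_of_injOn]
    intro x hx y hy hxy
    simp only [Finset.coe_filter, Set.mem_setOf_eq] at hx hy
    exact Prod.ext (hx.2.trans hy.2.symm) hxy
  rw [h1]
  refine row_card c m (2 * N + 1) a hcm hc (by omega) ha _ ?_
  intro b hb
  simp only [Finset.mem_image, Finset.mem_filter] at hb
  obtain ⟨p, ⟨hp, hpa⟩, hpb⟩ := hb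
  have := hP p hp
  rwa [show p = (a, b) from Prod.ext hpa hpb] at this

end Pool.Agent.LibHof81
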