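import Pool.Agent.LibHof81.Defs

set_option autoImplicit false

namespace Pool.Agent.LibHof81

open Polynomial

/-- Good sets: subsets. -/
theorem Good.mono {C D : Set (ℕ × ℕ)} (h : Good D) (hCD : C ⊆ D) : Good C := by
  intro p hp hmem
  refine h p (hCD hp) (Submodule.span_mono (Set.image_mono ?_) hmem)
  intro q hq
  exact ⟨hCD hq.1, hq.2⟩

theorem mon_add (p v : ℕ × ℕ) : mon (p + v) = mon v * mon p := by
  unfold mon
  simp only [Prod.fst_add, Prod.snd_add, mul_add, pow_add]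
  ring

theorem Good.translate {C : Set (ℕ × ℕ)} (h : Good C) (v : ℕ × ℕ) :
    Good {p | p + v ∈ C} := by
  intro p hp hmem
  refine h (p + v) hp ?_
  rw [mon_add]
  have h1 : mon v * mon p ∈ (Submodule.span ℚ (mon '' {q | q ∈ {p | p + v ∈ C} ∧ lev q ≠ lev p})).map
      (LinearMap.mulLeft ℚ (mon v)) := ⟨mon p, hmem, rfl⟩
  rw [Submodule.map_span] at h1
  refine Submodule.span_mono ?_ h1
  rintro _ ⟨_, ⟨q, ⟨hq, hlev⟩, rfl⟩, rfl⟩
  refine ⟨q + v, ⟨hq, ?_⟩, ?_⟩
  · intro he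
    apply hlev
    simp only [lev, Prod.fst_add, Prod.snd_add] at he ⊢
    omega
  · rw [mon_add]; rfl

end Pool.Agent.LibHof81
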