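import Pool.Agent.LibHof81.Defs

set_option autoImplicit false

namespace Pool.Agent.LibHof81

open Polynomial

/-- Task A1: a colour class of the exceptional set is good. -/
theorem good_of_class {K : Type*} [Field K] [Algebra K ℂ] (y : ℂ) (H : ℕ × ℕ → ℂ)
    (hH : ∀ p, H p ≠ 0) (c : ℕ × ℕ → ℚ) (hc : ∀ p, c p ≠ 0) (Λ : ℚ[X] →ₗ[ℚ] ℂ)
    (hΛ : ∀ p, Λ (mon p) = (c p : ℂ) * H p * y ^ lev p) (W : Submodule K ℂ) (Δ : Finset ℕ)
    (hΔ : ∀ (S : Finset ℕ) (z : ℕ → ℂ), (∀ j ∈ S, z j ∈ W) →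
        (∀ i ∈ S, ∀ j ∈ S, i < j → j - i ∉ Δ) →
        ∑ j ∈ S, y ^ j * z j = 0 → ∀ j ∈ S, z j = 0)
    (C : Set (ℕ × ℕ)) (hCW : ∀ p ∈ C, H p ∈ W)
    (hCΔ : ∀ p ∈ C, ∀ q ∈ C, lev p < lev q → lev q - lev p ∉ Δ) : Good C := by
  classical
  intro p hp hmem
  rw [Finsupp.mem_span_image_iff_linearCombination] at hmem
  obtain ⟨l, hl, hsum⟩ := hmem
  have hlC : ∀ q ∈ l.support, q ∈ C ∧ lev q ≠ lev p := fun q hq => hl hq
  -- rational multiples
  have hrat : ∀ (r : ℚ) (h : ℂ), h ∈ W → (r : ℂ) * h ∈ W := by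
    intro r h hh
    have hcz : CharZero K := (algebraMap K ℂ).charZero
    have : (r : ℂ) = algebraMap K ℂ (r : K) := by rw [map_ratCast]
    rw [this, ← Algebra.smul_def]
    exact W.smul_mem _ hh
  have h1 : ∑ q ∈ l.support, (l q : ℂ) * ((c q : ℂ) * H q * y ^ lev q) =
      (c p : ℂ) * H p * y ^ lev p := by
    rw [← hΛ p, ← hsum, Finsupp.linearCombination_apply, Finsupp.sum, map_sum]
    apply Finset.sum_congr rfl
    intro q _
    rw [map_smul, hΛ q, Rat.smul_def]
  set S : Finset ℕ := insert (lev p) (l.support.image lev) with hS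
  set z : ℕ → ℂ := fun j => if j = lev p then -((c p : ℂ) * H p) else
    ∑ q ∈ l.support with lev q = j, (l q : ℂ) * ((c q : ℂ) * H q) with hz
  have hpn : lev p ∉ l.support.image lev := by
    rw [Finset.mem_image]
    rintro ⟨q, hq, hqp⟩
    exact (hlC q hq).2 hqp
  have hC' : ∀ j ∈ S, ∃ q ∈ C, lev q = j := by
    intro j hj
    rw [hS, Finset.mem_insert, Finset.mem_image] at hj
    rcases hj with rfl | ⟨q, hq, rfl⟩
    · exact ⟨p, hp, rfl⟩
    · exact ⟨q, (hlC q hq).1, rfl⟩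
  have hfin := hΔ S z ?_ ?_ ?_ (lev p) (Finset.mem_insert_self _ _)
  · simp only [hz, if_true, neg_eq_zero, mul_eq_zero] at hfin
    rcases hfin with h | h
    · exact hc p (by exact_mod_cast h)
    · exact hH p h
  · intro j _
    simp only [hz]
    split_ifs
    · exact W.neg_mem (hrat _ _ (hCW p hp))
    · apply W.sum_mem
      intro q hq
      rw [Finset.mem_filter] at hq
      exact hrat _ _ (hrat _ _ (hCW q (hlC q hq.1).1))
  · intro i hi j hj hij
    obtain ⟨q, hq, rfl⟩ := hC' i hi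
    obtain ⟨q', hq', rfl⟩ := hC' j hj
    exact hCΔ q hq q' hq' hij
  · rw [hS, Finset.sum_insert hpn]
    have h2 : ∑ j ∈ l.support.image lev, y ^ j * z j =
        ∑ q ∈ l.support, (l q : ℂ) * ((c q : ℂ) * H q * y ^ lev q) := by
      rw [← Finset.sum_fiberwise_of_maps_to (s := l.support) (t := l.support.image lev)
        (g := lev) (fun q hq => Finset.mem_image_of_mem _ hq)]
      apply Finset.sum_congr rfl
      intro j hj
      have hjp : j ≠ lev p := fun h => hpn (h ▸ hj)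
      simp only [hz, if_neg hjp]
      rw [Finset.mul_sum]
      apply Finset.sum_congr rfl
      intro q hq
      rw [Finset.mem_filter] at hq
      rw [hq.2]
      ring
    rw [h2, h1]
    simp only [hz, if_true]
    ring

end Pool.Agent.LibHof81
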