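import Pool.Agent.LibHof81.A1
import Pool.Agent.LibHof81.D2
import Pool.Agent.LibHof81.V3
import Pool.Agent.LibHof81.V4

set_option autoImplicit false

namespace Pool.Agent.LibHof81

open Polynomial

/-- The exceptional set of a `d`-dimensional space has density zero, uniformly. -/
theorem exceptional_bound {K : Type*} [Field K] [Algebra K ℂ] (y : ℂ) (hy : Transcendental K y)
    (H : ℕ × ℕ → ℂ) (hH : ∀ p, H p ≠ 0) (c : ℕ × ℕ → ℚ) (hc : ∀ p, c p ≠ 0) (Λ : ℚ[X] →ₗ[ℚ] ℂ)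
    (hΛ : ∀ p, Λ (mon p) = (c p : ℂ) * H p * y ^ lev p) (d : ℕ) (ε : ℝ) (hε : 0 < ε) :
    ∃ M₀ : ℕ, ∀ M ≥ M₀, ∀ w : Fin d → ℂ,
      ({p : ℕ × ℕ | p ∈ tri M ∧ H p ∈ Submodule.span K (Set.range w)}.ncard : ℝ) ≤
        ε * (M : ℝ) ^ 2 := by
  classical
  set k : ℕ := 2 ^ (d ^ 2) with hk
  have hkpos : (0 : ℝ) < (k : ℝ) := by
    rw [hk]; positivity
  obtain ⟨M₀, hM₀⟩ := good_density (ε / k) (by positivity)
  refine ⟨M₀, fun M hM w => ?_⟩
  obtain ⟨Δ, hΔc, hΔ0, hΔ⟩ := exists_differences y hy d w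
  obtain ⟨χ, hχ⟩ := exists_colour Δ (d ^ 2) hΔc hΔ0
  set E : Finset (ℕ × ℕ) := (tri M).filter (fun p => H p ∈ Submodule.span K (Set.range w)) with hE
  have hEset : {p : ℕ × ℕ | p ∈ tri M ∧ H p ∈ Submodule.span K (Set.range w)} =
      (E : Set (ℕ × ℕ)) := by
    ext p
    simp [hE]
  rw [hEset, Set.ncard_coe_finset]
  have hclass : ∀ i : Fin k, ((E.filter (fun p => χ (lev p) = i)).card : ℝ) ≤ ε / k * (M : ℝ) ^ 2 := by
    intro i
    apply hM₀ M hM
    · refine good_of_class y H hH c hc Λ hΛ (Submodule.span K (Set.range w)) Δ hΔ _ ?_ ?_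
      · intro p hp
        have := (Finset.mem_filter.1 (Finset.mem_coe.1 hp)).1
        exact (Finset.mem_filter.1 this).2
      · intro p hp q hq hlt hmem
        have h1 := (Finset.mem_filter.1 (Finset.mem_coe.1 hp)).2
        have h2 := (Finset.mem_filter.1 (Finset.mem_coe.1 hq)).2
        exact hχ _ _ hlt hmem (h1.trans h2.symm)
    · intro p hp
      have h1 := (Finset.mem_filter.1 (Finset.mem_filter.1 hp).1).1
      rw [tri, Finset.mem_filter, Finset.mem_product, Finset.mem_range, Finset.mem_range] at h1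
      exact h1.1
  have hsum : E.card = ∑ i : Fin k, (E.filter (fun p => χ (lev p) = i)).card :=
    Finset.card_eq_sum_card_fiberwise (fun p _ => Finset.mem_coe.2 (Finset.mem_univ _))
  rw [hsum]
  push_cast
  calc ∑ i : Fin k, ((E.filter (fun p => χ (lev p) = i)).card : ℝ)
      ≤ ∑ _i : Fin k, ε / k * (M : ℝ) ^ 2 := Finset.sum_le_sum (fun i _ => hclass i)
    _ = ε * (M : ℝ) ^ 2 := by
        rw [Finset.sum_const, Finset.card_univ, Fintype.card_fin, nsmul_eq_mul]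
        field_simp

end Pool.Agent.LibHof81
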