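import Pool.Agent.LibHof81.Defs

set_option autoImplicit false

namespace Pool.Agent.LibHof81

open Polynomial

namespace B1

/-- the coefficient vector -/
noncomputable def cv (n : ℕ) : ℚ[X] →ₗ[ℚ] (Fin n → ℚ) where
  toFun p i := p.coeff i
  map_add' p q := by ext i; simp
  map_smul' a p := by ext i; simp

end B1

/-- Task B1: a nonzero functional `p ↦ ∑ c_i [t^i] p` killing the monomials of `P`, and supported on `[s, m]`. -/
theorem exists_functional (N g s : ℕ) (P : Finset (ℕ × ℕ)) (hN : ∀ p ∈ P, lev p ≤ N)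
    (hr : Module.finrank ℚ (Submodule.span ℚ (mon '' (P : Set (ℕ × ℕ)))) + g ≤ 2 * N + 1)
    (hs : s < g) :
    ∃ (c : ℕ → ℚ) (m : ℕ), s ≤ m ∧ m + g ≤ 2 * N + 1 + s ∧ c m ≠ 0 ∧ (∀ i, m < i → c i = 0) ∧
      (∀ i < s, c i = 0) ∧
      ∀ p ∈ P, ∑ i ∈ Finset.range (2 * N + 1), c i * (mon p).coeff i = 0 := by
  classical
  set n := 2 * N + 1 with hn
  set U₁ : Submodule ℚ (Fin n → ℚ) :=
    (Submodule.span ℚ (mon '' (P : Set (ℕ × ℕ)))).map (B1.cv n) with hU₁
  set I : Finset (Fin n) := Finset.univ.filter (fun i => (i : ℕ) < s ∨ n + s < i + g) with hI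
  set U₂ : Submodule ℚ (Fin n → ℚ) :=
    Submodule.span ℚ ((fun i : Fin n => (Pi.single i (1 : ℚ) : Fin n → ℚ)) '' (I : Set (Fin n)))
    with hU₂
  have hg : g ≤ n := by omega
  have hIcard : I.card ≤ g - 1 := by
    have h1 : I.card = (I.image (fun i : Fin n => (i : ℕ))).card :=
      (Finset.card_image_of_injective _ Fin.val_injective).symm
    rw [h1]
    have h2 : I.image (fun i : Fin n => (i : ℕ)) ⊆
        Finset.range s ∪ Finset.Ico (n + s - g + 1) n := by
      intro j hj
      rw [Finset.mem_image] at hj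
      obtain ⟨i, hi, rfl⟩ := hj
      rw [hI, Finset.mem_filter] at hi
      rw [Finset.mem_union, Finset.mem_range, Finset.mem_Ico]
      have := i.2
      rcases hi.2 with h | h
      · exact Or.inl h
      · right
        omega
    refine (Finset.card_le_card h2).trans ((Finset.card_union_le _ _).trans ?_)
    rw [Finset.card_range, Nat.card_Ico]
    omega
  have hfin : Module.Finite ℚ (Submodule.span ℚ (mon '' (P : Set (ℕ × ℕ)))) :=
    Module.Finite.span_of_finite ℚ (P.finite_toSet.image _)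
  have hd₁ : Module.finrank ℚ U₁ + g ≤ n := by
    have h1 : Module.finrank ℚ U₁ ≤
        Module.finrank ℚ (Submodule.span ℚ (mon '' (P : Set (ℕ × ℕ)))) :=
      Submodule.finrank_map_le (B1.cv n) (Submodule.span ℚ (mon '' (P : Set (ℕ × ℕ))))
    omega
  have hd₂ : Module.finrank ℚ U₂ ≤ g - 1 := by
    have h1 : Module.finrank ℚ U₂ ≤
        (I.image (fun i : Fin n => (Pi.single i (1 : ℚ) : Fin n → ℚ))).card := by
      rw [hU₂, ← Finset.coe_image]
      exact finrank_span_finset_le_card _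
    exact h1.trans (Finset.card_image_le.trans hIcard)
  have hlt : U₁ ⊔ U₂ < ⊤ := by
    rw [lt_top_iff_ne_top]
    intro htop
    have h1 := Submodule.finrank_add_le_finrank_add_finrank U₁ U₂
    rw [htop, finrank_top, Module.finrank_fin_fun] at h1
    omega
  obtain ⟨f, hf0, hf⟩ := Submodule.exists_le_ker_of_lt_top _ hlt
  set c : ℕ → ℚ := fun i => if h : i < n then f (Pi.single ⟨i, h⟩ 1) else 0 with hc
  have hfc : ∀ v : Fin n → ℚ, f v = ∑ i : Fin n, c i * v i := by
    intro v
    have h1 : v = ∑ i : Fin n, v i • (Pi.single i (1 : ℚ) : Fin n → ℚ) := by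
      ext j
      simp [Finset.sum_apply, Pi.single_apply]
    conv_lhs => rw [h1]
    rw [map_sum]
    refine Finset.sum_congr rfl fun i _ => ?_
    rw [map_smul, hc]
    simp only [Fin.is_lt, dif_pos, smul_eq_mul]
    rw [mul_comm]
  have hcI : ∀ i : Fin n, i ∈ I → c i = 0 := by
    intro i hi
    have h1 : (Pi.single i (1 : ℚ) : Fin n → ℚ) ∈ U₂ := Submodule.subset_span ⟨i, hi, rfl⟩
    have h2 := hf (Submodule.mem_sup_right h1)
    rw [LinearMap.mem_ker] at h2
    rw [hc]
    simp only [Fin.is_lt, dif_pos]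
    exact h2
  have hc0 : ∀ i, n ≤ i → c i = 0 := fun i hi => by
    rw [hc]
    exact dif_neg (by omega)
  have hex : ∃ i ∈ Finset.range n, c i ≠ 0 := by
    by_contra hcon
    push Not at hcon
    apply hf0
    ext v
    rw [LinearMap.comp_apply, hfc]
    rw [LinearMap.zero_comp, LinearMap.zero_apply]
    exact Finset.sum_eq_zero fun i _ => by rw [hcon i (Finset.mem_range.2 i.2), zero_mul]
  set S : Finset ℕ := (Finset.range n).filter (fun i => c i ≠ 0) with hS
  have hSne : S.Nonempty := by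
    obtain ⟨i, hi, hci⟩ := hex
    exact ⟨i, Finset.mem_filter.2 ⟨hi, hci⟩⟩
  have hmS := S.max'_mem hSne
  set m := S.max' hSne with hm
  rw [hS, Finset.mem_filter, Finset.mem_range] at hmS
  have hmI : (⟨m, hmS.1⟩ : Fin n) ∉ I := fun h => hmS.2 (hcI _ h)
  rw [hI, Finset.mem_filter] at hmI
  push Not at hmI
  have hmI' := hmI (Finset.mem_univ _)
  simp only at hmI'
  refine ⟨c, m, hmI'.1, by omega, hmS.2, ?_, ?_, ?_⟩
  · intro i hi
    by_contra hci
    by_cases hin : i < n
    · have : i ≤ m := S.le_max' i (Finset.mem_filter.2 ⟨Finset.mem_range.2 hin, hci⟩)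
      omega
    · exact hci (hc0 i (by omega))
  · intro i hi
    by_cases hin : i < n
    · exact hcI ⟨i, hin⟩ (by rw [hI, Finset.mem_filter]; exact ⟨Finset.mem_univ _, Or.inl hi⟩)
    · exact hc0 i (by omega)
  · intro p hp
    have h1 : B1.cv n (mon p) ∈ U₁ := Submodule.mem_map_of_mem (Submodule.subset_span ⟨p, hp, rfl⟩)
    have h2 := hf (Submodule.mem_sup_left h1)
    rw [LinearMap.mem_ker, hfc] at h2
    rw [Finset.sum_range]
    exact h2

end Pool.Agent.LibHof81
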