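import Mathlib

set_option autoImplicit false

namespace Pool.Agent.LibHof81

open Polynomial

/-- The multiple zeta value of the word `n` (the formula of the frozen statement). -/
noncomputable def mzv {r : ℕ} (n : Fin r → ℕ) : ℝ :=
  ∑' k : {k : Fin r → ℕ // StrictAnti k ∧ ∀ i, 0 < k i}, ∏ i, ((k.1 i : ℝ) ^ (n i))⁻¹

/-- The level-one Hoffman element `ζ({2}^b, 3, {2}^a)` attached to `p = (a, b)`. -/
noncomputable def levelOne (p : ℕ × ℕ) : ℝ :=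
  mzv (fun i : Fin (p.2 + 1 + p.1) => if (i : ℕ) = p.2 then 3 else 2)

/-- The level-zero Hoffman element `ζ({2}^n)`. -/
noncomputable def levelZero (n : ℕ) : ℝ := mzv (fun _ : Fin n => 2)

/-- The polynomial `t^(2a) (1 - t)^(2b)`. -/
noncomputable def mon (p : ℕ × ℕ) : ℚ[X] := X ^ (2 * p.1) * (1 - X) ^ (2 * p.2)

/-- The level `a + b`. -/
def lev (p : ℕ × ℕ) : ℕ := p.1 + p.2

/-- No monomial of `C` lies in the span of the monomials of `C` of the other levels. -/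
def Good (C : Set (ℕ × ℕ)) : Prop :=
  ∀ p ∈ C, mon p ∉ Submodule.span ℚ (mon '' {q | q ∈ C ∧ lev q ≠ lev p})

/-- The triangle `a + b < M`. -/
def tri (M : ℕ) : Finset (ℕ × ℕ) :=
  (Finset.range M ×ˢ Finset.range M).filter (fun p => p.1 + p.2 < M)

/-- The grid square `[kn, (k+1)n) × [ln, (l+1)n)`. -/
def sq (n k l : ℕ) : Finset (ℕ × ℕ) :=
  Finset.Ico (k * n) ((k + 1) * n) ×ˢ Finset.Ico (l * n) ((l + 1) * n)

/-- `Lo a n = ∑_{n > k_1 > ... > k_a ≥ 1} ∏ 1/k_i²` (the terms with some `k_i = 0` vanish). -/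
noncomputable def Lo : ℕ → ℕ → ℝ
  | 0, _ => 1
  | a + 1, n => ∑ m ∈ Finset.range n, ((m : ℝ) ^ 2)⁻¹ * Lo a m

/-- `Up b n = ∑_{k_1 > ... > k_b > n} ∏ 1/k_i²`, as an extended nonnegative real. -/
noncomputable def Up : ℕ → ℕ → ENNReal
  | 0, _ => 1
  | b + 1, n => ∑' m : ℕ, if n < m then ENNReal.ofReal (((m : ℝ) ^ 2)⁻¹) * Up b m else 0

/-- `A b n = ∫_0^{π/2} (2x)^(2b)/(2b)! cos^(2n) x dx`. -/
noncomputable def Ai (b n : ℕ) : ℝ :=
  ∫ x in (0 : ℝ)..(Real.pi / 2), (2 * x) ^ (2 * b) / ((2 * b).factorial : ℝ) * Real.cos x ^ (2 * n)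

/-- `W n = (2/π) 4^n / binom(2n, n)`. -/
noncomputable def Wn (n : ℕ) : ℝ := 2 / Real.pi * (4 ^ n / (Nat.centralBinom n : ℝ))

/-- `J b n = W n * A b n`. -/
noncomputable def Jn (b n : ℕ) : ℝ := Wn n * Ai b n

/-- `e n = 4^n / (n² binom(2n, n))` (`0` for `n = 0`). -/
noncomputable def en (n : ℕ) : ℝ := 4 ^ n / ((n : ℝ) ^ 2 * (Nat.centralBinom n : ℝ))

end Pool.Agent.LibHof81
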