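import Pool.Agent.LibHof81.P3a

set_option autoImplicit false

namespace Pool.Agent.LibHof81

open Polynomial

theorem exists_large_prime (N x : ℝ) (hN : 0 ≤ N) (hx : 0 ≤ x) (m : ℕ) :
    ∃ p : ℕ, p.Prime ∧ m < p ∧ N * (x ^ p / ((p - 1).factorial : ℝ)) < 1 := by
  have h1 : Filter.Tendsto (fun n : ℕ => N * x * (x ^ n / (n.factorial : ℝ))) Filter.atTop
      (nhds (N * x * 0)) := (FloorSemiring.tendsto_pow_div_factorial_atTop x).const_mul _
  rw [mul_zero] at h1
  have h2 := h1.eventually (gt_mem_nhds (zero_lt_one))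
  obtain ⟨n0, hn0⟩ := Filter.eventually_atTop.1 h2
  obtain ⟨p, hp1, hp2⟩ := Nat.exists_infinite_primes (max (m + 1) (n0 + 1))
  refine ⟨p, hp2, by omega, ?_⟩
  have h3 := hn0 (p - 1) (by omega)
  have h4 : x ^ p = x * x ^ (p - 1) := by
    rw [← pow_succ']
    congr 1
    have := hp2.pos
    omega
  calc N * (x ^ p / ((p - 1).factorial : ℝ)) = N * x * (x ^ (p - 1) / ((p - 1).factorial : ℝ)) := by
        rw [h4]; ring
    _ < 1 := h3

/-- The exponentials of the roots of an integral polynomial with nonzero constant term do not sum to a negative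
integer. -/
theorem sum_exp_ne (f : ℤ[X]) (hf : f.eval 0 ≠ 0) (q : ℕ) (hq : 0 < q) :
    (q : ℂ) + ((f.aroots ℂ).map Complex.exp).sum ≠ 0 := by
  intro h
  obtain ⟨c, hc⟩ := LindemannWeierstrass.exp_polynomial_approx f hf
  have hf0 : f ≠ 0 := by
    rintro rfl
    simp at hf
  set s := f.aroots ℂ with hs
  set l := f.leadingCoeff with hl
  have hl0 : l ≠ 0 := leadingCoeff_ne_zero.2 hf0
  set d := f.natDegree with hd
  have hl1 : (0 : ℝ) ≤ ‖(l : ℂ)‖ := norm_nonneg _
  obtain ⟨p, hp, hpm, hpx⟩ := exists_large_prime (s.card : ℝ) (‖(l : ℂ)‖ ^ d * |c|) (by positivity)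
    (by positivity) (max (eval 0 f).natAbs (max l.natAbs q))
  obtain ⟨n, hpn, gp, hdeg, hgp⟩ := hc p (by omega) hp
  obtain ⟨z, hz⟩ := int_sum_aroots f gp (p * d) (by omega)
  rw [← hs, ← hl] at hz
  -- the error term
  set E : ℂ := (s.map (fun r => n • Complex.exp r - p • (aeval r) gp)).sum with hE
  have hEnorm : ‖E‖ ≤ (s.card : ℝ) * (|c| ^ p / ((p - 1).factorial : ℝ)) := by
    have h1 : ‖E‖ ≤ ((s.map (fun r => n • Complex.exp r - p • (aeval r) gp)).map (fun x => ‖x‖)).sum :=
      norm_multiset_sum_le _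
    refine h1.trans ?_
    rw [Multiset.map_map]
    have h2 : ∀ x ∈ s.map ((fun x => ‖x‖) ∘ fun r => n • Complex.exp r - p • (aeval r) gp),
        x ≤ |c| ^ p / ((p - 1).factorial : ℝ) := by
      intro x hx
      rw [Multiset.mem_map] at hx
      obtain ⟨r, hr, rfl⟩ := hx
      refine (hgp hr).trans ?_
      have h3 : c ^ p ≤ |c| ^ p := by
        rw [← abs_pow]; exact le_abs_self _
      exact div_le_div_of_nonneg_right h3 (by positivity)
    have h3 := Multiset.sum_le_card_nsmul _ _ h2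
    rw [Multiset.card_map, nsmul_eq_mul] at h3
    exact h3
  have hsum : E = n * (s.map Complex.exp).sum - p * (s.map (fun r => aeval r gp)).sum := by
    rw [hE, Multiset.sum_map_sub]
    congr 1
    · rw [← Multiset.sum_map_mul_left]
      congr 1
      refine Multiset.map_congr rfl (fun r _ => ?_)
      rw [zsmul_eq_mul]
    · rw [← Multiset.sum_map_mul_left]
      congr 1
      refine Multiset.map_congr rfl (fun r _ => ?_)
      rw [nsmul_eq_mul]
  have hexp : (s.map Complex.exp).sum = -(q : ℂ) := by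
    rw [eq_neg_iff_add_eq_zero, add_comm]; exact h
  have hkey : ((l ^ (p * d) * (n * q) + p * z : ℤ) : ℂ) = -((l : ℂ) ^ (p * d) * E) := by
    push_cast
    rw [hsum, hexp, ← hz]
    ring
  have hint : (l ^ (p * d) * (n * q) + p * z : ℤ) ≠ 0 := by
    intro h0
    have hpi : Prime (p : ℤ) := Nat.prime_iff_prime_int.1 hp
    have h1 : (p : ℤ) ∣ l ^ (p * d) * (n * q) := by
      have : l ^ (p * d) * (n * q) = p * (-z) := by linarith
      exact ⟨-z, this⟩
    rcases hpi.dvd_or_dvd h1 with h2 | h2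
    · have h3 := hpi.dvd_of_dvd_pow h2
      have h4 := Int.natAbs_dvd_natAbs.2 h3
      rw [Int.natAbs_natCast] at h4
      have h5 := Nat.le_of_dvd (Int.natAbs_pos.2 hl0) h4
      omega
    · rcases hpi.dvd_or_dvd h2 with h3 | h3
      · exact hpn h3
      · have h4 : p ∣ q := by exact_mod_cast h3
        have h5 := Nat.le_of_dvd hq h4
        omega
  have hge : (1 : ℝ) ≤ ‖((l ^ (p * d) * (n * q) + p * z : ℤ) : ℂ)‖ := by
    rw [Complex.norm_intCast]
    exact_mod_cast Int.one_le_abs hint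
  rw [hkey, norm_neg, norm_mul, norm_pow] at hge
  have hle : ‖(l : ℂ)‖ ^ (p * d) * ‖E‖ ≤
      (s.card : ℝ) * ((‖(l : ℂ)‖ ^ d * |c|) ^ p / ((p - 1).factorial : ℝ)) := by
    calc ‖(l : ℂ)‖ ^ (p * d) * ‖E‖
        ≤ ‖(l : ℂ)‖ ^ (p * d) * ((s.card : ℝ) * (|c| ^ p / ((p - 1).factorial : ℝ))) :=
          mul_le_mul_of_nonneg_left hEnorm (by positivity)
      _ = _ := by
          rw [mul_pow, ← pow_mul, mul_comm d p]
          ring
  linarith

end Pool.Agent.LibHof81
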