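import Pool.Agent.LibHof81.P2
import Pool.Agent.LibHof81.P3

set_option autoImplicit false

namespace Pool.Agent.LibHof81

open Polynomial

theorem prod_one_add_exp (s : Multiset ℂ) :
    (s.map (fun β => 1 + Complex.exp β)).prod =
      ((s.powerset.map Multiset.sum).map Complex.exp).sum := by
  induction s using Multiset.induction_on with
  | empty => simp
  | cons a s ih =>
    rw [Multiset.map_cons, Multiset.prod_cons, ih, Multiset.powerset_cons]
    simp only [Multiset.map_add, Multiset.map_map, Multiset.sum_add, Function.comp_apply,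
      Multiset.sum_cons, Complex.exp_add]
    rw [Multiset.sum_map_mul_left]
    ring

/-- Lindemann's theorem. -/
theorem transcendental_pi : Transcendental ℚ ((Real.pi : ℝ) : ℂ) := by
  classical
  intro h
  have hI : IsAlgebraic ℚ Complex.I := by
    refine ⟨X ^ 2 + 1, ?_, ?_⟩
    · intro h0
      have := congrArg (fun p => coeff p 0) h0
      simp at this
    · simp
  have hpi : IsAlgebraic ℚ (((Real.pi : ℝ) : ℂ) * Complex.I) := h.mul hI
  obtain ⟨p, hp, hpr⟩ := hpi
  obtain ⟨f, hf0, hfe, hfr⟩ := nonzero_subset_sums p hp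
  set s := p.aroots ℂ with hs
  have hmem : (((Real.pi : ℝ) : ℂ) * Complex.I) ∈ s := by
    rw [hs, mem_aroots]
    exact ⟨hp, hpr⟩
  have hprod : (s.map (fun β => 1 + Complex.exp β)).prod = 0 := by
    rw [Multiset.prod_eq_zero_iff, Multiset.mem_map]
    exact ⟨_, hmem, by rw [Complex.exp_pi_mul_I]; ring⟩
  rw [prod_one_add_exp] at hprod
  set T := s.powerset.map Multiset.sum with hT
  have hsplit : (T.map Complex.exp).sum =
      ((T.filter (fun z => z ≠ 0)).map Complex.exp).sum +
        ((T.filter (fun z => ¬ z ≠ 0)).map Complex.exp).sum := by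
    conv_lhs => rw [← Multiset.filter_add_not (fun z : ℂ => z ≠ 0) T]
    rw [Multiset.map_add, Multiset.sum_add]
  have hzero : ((T.filter (fun z => ¬ z ≠ 0)).map Complex.exp).sum =
      ((T.filter (fun z => ¬ z ≠ 0)).card : ℂ) := by
    have : (T.filter (fun z => ¬ z ≠ 0)).map Complex.exp =
        (T.filter (fun z => ¬ z ≠ 0)).map (fun _ => (1 : ℂ)) := by
      refine Multiset.map_congr rfl (fun z hz => ?_)
      have := (Multiset.mem_filter.1 hz).2
      push Not at this
      rw [this, Complex.exp_zero]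
    rw [this, Multiset.map_const', Multiset.sum_replicate]
    simp
  have hq : 0 < (T.filter (fun z => ¬ z ≠ 0)).card := by
    rw [Multiset.card_pos_iff_exists_mem]
    refine ⟨0, Multiset.mem_filter.2 ⟨?_, by simp⟩⟩
    rw [hT, Multiset.mem_map]
    exact ⟨0, Multiset.mem_powerset.2 (Multiset.zero_le s), rfl⟩
  refine sum_exp_ne f hfe _ hq ?_
  rw [hfr, ← hzero, add_comm, ← hsplit]
  exact hprod

theorem transcendental_pi_closure :
    Transcendental (algebraicClosure ℚ ℂ) ((Real.pi : ℝ) : ℂ) :=
  transcendental_pi.algebraicClosure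

theorem transcendental_inv_pi_sq :
    Transcendental (algebraicClosure ℚ ℂ) ((((Real.pi : ℝ) : ℂ) ^ 2)⁻¹) := by
  intro h
  have h1 : IsAlgebraic (algebraicClosure ℚ ℂ) (((Real.pi : ℝ) : ℂ) ^ 2) := IsAlgebraic.inv_iff.1 h
  exact transcendental_pi_closure (IsAlgebraic.of_pow (by norm_num) h1)

end Pool.Agent.LibHof81
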