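import Pool.Agent.LibHof81.Defs

set_option autoImplicit false

namespace Pool.Agent.LibHof81

/-- the size of the triangle -/
theorem T1_tri_card (M : ℕ) : (M : ℝ) ^ 2 ≤ 2 * ((tri M).card : ℝ) := by
  have h0 := Finset.card_filter_add_card_filter_not
    (s := Finset.range M ×ˢ Finset.range M) (fun p : ℕ × ℕ => p.1 + p.2 < M)
  have h1 : ((Finset.range M ×ˢ Finset.range M).filter
      (fun p : ℕ × ℕ => ¬ (p.1 + p.2 < M))).card ≤ (tri M).card := by
    refine Finset.card_le_card_of_injOn (fun p => (M - 1 - p.1, M - 1 - p.2)) ?_ ?_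
    · rintro ⟨a, b⟩ h
      have h := Finset.mem_coe.1 h
      rw [Finset.mem_filter, Finset.mem_product, Finset.mem_range, Finset.mem_range] at h
      rw [tri, Finset.mem_coe, Finset.mem_filter, Finset.mem_product, Finset.mem_range,
        Finset.mem_range]
      simp only at h ⊢
      omega
    · rintro ⟨a, b⟩ h ⟨a', b'⟩ h' heq
      have h := Finset.mem_coe.1 h
      have h' := Finset.mem_coe.1 h'
      rw [Finset.mem_filter, Finset.mem_product, Finset.mem_range, Finset.mem_range] at h h'
      simp only [Prod.mk.injEq] at heq h h' ⊢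
      omega
  rw [Finset.card_product, Finset.card_range] at h0
  have h2 : M * M ≤ 2 * (tri M).card := by
    have h3 : ((Finset.range M ×ˢ Finset.range M).filter
      (fun p : ℕ × ℕ => p.1 + p.2 < M)).card = (tri M).card := rfl
    omega
  have : ((M * M : ℕ) : ℝ) ≤ ((2 * (tri M).card : ℕ) : ℝ) := by exact_mod_cast h2
  push_cast at this
  linarith [pow_two (M : ℝ)]

/-- adding one vector -/
theorem T1_snoc {K : Type*} [Field K] [Algebra K ℂ] {m s : ℕ} (v : Fin m → ℂ)
    (H : ℕ × ℕ → ℂ) (f : Fin (s + 1) → ℕ × ℕ)
    (h1 : LinearIndependent K (Sum.elim v (fun i => H (Fin.init f i))))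
    (h2 : H (f (Fin.last s)) ∉
      Submodule.span K (Set.range (Sum.elim v (fun i => H (Fin.init f i))))) :
    LinearIndependent K (Sum.elim v (fun i => H (f i))) := by
  let e : Option (Fin m ⊕ Fin s) → Fin m ⊕ Fin (s + 1) := fun o =>
    match o with
    | none => Sum.inr (Fin.last s)
    | some (Sum.inl i) => Sum.inl i
    | some (Sum.inr j) => Sum.inr j.castSucc
  have he : Function.Bijective e := by
    constructor
    · rintro (_ | i | j) (_ | i' | j') h
      · rfl
      · simp [e] at h
      · simp only [e, Sum.inr.injEq] at h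
        exact absurd h.symm (Fin.castSucc_lt_last j').ne
      · simp [e] at h
      · simp only [e, Sum.inl.injEq] at h
        rw [h]
      · simp [e] at h
      · simp only [e, Sum.inr.injEq] at h
        exact absurd h (Fin.castSucc_lt_last j).ne
      · simp [e] at h
      · simp only [e, Sum.inr.injEq] at h
        rw [Fin.castSucc_injective _ h]
    · rintro (i | j)
      · exact ⟨some (Sum.inl i), rfl⟩
      · refine Fin.lastCases ?_ (fun j => ?_) j
        · exact ⟨none, rfl⟩
        · exact ⟨some (Sum.inr j), rfl⟩
  have hcomp : (Sum.elim v (fun i => H (f i)) ∘ e) ∘ (fun x : Fin m ⊕ Fin s => some x) =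
      Sum.elim v (fun i => H (Fin.init f i)) := by
    funext x
    rcases x with i | j <;> rfl
  have hopt : LinearIndependent K (Sum.elim v (fun i => H (f i)) ∘ e) := by
    rw [linearIndependent_option]
    refine ⟨?_, ?_⟩
    · exact hcomp ▸ h1
    · have h3 : Set.range ((Sum.elim v (fun i => H (f i)) ∘ e) ∘
          (fun x : Fin m ⊕ Fin s => (x : Option (Fin m ⊕ Fin s)))) =
          Set.range (Sum.elim v (fun i => H (Fin.init f i))) := congrArg Set.range hcomp
      rw [h3]
      exact h2
  have := (linearIndependent_equiv (Equiv.ofBijective e he)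
    (f := Sum.elim v (fun i => H (f i)))).1 hopt
  exact this

/-- Task T1: almost all tuples are linearly independent over any given finite independent family. -/
theorem tuples {K : Type*} [Field K] [Algebra K ℂ] (H : ℕ × ℕ → ℂ)
    (hW : ∀ (d : ℕ) (ε : ℝ), 0 < ε → ∃ M₀ : ℕ, ∀ M ≥ M₀, ∀ w : Fin d → ℂ,
      ({p : ℕ × ℕ | p ∈ tri M ∧ H p ∈ Submodule.span K (Set.range w)}.ncard : ℝ) ≤
        ε * (M : ℝ) ^ 2)
    (m s : ℕ) (v : Fin m → ℂ) (hv : LinearIndependent K v) (ε : ℝ) (hε : 0 < ε) :
    ∃ M₀ : ℕ, ∀ M ≥ M₀,
      ({f : Fin s → ℕ × ℕ | (∀ i, f i ∈ tri M) ∧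
          ¬ LinearIndependent K (Sum.elim v (fun i => H (f i)))}.ncard : ℝ) ≤
        ε * ((tri M).card : ℝ) ^ s := by
  classical
  induction s generalizing ε with
  | zero =>
    refine ⟨0, fun M _ => ?_⟩
    have hempty : {f : Fin 0 → ℕ × ℕ | (∀ i, f i ∈ tri M) ∧
          ¬ LinearIndependent K (Sum.elim v (fun i => H (f i)))} = ∅ := by
      rw [Set.eq_empty_iff_forall_notMem]
      rintro f ⟨-, hf⟩
      apply hf
      have h1 : Sum.elim v (fun i : Fin 0 => H (f i)) = v ∘ (Equiv.sumEmpty (Fin m) (Fin 0)) := by
        funext x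
        rcases x with i | j
        · rfl
        · exact j.elim0
      rw [h1]
      exact (linearIndependent_equiv (Equiv.sumEmpty (Fin m) (Fin 0)) (f := v)).2 hv
    rw [hempty, Set.ncard_empty]
    simp only [Nat.cast_zero, pow_zero, mul_one]
    exact hε.le
  | succ s ih =>
    obtain ⟨M1, hM1⟩ := ih (ε / 2) (by positivity)
    obtain ⟨M2, hM2⟩ := hW (m + s) (ε / 4) (by positivity)
    refine ⟨max M1 M2, fun M hM => ?_⟩
    have hM1' := hM1 M (le_trans (le_max_left _ _) hM)
    have hM2' := hM2 M (le_trans (le_max_right _ _) hM)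
    set T : ℝ := ((tri M).card : ℝ) with hT
    have hT2 := T1_tri_card M
    -- finsets
    have hset : ∀ r : ℕ, {f : Fin r → ℕ × ℕ | (∀ i, f i ∈ tri M) ∧
          ¬ LinearIndependent K (Sum.elim v (fun i => H (f i)))} =
        ((Fintype.piFinset (fun _ : Fin r => tri M)).filter
          (fun f => ¬ LinearIndependent K (Sum.elim v (fun i => H (f i)))) : Finset _) := by
      intro r
      ext f
      simp [Fintype.mem_piFinset]
    rw [hset, Set.ncard_coe_finset] at hM1' ⊢
    set B : Finset (Fin s → ℕ × ℕ) := (Fintype.piFinset (fun _ : Fin s => tri M)).filter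
          (fun f => ¬ LinearIndependent K (Sum.elim v (fun i => H (f i)))) with hB
    set B' : Finset (Fin (s + 1) → ℕ × ℕ) := (Fintype.piFinset (fun _ : Fin (s + 1) => tri M)).filter
          (fun f => ¬ LinearIndependent K (Sum.elim v (fun i => H (f i)))) with hB'
    have hmaps : ∀ f ∈ B', (Fin.init f : Fin s → ℕ × ℕ) ∈ Fintype.piFinset (fun _ : Fin s => tri M) := by
      intro f hf
      rw [hB', Finset.mem_filter, Fintype.mem_piFinset] at hf
      rw [Fintype.mem_piFinset]
      intro i
      exact hf.1 _
    rw [Finset.card_eq_sum_card_fiberwise hmaps]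
    have hinit : ∀ (f f' : Fin (s + 1) → ℕ × ℕ) , (Fin.init f : Fin s → ℕ × ℕ) = Fin.init f' →
        f (Fin.last s) = f' (Fin.last s) → f = f' := by
      intro f f' h1 h2
      funext i
      refine Fin.lastCases h2 (fun j => ?_) i
      exact congrFun h1 j
    have hfib : ∀ g ∈ Fintype.piFinset (fun _ : Fin s => tri M),
        (((B'.filter (fun f => (Fin.init f : Fin s → ℕ × ℕ) = g)).card : ℕ) : ℝ) ≤
          (if g ∈ B then T else 0) + ε / 2 * T := by
      intro g hg
      by_cases hgB : g ∈ B
      · rw [if_pos hgB]
        have h1 : (B'.filter (fun f => (Fin.init f : Fin s → ℕ × ℕ) = g)).card ≤ (tri M).card := by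
          refine Finset.card_le_card_of_injOn (fun f => f (Fin.last s)) ?_ ?_
          · intro f hf
            have hf := Finset.mem_coe.1 hf
            rw [Finset.mem_filter, hB', Finset.mem_filter, Fintype.mem_piFinset] at hf
            exact hf.1.1 _
          · intro f hf f' hf' heq
            have hf := Finset.mem_coe.1 hf
            have hf' := Finset.mem_coe.1 hf'
            rw [Finset.mem_filter] at hf hf'
            exact hinit f f' (hf.2.trans hf'.2.symm) heq
        have h2 : (((B'.filter (fun f => (Fin.init f : Fin s → ℕ × ℕ) = g)).card : ℕ) : ℝ) ≤ T := by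
          rw [hT]
          exact_mod_cast h1
        have h3 : 0 ≤ ε / 2 * T := by positivity
        linarith
      · rw [if_neg hgB, zero_add]
        have hgLI : LinearIndependent K (Sum.elim v (fun i => H (g i))) := by
          by_contra hcon
          exact hgB (Finset.mem_filter.2 ⟨hg, hcon⟩)
        set w : Fin (m + s) → ℂ := (Sum.elim v (fun i => H (g i))) ∘ finSumFinEquiv.symm with hw
        have hrange : Set.range w = Set.range (Sum.elim v (fun i => H (g i))) := by
          rw [hw]
          exact EquivLike.range_comp _ _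
        have hcount := hM2' w
        rw [hrange] at hcount
        have hfs : {p : ℕ × ℕ | p ∈ tri M ∧ H p ∈ Submodule.span K
            (Set.range (Sum.elim v (fun i => H (g i))))} =
            ((tri M).filter (fun p => H p ∈ Submodule.span K
              (Set.range (Sum.elim v (fun i => H (g i))))) : Finset _) := by
          ext p
          simp
        rw [hfs, Set.ncard_coe_finset] at hcount
        have h1 : (B'.filter (fun f => (Fin.init f : Fin s → ℕ × ℕ) = g)).card ≤
            ((tri M).filter (fun p => H p ∈ Submodule.span K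
              (Set.range (Sum.elim v (fun i => H (g i)))))).card := by
          refine Finset.card_le_card_of_injOn (fun f => f (Fin.last s)) ?_ ?_
          · intro f hf
            have hf := Finset.mem_coe.1 hf
            rw [Finset.mem_filter, hB', Finset.mem_filter, Fintype.mem_piFinset] at hf
            obtain ⟨⟨hf1, hf2⟩, hf3⟩ := hf
            rw [Finset.mem_coe, Finset.mem_filter]
            refine ⟨hf1 _, ?_⟩
            by_contra hcon
            apply hf2
            subst hf3
            exact T1_snoc v H f hgLI hcon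
          · intro f hf f' hf' heq
            have hf := Finset.mem_coe.1 hf
            have hf' := Finset.mem_coe.1 hf'
            rw [Finset.mem_filter] at hf hf'
            exact hinit f f' (hf.2.trans hf'.2.symm) heq
        have h2 : (((B'.filter (fun f => (Fin.init f : Fin s → ℕ × ℕ) = g)).card : ℕ) : ℝ) ≤
            ε / 4 * (M : ℝ) ^ 2 := le_trans (by exact_mod_cast h1) hcount
        have h3 : ε / 4 * (M : ℝ) ^ 2 ≤ ε / 4 * (2 * T) := by gcongr
        linarith
    push_cast
    refine (Finset.sum_le_sum hfib).trans ?_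
    rw [Finset.sum_add_distrib, Finset.sum_ite_mem, Finset.sum_const, Finset.sum_const,
      nsmul_eq_mul, nsmul_eq_mul, Fintype.card_piFinset]
    have hinter : Fintype.piFinset (fun _ : Fin s => tri M) ∩ B = B :=
      Finset.inter_eq_right.2 (Finset.filter_subset _ _)
    rw [hinter]
    have hcardpi : ((∏ _i : Fin s, (tri M).card : ℕ) : ℝ) = T ^ s := by
      rw [Finset.prod_const, Finset.card_univ, Fintype.card_fin]
      push_cast
      rfl
    rw [hcardpi]
    have hT0 : 0 ≤ T := Nat.cast_nonneg _
    calc (B.card : ℝ) * T + T ^ s * (ε / 2 * T) ≤ (ε / 2 * T ^ s) * T + T ^ s * (ε / 2 * T) := by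
          gcongr
      _ = ε * T ^ (s + 1) := by ring

end Pool.Agent.LibHof81
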