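import Pool.Agent.LibHof81.Z6

set_option autoImplicit false

namespace Pool.Agent.LibHof81

open Real Polynomial

theorem Z7_meas_tan : Measurable tan := by
  have h5 : tan = fun x => sin x / cos x := by ext x; exact tan_eq_sin_div_cos x
  rw [h5]; fun_prop

/-- the weight -/
noncomputable def Z7w (x : ℝ) : ℝ := (1 - 2 * x / π) ^ 2 * (2 * x / π) * tan x

theorem Z7w_bound {x : ℝ} (hx : x ∈ Set.Ioc 0 (π / 2)) : ‖Z7w x‖ ≤ 1 := by
  have hpi := pi_pos
  have hx0 := hx.1
  have h1 : 0 ≤ 1 - 2 * x / π := by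
    rw [sub_nonneg, div_le_one hpi]; linarith [hx.2]
  have h2 : 2 * x / π ≤ 1 := by linarith
  have h2' : 0 ≤ 2 * x / π := by positivity
  rcases hx.2.eq_or_lt with h | h
  · unfold Z7w
    rw [h, tan_pi_div_two]; simp
  · have hc : 0 < cos x := cos_pos_of_mem_Ioo ⟨by linarith, h⟩
    have hs : 1 - 2 * x / π ≤ cos x := by
      have h3 := mul_le_sin (x := π / 2 - x) (by linarith) (by linarith)
      rw [sin_pi_div_two_sub] at h3
      refine le_trans (le_of_eq ?_) h3
      field_simp
    have ht : tan x * cos x = sin x := by rw [tan_mul_cos hc.ne']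
    have ht0 : 0 ≤ tan x := Z6_tan_nonneg hx
    have h4 : (1 - 2 * x / π) * tan x ≤ 1 := by
      calc (1 - 2 * x / π) * tan x ≤ cos x * tan x := by gcongr
        _ = sin x := by rw [mul_comm]; exact ht
        _ ≤ 1 := sin_le_one x
    unfold Z7w
    rw [Real.norm_eq_abs, abs_of_nonneg (by positivity)]
    calc (1 - 2 * x / π) ^ 2 * (2 * x / π) * tan x =
          (1 - 2 * x / π) * (2 * x / π) * ((1 - 2 * x / π) * tan x) := by ring
      _ ≤ 1 * 1 * 1 := by
          gcongr
          linarith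
      _ = 1 := by ring

theorem Z7w_integrable (f : ℝ → ℝ) (hf : Continuous f) :
    IntervalIntegrable (fun x => f x * Z7w x) MeasureTheory.volume 0 (π / 2) := by
  have hpi := pi_pos
  have h1 : MeasureTheory.IntegrableOn Z7w (Set.Ioc 0 (π / 2)) := by
    apply MeasureTheory.Measure.integrableOn_of_bounded (M := 1)
    · simp
    · apply Measurable.aestronglyMeasurable
      have := Z7_meas_tan
      unfold Z7w
      fun_prop
    · exact (MeasureTheory.ae_restrict_iff' measurableSet_Ioc).2
        (Filter.Eventually.of_forall fun x hx => Z7w_bound hx)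
  have h2 : IntervalIntegrable Z7w MeasureTheory.volume 0 (π / 2) := by
    rw [intervalIntegrable_iff_integrableOn_Ioc_of_le (by positivity)]
    exact h1
  exact h2.continuousOn_mul hf.continuousOn

theorem Z7_cont (p : ℚ[X]) : Continuous (fun x : ℝ => aeval (1 - 2 * x / π) p) := by
  have h : Continuous (fun y : ℝ => aeval y p) := by
    have : (fun y : ℝ => aeval y p) = fun y => (p.map (algebraMap ℚ ℝ)).eval y := by
      ext y; rw [eval_map_algebraMap]
    rw [this]
    exact Polynomial.continuous _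
  exact h.comp (by fun_prop)

/-- the functional -/
noncomputable def Z7L : ℚ[X] →ₗ[ℚ] ℝ where
  toFun p := 2 / π * ∫ x in (0 : ℝ)..(π / 2), aeval (1 - 2 * x / π) p * Z7w x
  map_add' p q := by
    rw [← mul_add, ← intervalIntegral.integral_add (Z7w_integrable _ (Z7_cont p))
      (Z7w_integrable _ (Z7_cont q))]
    congr 1
    apply intervalIntegral.integral_congr
    intro x _
    simp only [map_add]
    ring
  map_smul' c p := by
    have h : ∫ x in (0 : ℝ)..(π / 2), aeval (1 - 2 * x / π) (c • p) * Z7w x =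
        (c : ℝ) * ∫ x in (0 : ℝ)..(π / 2), aeval (1 - 2 * x / π) p * Z7w x := by
      rw [← intervalIntegral.integral_const_mul]
      apply intervalIntegral.integral_congr
      intro x _
      simp only [map_smul, Rat.smul_def]
      ring
    rw [RingHom.id_apply, Rat.smul_def, h]
    ring

/-- Task Z7: the linear functional
`Λ p = (2/π) ∫_0^{π/2} p(1 - 2x/π) (1 - 2x/π)^2 (2x/π) tan x dx`. -/
theorem exists_functional_levelOne : ∃ Λ : ℚ[X] →ₗ[ℚ] ℝ, ∀ p : ℕ × ℕ,
    π ^ (2 * lev p + 3) * Λ (mon p) =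
      (((2 * p.1 + 2).factorial : ℝ) * ((2 * p.2 + 1).factorial : ℝ)) * levelOne p := by
  refine ⟨Z7L, fun p => ?_⟩
  obtain ⟨a, b⟩ := p
  rw [levelOne_integral]
  change π ^ (2 * lev (a, b) + 3) * (2 / π * ∫ x in (0 : ℝ)..(π / 2),
    aeval (1 - 2 * x / π) (mon (a, b)) * Z7w x) = _
  rw [mul_left_comm, mul_left_comm _ (2 / π)]
  congr 1
  rw [← intervalIntegral.integral_const_mul, ← intervalIntegral.integral_const_mul]
  apply intervalIntegral.integral_congr
  intro x _
  have hpi : π ≠ 0 := pi_pos.ne'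
  have f1 : ((2 * a + 2).factorial : ℝ) ≠ 0 := by exact_mod_cast Nat.factorial_ne_zero _
  have f2 : ((2 * b + 1).factorial : ℝ) ≠ 0 := by exact_mod_cast Nat.factorial_ne_zero _
  simp only [mon, lev, Z7w, map_mul, map_pow, map_sub, map_one, aeval_X]
  have e1 : (2 * x) ^ (2 * b + 1) = π ^ (2 * b + 1) * (2 * x / π) ^ (2 * b + 1) := by
    rw [← mul_pow]; congr 1; field_simp
  have e2 : (π - 2 * x) ^ (2 * a + 2) = π ^ (2 * a + 2) * (1 - 2 * x / π) ^ (2 * a + 2) := by
    rw [← mul_pow]; congr 1; field_simp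
  rw [e1, e2]
  have e3 : 1 - (1 - 2 * x / π) = 2 * x / π := by ring
  rw [e3]
  generalize 2 * x / π = u
  field_simp
  ring

theorem levelOne_pos (p : ℕ × ℕ) : 0 < levelOne p := by
  obtain ⟨a, b⟩ := p
  rw [levelOne_integral]
  have hpi := pi_pos
  apply mul_pos (by positivity)
  apply intervalIntegral.intervalIntegral_pos_of_pos_on
  · have h := Z7w_integrable (fun x => π ^ 3 * (2 * x) ^ (2 * b) / ((2 * b + 1).factorial : ℝ) *
      ((π - 2 * x) ^ (2 * a) / ((2 * a + 2).factorial : ℝ))) (by fun_prop)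
    refine h.congr ?_
    intro x _
    simp only [Z7w]
    have e1 : (1 - 2 * x / π) ^ 2 * (2 * x / π) * tan x =
        (π - 2 * x) ^ 2 * (2 * x) * tan x / π ^ 3 := by
      field_simp
    rw [e1]
    field_simp
    ring
  · intro x hx
    have h1 : 0 < tan x := tan_pos_of_pos_of_lt_pi_div_two hx.1 hx.2
    have h2 := hx.1
    have h3 : 0 < π - 2 * x := by linarith [hx.2]
    positivity
  · positivity

end Pool.Agent.LibHof81
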