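import Pool.Agent.LibHof81.Z2b

set_option autoImplicit false

namespace Pool.Agent.LibHof81

open Real

private theorem Jn_succ_tendsto (b : ℕ) :
    Filter.Tendsto (fun n => Jn (b + 1) n) Filter.atTop (nhds 0) := by
  refine squeeze_zero (fun n => Jn_nonneg _ _) (fun n => Jn_le b n) ?_
  have h1 : Filter.Tendsto (fun n : ℕ => (2 * (n : ℝ) + 2)) Filter.atTop Filter.atTop := by
    refine Filter.tendsto_atTop_add_const_right _ _ ?_
    exact Filter.Tendsto.const_mul_atTop (by norm_num) tendsto_natCast_atTop_atTop
  simpa using Filter.Tendsto.const_div_atTop h1 (π ^ (2 * (b + 1)))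

/-- Task Z3: telescoping of `Jn_sub`, with `Jn_le` for the limit. -/
theorem Up_eq (b n : ℕ) : Up b n = ENNReal.ofReal (Jn b n) := by
  induction b generalizing n with
  | zero => simp [Up, Jn_zero]
  | succ b ih =>
    rw [Up]
    set f : ℕ → ℝ := fun m => if n < m then ((m : ℝ) ^ 2)⁻¹ * Jn b m else 0 with hf
    have hnn : ∀ m, 0 ≤ f m := by
      intro m
      simp only [hf]
      split_ifs
      · exact mul_nonneg (by positivity) (Jn_nonneg _ _)
      · exact le_refl _
    have hsum : HasSum f (Jn (b + 1) n) := by
      rw [← hasSum_nat_add_iff' (n + 1)]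
      have h0 : ∑ i ∈ Finset.range (n + 1), f i = 0 := by
        refine Finset.sum_eq_zero fun i hi => ?_
        have : ¬ n < i := by
          have := Finset.mem_range.mp hi
          omega
        simp [hf, this]
      rw [h0, sub_zero, hasSum_iff_tendsto_nat_of_nonneg fun i => hnn _]
      have h1 : ∀ i, f (i + (n + 1)) = Jn (b + 1) (n + i) - Jn (b + 1) (n + (i + 1)) := by
        intro i
        have : n < i + (n + 1) := by omega
        simp only [hf, this, if_true]
        have h2 := Jn_sub b (n + i)
        have e : i + (n + 1) = n + i + 1 := by omega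
        rw [e, ← add_assoc, h2]
        push_cast
        ring_nf
      have h2 : ∀ N, ∑ i ∈ Finset.range N, f (i + (n + 1)) =
          Jn (b + 1) n - Jn (b + 1) (n + N) := by
        intro N
        simp only [h1]
        rw [Finset.sum_range_sub' (fun i => Jn (b + 1) (n + i))]
        simp
      simp only [h2]
      have h3 : Filter.Tendsto (fun N => Jn (b + 1) (n + N)) Filter.atTop (nhds 0) := by
        have := (Filter.tendsto_add_atTop_iff_nat n).mpr (Jn_succ_tendsto b)
        simpa [add_comm] using this
      simpa using tendsto_const_nhds.sub h3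
    rw [← hsum.tsum_eq, ENNReal.ofReal_tsum_of_nonneg hnn hsum.summable]
    refine tsum_congr fun m => ?_
    simp only [hf]
    split_ifs
    · rw [ih, ENNReal.ofReal_mul (by positivity)]
    · simp

end Pool.Agent.LibHof81
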