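import Pool.Agent.LibHof81.M2b
import Pool.Agent.LibHof81.Z3

set_option autoImplicit false

namespace Pool.Agent.LibHof81

open Real

/-- Task Z8. -/
theorem levelZero_eq (b : ℕ) : levelZero b = π ^ (2 * b) / ((2 * b + 1).factorial : ℝ) := by
  unfold levelZero
  rw [mzv_eq_full b (fun _ => 2) (fun _ => by norm_num), full_levelZero, Up_eq,
    ENNReal.toReal_ofReal (Jn_nonneg b 0), Jn_at_zero]

end Pool.Agent.LibHof81
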