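import Pool.Agent.LibHof81.A2
import Pool.Agent.LibHof81.T1
import Pool.Agent.LibHof81.Z7
import Pool.Agent.LibHof81.Z8
import Pool.Agent.LibHof81.P4

set_option autoImplicit false

namespace Pool.Agent.LibHof81

open Polynomial

theorem transcendental_pi_sq :
    Transcendental (algebraicClosure ℚ ℂ) (((Real.pi : ℝ) : ℂ) ^ 2) := by
  intro h
  exact transcendental_inv_pi_sq (IsAlgebraic.inv_iff.2 h)

theorem levelZero_independent :
    LinearIndependent (algebraicClosure ℚ ℂ) (fun n : ℕ => ((levelZero n : ℝ) : ℂ)) := by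
  classical
  set x : ℂ := ((Real.pi : ℝ) : ℂ) ^ 2 with hx
  rw [linearIndependent_iff']
  intro s g hg i hi
  set p : (algebraicClosure ℚ ℂ)[X] :=
    ∑ j ∈ s, C (g j / (((2 * j + 1).factorial : ℕ) : algebraicClosure ℚ ℂ)) * X ^ j with hp
  have hp0 : aeval x p = 0 := by
    rw [← hg, hp, map_sum]
    refine Finset.sum_congr rfl (fun j _ => ?_)
    rw [map_mul, aeval_C, map_pow, aeval_X, levelZero_eq, hx, map_div₀, map_natCast,
      Algebra.smul_def]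
    push_cast
    rw [← pow_mul]
    ring
  have hp1 : p = 0 := by
    by_contra hne
    exact transcendental_pi_sq ⟨p, hne, hp0⟩
  have hcoeff := congrArg (fun q => q.coeff i) hp1
  simp only [hp, finsetSum_coeff, coeff_C_mul_X_pow, coeff_zero] at hcoeff
  rw [Finset.sum_ite_eq, if_pos hi] at hcoeff
  have hf : (((2 * i + 1).factorial : ℕ) : algebraicClosure ℚ ℂ) ≠ 0 := by
    exact_mod_cast Nat.factorial_ne_zero _
  exact (div_eq_zero_iff.1 hcoeff).resolve_right hf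

theorem levelOne_exceptional (d : ℕ) (ε : ℝ) (hε : 0 < ε) :
    ∃ M₀ : ℕ, ∀ M ≥ M₀, ∀ w : Fin d → ℂ,
      ({p : ℕ × ℕ | p ∈ tri M ∧
          ((levelOne p : ℝ) : ℂ) ∈ Submodule.span (algebraicClosure ℚ ℂ) (Set.range w)}.ncard : ℝ) ≤
        ε * (M : ℝ) ^ 2 := by
  obtain ⟨Λ, hΛ⟩ := exists_functional_levelOne
  set Λ' : ℚ[X] →ₗ[ℚ] ℂ :=
    ((LinearMap.mulLeft ℚ (((Real.pi : ℝ) : ℂ) ^ 3)).comp
      ((Complex.ofRealAm.toLinearMap).restrictScalars ℚ)).comp Λ with hΛ'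
  refine exceptional_bound ((((Real.pi : ℝ) : ℂ) ^ 2)⁻¹) transcendental_inv_pi_sq
    (fun p => ((levelOne p : ℝ) : ℂ)) ?_
    (fun p => (((2 * p.1 + 2).factorial * (2 * p.2 + 1).factorial : ℕ) : ℚ)) ?_ Λ' ?_ d ε hε
  · intro p
    exact_mod_cast (levelOne_pos p).ne'
  · intro p
    exact_mod_cast (Nat.mul_ne_zero (Nat.factorial_ne_zero _) (Nat.factorial_ne_zero _))
  · intro p
    have h1 := hΛ p
    have hpi : ((Real.pi : ℝ) : ℂ) ≠ 0 := by exact_mod_cast Real.pi_ne_zero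
    have h2 : ((Real.pi : ℝ) : ℂ) ^ (2 * lev p + 3) * ((Λ (mon p) : ℝ) : ℂ) =
        ((((2 * p.1 + 2).factorial : ℕ) : ℂ) * (((2 * p.2 + 1).factorial : ℕ) : ℂ)) *
          ((levelOne p : ℝ) : ℂ) := by
      exact_mod_cast congrArg (fun r : ℝ => (r : ℂ)) h1
    have h3 : Λ' (mon p) = ((Real.pi : ℝ) : ℂ) ^ 3 * ((Λ (mon p) : ℝ) : ℂ) := rfl
    rw [h3]
    have h4 : ((Real.pi : ℝ) : ℂ) ^ (2 * lev p) ≠ 0 := pow_ne_zero _ hpi
    have h5 : ((((Real.pi : ℝ) : ℂ) ^ 2)⁻¹) ^ lev p = (((Real.pi : ℝ) : ℂ) ^ (2 * lev p))⁻¹ := by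
      rw [inv_pow, ← pow_mul]
    rw [h5]
    push_cast
    rw [← h2, pow_add]
    field_simp

end Pool.Agent.LibHof81
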