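import Pool.Agent.LibHof81.Defs

set_option autoImplicit false

namespace Pool.Agent.LibHof81

/-- Iterated sums over `N > k_1 > ... > k_r` of `∏ k_i ^ (- w i)`, the largest index first. -/
noncomputable def Nest : ℕ → (ℕ → ℕ) → ℕ → ENNReal
  | 0, _, _ => 1
  | r + 1, w, N => ∑ m ∈ Finset.range N,
      ENNReal.ofReal (((m : ℝ) ^ (w 0))⁻¹) * Nest r (fun i => w (i + 1)) m

/-- The same with no upper bound. -/
noncomputable def Full : ℕ → (ℕ → ℕ) → ENNReal
  | 0, _ => 1
  | r + 1, w => ∑' m : ℕ, ENNReal.ofReal (((m : ℝ) ^ (w 0))⁻¹) * Nest r (fun i => w (i + 1)) m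

open Classical in
private noncomputable def m1term {r : ℕ} (w : ℕ → ℕ) (k : Fin r → ℕ) : ENNReal :=
  if StrictAnti k then ∏ i, ENNReal.ofReal (((k i : ℝ) ^ (w i))⁻¹) else 0

private theorem m1_cons {r : ℕ} (m : ℕ) (k : Fin r → ℕ) :
    StrictAnti (Fin.cons m k : Fin (r + 1) → ℕ) ↔ (∀ i, k i < m) ∧ StrictAnti k := by
  constructor
  · intro h
    refine ⟨fun i => ?_, fun i j hij => ?_⟩
    · have := h (Fin.succ_pos i)
      simpa using this
    · have := h (Fin.succ_lt_succ_iff.2 hij)
      simpa using this
  · rintro ⟨h1, h2⟩ i j hij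
    induction i using Fin.cases with
    | zero =>
      induction j using Fin.cases with
      | zero => exact absurd hij (lt_irrefl _)
      | succ j => simpa using h1 j
    | succ i =>
      induction j using Fin.cases with
      | zero => exact absurd hij (by simp)
      | succ j =>
        have := h2 (Fin.succ_lt_succ_iff.1 hij)
        simpa using this

private theorem m1_split {r : ℕ} (F : (Fin (r + 1) → ℕ) → ENNReal) :
    ∑' k, F k = ∑' m : ℕ, ∑' k : Fin r → ℕ, F (Fin.cons m k) := by
  have h1 : ∑' k, F k = ∑' p : ℕ × (Fin r → ℕ), F (Fin.cons p.1 p.2) :=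
    ((Fin.consEquiv (fun _ : Fin (r + 1) => ℕ)).tsum_eq F).symm
  rw [h1]
  exact ENNReal.tsum_prod (f := fun m k => F (Fin.cons m k))

open Classical in
private theorem m1_nest (r : ℕ) : ∀ (w : ℕ → ℕ) (N : ℕ),
    (∑' k : Fin r → ℕ, if ∀ i, k i < N then m1term w k else 0) = Nest r w N := by
  induction r with
  | zero =>
    intro w N
    rw [tsum_eq_single (fun i => i.elim0)]
    · simp [m1term, Nest, StrictAnti]
    · intro b hb
      exact absurd (Subsingleton.elim _ _) hb
  | succ r ih =>
    intro w N
    rw [m1_split, Nest]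
    have h1 : ∀ m : ℕ, (∑' k : Fin r → ℕ,
        (if ∀ i, (Fin.cons m k : Fin (r + 1) → ℕ) i < N then
          m1term w (Fin.cons m k : Fin (r + 1) → ℕ) else 0)) =
        if m < N then ENNReal.ofReal (((m : ℝ) ^ (w 0))⁻¹) * Nest r (fun i => w (i + 1)) m
        else 0 := by
      intro m
      rw [← ih, ← ENNReal.tsum_mul_left]
      split_ifs with hm
      · apply tsum_congr
        intro k
        by_cases hk : ∀ i, k i < m
        · have hk' : ∀ i, (Fin.cons m k : Fin (r + 1) → ℕ) i < N := by
            intro i
            induction i using Fin.cases with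
            | zero => simpa using hm
            | succ i => simpa using (hk i).trans hm
          rw [if_pos hk', if_pos hk, m1term, m1term]
          by_cases hs : StrictAnti k
          · rw [if_pos ((m1_cons m k).2 ⟨hk, hs⟩), if_pos hs, Fin.prod_univ_succ]
            simp
          · rw [if_neg (fun h => hs ((m1_cons m k).1 h).2), if_neg hs, mul_zero]
        · rw [if_neg hk, m1term, if_neg (fun h => hk ((m1_cons m k).1 h).1)]
          simp
      · rw [ENNReal.tsum_eq_zero]
        intro k
        rw [if_neg]
        intro h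
        exact hm (by simpa using h 0)
    simp_rw [h1]
    rw [tsum_eq_sum (s := Finset.range N)]
    · apply Finset.sum_congr rfl
      intro m hm
      rw [if_pos (Finset.mem_range.1 hm)]
    · intro m hm
      rw [if_neg (fun h => hm (Finset.mem_range.2 h))]

open Classical in
private theorem m1_full (r : ℕ) (w : ℕ → ℕ) :
    (∑' k : Fin r → ℕ, m1term w k) = Full r w := by
  cases r with
  | zero =>
    rw [tsum_eq_single (fun i => i.elim0)]
    · simp [m1term, Full, StrictAnti]
    · intro b hb
      exact absurd (Subsingleton.elim _ _) hb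
  | succ r =>
    rw [m1_split, Full]
    apply tsum_congr
    intro m
    rw [← m1_nest, ← ENNReal.tsum_mul_left]
    apply tsum_congr
    intro k
    by_cases hk : ∀ i, k i < m
    · rw [if_pos hk, m1term, m1term]
      by_cases hs : StrictAnti k
      · rw [if_pos ((m1_cons m k).2 ⟨hk, hs⟩), if_pos hs, Fin.prod_univ_succ]
        simp
      · rw [if_neg (fun h => hs ((m1_cons m k).1 h).2), if_neg hs, mul_zero]
    · rw [if_neg hk, m1term, if_neg (fun h => hk ((m1_cons m k).1 h).1), mul_zero]

/-- Task M1: the multiple zeta value as an iterated sum (largest index first). Hint: work with `ENNReal.tsum` and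
`ENNReal.tsum_toReal_eq`; prove by induction on `r` the formula for `Nest` (the sum over strictly decreasing `k` with
all `0 < k i < N`), splitting off `k 0` with `Fin.cons`; terms with `k i = 0` vanish because `1 ≤ w i`. -/
theorem mzv_eq_full (r : ℕ) (w : ℕ → ℕ) (hw : ∀ i, 1 ≤ w i) :
    mzv (fun i : Fin r => w i) = (Full r w).toReal := by
  classical
  have h1 : ∀ k : {k : Fin r → ℕ // StrictAnti k ∧ ∀ i, 0 < k i},
      ∏ i, ((k.1 i : ℝ) ^ (w i))⁻¹ = (m1term w k.1).toReal := by
    intro k
    rw [m1term, if_pos k.2.1, ENNReal.toReal_prod]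
    apply Finset.prod_congr rfl
    intro i _
    rw [ENNReal.toReal_ofReal (by positivity)]
  rw [mzv]
  simp_rw [h1]
  rw [← ENNReal.tsum_toReal_eq, ← m1_full]
  · congr 1
    refine (tsum_subtype {k : Fin r → ℕ | StrictAnti k ∧ ∀ i, 0 < k i}
      (fun k => m1term w k)).trans ?_
    apply tsum_congr
    intro k
    by_cases hk : k ∈ {k : Fin r → ℕ | StrictAnti k ∧ ∀ i, 0 < k i}
    · rw [Set.indicator_of_mem hk]
    · rw [Set.indicator_of_notMem hk, m1term]
      split_ifs with hs
      · have : ∃ i, k i = 0 := by
          by_contra hcon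
          push Not at hcon
          exact hk ⟨hs, fun i => Nat.pos_of_ne_zero (hcon i)⟩
        obtain ⟨i, hi⟩ := this
        symm
        apply Finset.prod_eq_zero (Finset.mem_univ i)
        rw [hi, Nat.cast_zero, zero_pow (by have := hw i; omega), inv_zero, ENNReal.ofReal_zero]
      · rfl
  · intro k
    rw [m1term, if_pos k.2.1]
    exact ENNReal.prod_ne_top (fun i _ => ENNReal.ofReal_ne_top)

end Pool.Agent.LibHof81
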