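import Pool.Agent.LibHof81.M1

set_option autoImplicit false

namespace Pool.Agent.LibHof81

theorem Lo_nonneg (a n : ℕ) : 0 ≤ Lo a n := by
  induction a generalizing n with
  | zero => simp [Lo]
  | succ a ih =>
    simp only [Lo]
    exact Finset.sum_nonneg (fun m _ => mul_nonneg (by positivity) (ih m))

theorem nest_two (a n : ℕ) : Nest a (fun _ => 2) n = ENNReal.ofReal (Lo a n) := by
  induction a generalizing n with
  | zero => simp [Nest, Lo]
  | succ a ih =>
    simp only [Nest, Lo]
    rw [ENNReal.ofReal_sum_of_nonneg (fun m _ => mul_nonneg (by positivity) (Lo_nonneg a m))]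
    refine Finset.sum_congr rfl (fun m _ => ?_)
    rw [ih, ← ENNReal.ofReal_mul (by positivity)]

end Pool.Agent.LibHof81
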