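import Pool.Agent.LibHof81.M2a

set_option autoImplicit false

namespace Pool.Agent.LibHof81

/-- the weight `m^(-2)` -/
noncomputable def M2b_q (m : ℕ) : ENNReal := ENNReal.ofReal (((m : ℝ) ^ 2)⁻¹)

/-- iterated sum with innermost function `g` -/
noncomputable def M2b_N : ℕ → (ℕ → ENNReal) → ℕ → ENNReal
  | 0, g, M => ∑ n ∈ Finset.range M, g n
  | b + 1, g, M => ∑ m ∈ Finset.range M, M2b_q m * M2b_N b g m

/-- the same with no upper bound -/
noncomputable def M2b_F : ℕ → (ℕ → ENNReal) → ENNReal
  | 0, g => ∑' n, g n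
  | b + 1, g => ∑' m, M2b_q m * M2b_N b g m

/-- the next innermost function -/
noncomputable def M2b_s (g : ℕ → ENNReal) (m : ℕ) : ENNReal :=
  M2b_q m * ∑ n ∈ Finset.range m, g n

theorem M2b_N_succ (b : ℕ) (g : ℕ → ENNReal) (M : ℕ) :
    M2b_N (b + 1) g M = M2b_N b (M2b_s g) M := by
  induction b generalizing M with
  | zero => rfl
  | succ b ih =>
    calc M2b_N (b + 1 + 1) g M = ∑ m ∈ Finset.range M, M2b_q m * M2b_N (b + 1) g m := rfl
      _ = ∑ m ∈ Finset.range M, M2b_q m * M2b_N b (M2b_s g) m := by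
          refine Finset.sum_congr rfl fun m _ => ?_
          rw [ih m]
      _ = M2b_N (b + 1) (M2b_s g) M := rfl

theorem M2b_F_succ (b : ℕ) (g : ℕ → ENNReal) : M2b_F (b + 1) g = M2b_F b (M2b_s g) := by
  cases b with
  | zero => rfl
  | succ b =>
    calc M2b_F (b + 1 + 1) g = ∑' m, M2b_q m * M2b_N (b + 1) g m := rfl
      _ = ∑' m, M2b_q m * M2b_N b (M2b_s g) m := by
          refine tsum_congr fun m => ?_
          rw [M2b_N_succ]
      _ = M2b_F (b + 1) (M2b_s g) := rfl

theorem M2b_F_eq (b : ℕ) (g : ℕ → ENNReal) : M2b_F b g = ∑' n, g n * Up b n := by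
  induction b generalizing g with
  | zero =>
    simp only [M2b_F, Up, mul_one]
  | succ b ih =>
    rw [M2b_F_succ, ih]
    have h1 : ∀ m, M2b_s g m * Up b m =
        ∑' n, if n < m then g n * (M2b_q m * Up b m) else 0 := by
      intro m
      have h2 : ∑ n ∈ Finset.range m, g n = ∑' n, if n < m then g n else 0 := by
        rw [tsum_eq_sum (s := Finset.range m)]
        · refine Finset.sum_congr rfl fun n hn => ?_
          rw [if_pos (Finset.mem_range.1 hn)]
        · intro n hn
          rw [if_neg (fun h => hn (Finset.mem_range.2 h))]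
      rw [M2b_s, h2, mul_assoc, mul_comm _ (Up b m), ← mul_assoc, ← ENNReal.tsum_mul_left]
      refine tsum_congr fun n => ?_
      split_ifs
      · ring
      · simp
    calc ∑' m, M2b_s g m * Up b m
        = ∑' m, ∑' n, (if n < m then g n * (M2b_q m * Up b m) else 0) := tsum_congr h1
      _ = ∑' n, ∑' m, (if n < m then g n * (M2b_q m * Up b m) else 0) := ENNReal.tsum_comm
      _ = ∑' n, g n * Up (b + 1) n := by
          refine tsum_congr fun n => ?_
          have h3 : Up (b + 1) n = ∑' m : ℕ, if n < m then M2b_q m * Up b m else 0 := rfl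
          rw [h3, ← ENNReal.tsum_mul_left]
          refine tsum_congr fun m => ?_
          split_ifs
          · rfl
          · simp

/-- the innermost function of level one -/
noncomputable def M2b_g (a n : ℕ) : ENNReal := ENNReal.ofReal (((n : ℝ) ^ 3)⁻¹ * Lo a n)

theorem M2b_g_eq (a n : ℕ) :
    M2b_g a n = ENNReal.ofReal (((n : ℝ) ^ 3)⁻¹) * Nest a (fun _ => 2) n := by
  rw [nest_two, M2b_g, ENNReal.ofReal_mul (by positivity)]

theorem M2b_nest (a b M : ℕ) :
    Nest (b + 1 + a) (fun i => if i = b then 3 else 2) M = M2b_N b (M2b_g a) M := by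
  induction b generalizing M with
  | zero =>
    have h0 : 0 + 1 + a = a + 1 := by omega
    rw [h0]
    calc Nest (a + 1) (fun i => if i = 0 then 3 else 2) M
        = ∑ m ∈ Finset.range M, ENNReal.ofReal (((m : ℝ) ^ 3)⁻¹) * Nest a (fun _ => 2) m := rfl
      _ = ∑ m ∈ Finset.range M, M2b_g a m := by
          refine Finset.sum_congr rfl fun m _ => ?_
          rw [M2b_g_eq]
      _ = M2b_N 0 (M2b_g a) M := rfl
  | succ b ih =>
    have h0 : b + 1 + 1 + a = (b + 1 + a) + 1 := by omega
    rw [h0]
    have hw : (fun i => (fun i => if i = b + 1 then 3 else 2) (i + 1)) =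
        (fun i : ℕ => if i = b then 3 else 2) := by
      funext i
      simp
    calc Nest (b + 1 + a + 1) (fun i => if i = b + 1 then 3 else 2) M
        = ∑ m ∈ Finset.range M, M2b_q m *
          Nest (b + 1 + a) (fun i => (fun i => if i = b + 1 then 3 else 2) (i + 1)) m := by
          rfl
      _ = ∑ m ∈ Finset.range M, M2b_q m * M2b_N b (M2b_g a) m := by
          refine Finset.sum_congr rfl fun m _ => ?_
          rw [hw, ih]
      _ = M2b_N (b + 1) (M2b_g a) M := rfl

/-- Task M2b (middle-out form of the iterated sum). Hint: for `g : ℕ → ENNReal` let `nest 0 g N = ∑ n < N, g n`,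
`nest (b+1) g N = ∑ m < N, q m * nest b g m` with `q m = ofReal (m^2)⁻¹`; then `nest (b+1) g = nest b g'` with
`g' m = q m * ∑ n < m, g n`, and Tonelli (`ENNReal.tsum_comm`) gives `full b g = ∑' n, g n * Up b n` by induction on `b`. -/
theorem full_levelOne (a b : ℕ) :
    Full (b + 1 + a) (fun i => if i = b then 3 else 2) =
      ∑' n : ℕ, ENNReal.ofReal (((n : ℝ) ^ 3)⁻¹ * Lo a n) * Up b n := by
  have hfin : M2b_F b (M2b_g a) =
      ∑' n : ℕ, ENNReal.ofReal (((n : ℝ) ^ 3)⁻¹ * Lo a n) * Up b n := M2b_F_eq b (M2b_g a)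
  rw [← hfin]
  cases b with
  | zero =>
    have h0 : 0 + 1 + a = a + 1 := by omega
    rw [h0]
    calc Full (a + 1) (fun i => if i = 0 then 3 else 2)
        = ∑' m : ℕ, ENNReal.ofReal (((m : ℝ) ^ 3)⁻¹) * Nest a (fun _ => 2) m := rfl
      _ = ∑' m, M2b_g a m := by
          refine tsum_congr fun m => ?_
          rw [M2b_g_eq]
      _ = M2b_F 0 (M2b_g a) := rfl
  | succ b =>
    have h0 : b + 1 + 1 + a = (b + 1 + a) + 1 := by omega
    rw [h0]
    have hw : (fun i => (fun i => if i = b + 1 then 3 else 2) (i + 1)) =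
        (fun i : ℕ => if i = b then 3 else 2) := by
      funext i
      simp
    calc Full (b + 1 + a + 1) (fun i => if i = b + 1 then 3 else 2)
        = ∑' m : ℕ, M2b_q m *
          Nest (b + 1 + a) (fun i => (fun i => if i = b + 1 then 3 else 2) (i + 1)) m := by
          rfl
      _ = ∑' m : ℕ, M2b_q m * M2b_N b (M2b_g a) m := by
          refine tsum_congr fun m => ?_
          rw [hw, M2b_nest]
      _ = M2b_F (b + 1) (M2b_g a) := rfl

theorem M2b_nest_zero (b M : ℕ) : Nest (b + 1) (fun _ => 2) M = M2b_N b M2b_q M := by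
  induction b generalizing M with
  | zero =>
    simp only [Nest, M2b_N, M2b_q, mul_one]
  | succ b ih =>
    calc Nest (b + 1 + 1) (fun _ => 2) M
        = ∑ m ∈ Finset.range M, M2b_q m * Nest (b + 1) (fun _ => 2) m := rfl
      _ = ∑ m ∈ Finset.range M, M2b_q m * M2b_N b M2b_q m := by
          refine Finset.sum_congr rfl fun m _ => ?_
          rw [ih]
      _ = M2b_N (b + 1) M2b_q M := rfl

theorem full_levelZero (b : ℕ) : Full b (fun _ => 2) = Up b 0 := by
  cases b with
  | zero => rfl
  | succ b =>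
    have h1 : Full (b + 1) (fun _ => 2) = M2b_F b M2b_q := by
      cases b with
      | zero =>
        simp only [Full, Nest, M2b_F, M2b_q, mul_one]
      | succ b =>
        calc Full (b + 1 + 1) (fun _ => 2)
            = ∑' m : ℕ, M2b_q m * Nest (b + 1) (fun _ => 2) m := rfl
          _ = ∑' m : ℕ, M2b_q m * M2b_N b M2b_q m := by
              refine tsum_congr fun m => ?_
              rw [M2b_nest_zero]
          _ = M2b_F (b + 1) M2b_q := rfl
    rw [h1, M2b_F_eq]
    have h3 : Up (b + 1) 0 = ∑' m : ℕ, if 0 < m then M2b_q m * Up b m else 0 := rfl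
    rw [h3]
    refine tsum_congr fun m => ?_
    split_ifs with h
    · rfl
    · have hm : m = 0 := by omega
      subst hm
      simp [M2b_q]

end Pool.Agent.LibHof81
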