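import Mathlib

set_option autoImplicit false

namespace Pool.Agent.LibHof81

open Polynomial

namespace P1

theorem sp_cons {A : Type*} [AddCommMonoid A] (a : A) (s : Multiset A) :
    (a ::ₘ s).powerset.map Multiset.sum =
      s.powerset.map Multiset.sum + (s.powerset.map Multiset.sum).map (a + ·) := by
  rw [Multiset.powerset_cons, Multiset.map_add, Multiset.map_map, Multiset.map_map]
  congr 1
  refine Multiset.map_congr rfl fun t _ => ?_
  simp

theorem sp_map {A B : Type*} [AddCommMonoid A] [AddCommMonoid B] (f : A →+ B) (s : Multiset A) :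
    (s.map f).powerset.map Multiset.sum = (s.powerset.map Multiset.sum).map f := by
  induction s using Multiset.induction_on with
  | empty => simp
  | cons a s ih =>
    rw [Multiset.map_cons, sp_cons, sp_cons, ih, Multiset.map_add]
    congr 1
    simp only [Multiset.map_map]
    refine Multiset.map_congr rfl fun t _ => ?_
    simp

theorem map_prod {A B : Type*} [Field A] [Field B] (σ : A →+* B) (S : Multiset A) :
    ((S.map (fun a => X - C a)).prod).map σ = ((S.map σ).map (fun a => X - C a)).prod := by
  rw [Polynomial.map_multiset_prod, Multiset.map_map, Multiset.map_map]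
  congr 1
  refine Multiset.map_congr rfl fun a _ => ?_
  simp

end P1

/-- Task P1: the polynomial whose roots are all subset sums of the roots of `p` has rational coefficients (form the product
in `AlgebraicClosure ℚ`, its coefficients are fixed by the Galois group, `IsGalois.mem_bot_iff_fixed`; then map to `ℂ`). -/
theorem subset_sums (p : ℚ[X]) (hp : p ≠ 0) :
    ∃ F : ℚ[X], F.Monic ∧
      F.aroots ℂ = ((p.aroots ℂ).powerset.map Multiset.sum) := by
  letI : Algebra ℚ (AlgebraicClosure ℚ) := AlgebraicClosure.instAlgebra ℚ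
  have hal : Algebra.IsAlgebraic ℚ (AlgebraicClosure ℚ) := AlgebraicClosure.isAlgebraic ℚ
  have hgal : IsGalois ℚ (AlgebraicClosure ℚ) := by
    have : IsAlgClosure ℚ (AlgebraicClosure ℚ) := ⟨inferInstance, hal⟩
    infer_instance
  set Qc := AlgebraicClosure ℚ
  set R := p.aroots Qc with hR
  set S := R.powerset.map Multiset.sum with hS
  set G : Qc[X] := (S.map (fun a => X - C a)).prod with hG
  have hmap : ∀ (B : Type) (_ : Field B) (σ : Qc →+* B),
      G.map σ = ((S.map σ).map (fun a => X - C a)).prod := fun B _ σ => P1.map_prod σ S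
  have hsplit : (p.map (algebraMap ℚ Qc)).Splits := IsAlgClosed.splits _
  have hfix : ∀ σ : Qc ≃ₐ[ℚ] Qc, G.map (σ : Qc →+* Qc) = G := by
    intro σ
    have h1 : R.map (σ : Qc →+* Qc) = R := by
      rw [hR, aroots, ← hsplit.roots_map, map_map]
      congr 2
      exact σ.toAlgHom.comp_algebraMap
    rw [hmap Qc inferInstance, hS]
    have h2 := P1.sp_map ((σ : Qc →+* Qc) : Qc →+ Qc) R
    have h3 : R.map ((σ : Qc →+* Qc) : Qc →+ Qc) = R := h1
    rw [h3] at h2
    have h4 : (Multiset.map Multiset.sum R.powerset).map (σ : Qc →+* Qc) =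
        Multiset.map Multiset.sum R.powerset := h2.symm
    rw [h4, hG]
  have hcoeff : ∀ n, ∃ q : ℚ, algebraMap ℚ Qc q = G.coeff n := by
    intro n
    have h1 : G.coeff n ∈ (⊥ : IntermediateField ℚ Qc) := by
      rw [InfiniteGalois.mem_bot_iff_fixed]
      intro σ
      have := congrArg (fun P => coeff P n) (hfix σ)
      simpa [coeff_map] using this
    exact IntermediateField.mem_bot.1 h1
  choose q hq using hcoeff
  have hlift : ∃ F : ℚ[X], F.map (algebraMap ℚ Qc) = G := by
    refine ⟨∑ n ∈ Finset.range (G.natDegree + 1), monomial n (q n), ?_⟩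
    rw [Polynomial.map_sum]
    conv_rhs => rw [G.as_sum_range]
    refine Finset.sum_congr rfl fun n _ => ?_
    rw [map_monomial, hq]
  obtain ⟨F, hF⟩ := hlift
  have hGm : G.Monic := monic_multisetProd_X_sub_C S
  refine ⟨F, ?_, ?_⟩
  · have h1 : (F.map (algebraMap ℚ Qc)).Monic := by rw [hF]; exact hGm
    exact Polynomial.monic_of_injective (algebraMap ℚ Qc).injective h1
  · let ι : Qc →ₐ[ℚ] ℂ := IsAlgClosed.lift
    have h1 : F.map (algebraMap ℚ ℂ) = G.map (ι : Qc →+* ℂ) := by
      rw [← hF, map_map]
      congr 1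
      exact ι.comp_algebraMap.symm
    have h2 : p.aroots ℂ = R.map (ι : Qc →+* ℂ) := by
      rw [hR, aroots, aroots, ← hsplit.roots_map, map_map]
      congr 2
      exact ι.comp_algebraMap.symm
    have h3 : (S.map (ι : Qc →+* ℂ)) = (R.map (ι : Qc →+* ℂ)).powerset.map Multiset.sum :=
      (P1.sp_map ((ι : Qc →+* ℂ) : Qc →+ ℂ) R).symm
    rw [aroots, h1, hmap ℂ inferInstance, roots_multiset_prod_X_sub_C, h2, h3]

end Pool.Agent.LibHof81
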