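import Pool.Agent.LibHof81.P1

set_option autoImplicit false

namespace Pool.Agent.LibHof81

open Polynomial

/-- The nonzero subset sums are the roots of an integral polynomial with nonzero constant term. -/
theorem nonzero_subset_sums (p : ℚ[X]) (hp : p ≠ 0) :
    ∃ f : ℤ[X], f ≠ 0 ∧ f.eval 0 ≠ 0 ∧
      f.aroots ℂ = (((p.aroots ℂ).powerset.map Multiset.sum).filter (fun z => z ≠ 0)) := by
  obtain ⟨F, hF, hroots⟩ := subset_sums p hp
  have hF0 : F ≠ 0 := hF.ne_zero
  obtain ⟨G, hG, hGX⟩ := exists_eq_pow_rootMultiplicity_mul_and_not_dvd F hF0 0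
  rw [map_zero, sub_zero] at hG hGX
  set k := F.rootMultiplicity 0 with hk
  have hG0 : G.eval 0 ≠ 0 := by
    intro h
    apply hGX
    rw [X_dvd_iff, coeff_zero_eq_eval_zero]
    exact h
  have hGne : G ≠ 0 := by
    rintro rfl
    simp at hG0
  obtain ⟨b, hb⟩ := IsLocalization.integerNormalization_map_to_map (nonZeroDivisors ℤ) G
  set f := IsLocalization.integerNormalization (nonZeroDivisors ℤ) G with hf
  have hb0 : (b : ℤ) ≠ 0 := nonZeroDivisors.coe_ne_zero b
  have hfG : f.map (algebraMap ℤ ℚ) = C ((b : ℤ) : ℚ) * G := by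
    rw [hb]
    ext n
    rw [coeff_smul, coeff_C_mul, zsmul_eq_mul]
  have hbQ : (((b : ℤ) : ℚ)) ≠ 0 := by exact_mod_cast hb0
  have hfev : f.eval 0 ≠ 0 := by
    intro h
    have h1 : (f.map (algebraMap ℤ ℚ)).eval 0 = 0 := by
      rw [eval_zero_map, h]
      simp
    rw [hfG, eval_mul, eval_C] at h1
    exact (mul_ne_zero hbQ hG0) h1
  have hfne : f ≠ 0 := by
    intro h
    rw [h] at hfev
    simp at hfev
  refine ⟨f, hfne, hfev, ?_⟩
  have h2 : f.aroots ℂ = G.aroots ℂ := by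
    rw [aroots_def, aroots_def]
    have : f.map (algebraMap ℤ ℂ) = C (algebraMap ℚ ℂ ((b : ℤ) : ℚ)) * G.map (algebraMap ℚ ℂ) := by
      have h3 : f.map (algebraMap ℤ ℂ) = (f.map (algebraMap ℤ ℚ)).map (algebraMap ℚ ℂ) := by
        rw [Polynomial.map_map, ← IsScalarTower.algebraMap_eq]
      rw [h3, hfG, Polynomial.map_mul, map_C]
    rw [this, roots_C_mul]
    rw [Ne, map_eq_zero]
    exact hbQ
  have h4 : F.aroots ℂ = k • ({0} : Multiset ℂ) + G.aroots ℂ := by
    conv_lhs => rw [hG]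
    rw [aroots_mul (mul_ne_zero (pow_ne_zero _ X_ne_zero) hGne), aroots_X_pow]
  have h5 : (0 : ℂ) ∉ G.aroots ℂ := by
    intro h
    rw [mem_aroots] at h
    apply hG0
    have h6 := h.2
    rw [aeval_def, eval₂_at_zero, ← coeff_zero_eq_eval_zero] at *
    simpa using h6
  rw [h2, ← hroots, h4, Multiset.filter_add]
  have h7 : Multiset.filter (fun z : ℂ => z ≠ 0) (k • ({0} : Multiset ℂ)) = 0 := by
    rw [Multiset.filter_eq_nil]
    intro a ha
    have := Multiset.mem_of_mem_nsmul ha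
    rw [Multiset.mem_singleton] at this
    simp [this]
  have h8 : Multiset.filter (fun z : ℂ => z ≠ 0) (G.aroots ℂ) = G.aroots ℂ := by
    rw [Multiset.filter_eq_self]
    intro a ha h
    rw [h] at ha
    exact h5 ha
  rw [h7, h8, zero_add]

end Pool.Agent.LibHof81
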