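import Mathlib

set_option autoImplicit false

namespace Pool.Agent.LibHof81

open Polynomial

/-- the scaled elementary symmetric functions of the roots are integers -/
theorem P3a_esymm (f : ℤ[X]) (i : ℕ) :
    ∃ z : ℤ, (f.leadingCoeff : ℂ) ^ i * (f.aroots ℂ).esymm i = z := by
  set F : ℂ[X] := f.map (algebraMap ℤ ℂ) with hF
  have hinj : Function.Injective (algebraMap ℤ ℂ) := by
    rw [algebraMap_int_eq]
    exact RingHom.injective_int _
  have hroots : f.aroots ℂ = F.roots := rfl
  have hcard : Multiset.card F.roots = F.natDegree :=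
    (IsAlgClosed.splits F).natDegree_eq_card_roots.symm
  have hlc : F.leadingCoeff = (f.leadingCoeff : ℂ) := by
    rw [hF, leadingCoeff_map_of_injective hinj]
    simp
  rw [hroots]
  rcases Nat.eq_zero_or_pos i with rfl | hi
  · refine ⟨1, ?_⟩
    simp [Multiset.esymm]
  by_cases hin : i ≤ F.natDegree
  · have hv := Polynomial.coeff_eq_esymm_roots_of_card hcard (Nat.sub_le F.natDegree i)
    rw [Nat.sub_sub_self hin, hlc] at hv
    have hc : F.coeff (F.natDegree - i) = ((f.coeff (F.natDegree - i) : ℤ) : ℂ) := by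
      rw [hF, coeff_map]
      simp
    refine ⟨f.leadingCoeff ^ (i - 1) * ((-1) ^ i * f.coeff (F.natDegree - i)), ?_⟩
    push_cast
    rw [← hc, hv]
    obtain ⟨k, rfl⟩ : ∃ k, i = k + 1 := ⟨i - 1, by omega⟩
    have h1 : ((-1 : ℂ) ^ (k + 1)) * (-1) ^ (k + 1) = 1 := by
      rw [← mul_pow]
      norm_num
    rw [Nat.add_sub_cancel]
    linear_combination (-(f.leadingCoeff : ℂ) ^ (k + 1) * F.roots.esymm (k + 1)) * h1
  · push Not at hin
    refine ⟨0, ?_⟩
    have : F.roots.esymm i = 0 := by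
      unfold Multiset.esymm
      rw [Multiset.powersetCard_eq_empty i (by rw [hcard]; exact hin)]
      simp
    rw [this]
    simp

theorem P3a_multiset (s : Multiset ℂ) : ∃ (n : ℕ) (x : Fin n → ℂ),
    (Finset.univ : Finset (Fin n)).val.map x = s := by
  obtain ⟨l, rfl⟩ := Quot.exists_rep s
  refine ⟨l.length, l.get, ?_⟩
  rw [Fin.univ_val_map, List.ofFn_get]
  rfl

/-- the scaled power sums of the roots are integers -/
theorem P3a_psum (s : Multiset ℂ) (l : ℤ)
    (h : ∀ i, ∃ z : ℤ, (l : ℂ) ^ i * s.esymm i = z) (k : ℕ) :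
    ∃ z : ℤ, (l : ℂ) ^ k * (s.map (fun r => r ^ k)).sum = z := by
  obtain ⟨n, x, rfl⟩ := P3a_multiset s
  have hp : ∀ k, (((Finset.univ : Finset (Fin n)).val.map x).map (fun r => r ^ k)).sum =
      MvPolynomial.aeval x (MvPolynomial.psum (Fin n) ℤ k) := by
    intro k
    rw [MvPolynomial.psum, map_sum]
    simp only [map_pow, MvPolynomial.aeval_X, Multiset.map_map, Function.comp_def]
    rfl
  induction k using Nat.strong_induction_on with
  | _ k ih =>
    rcases Nat.eq_zero_or_pos k with rfl | hk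
    · refine ⟨n, ?_⟩
      rw [hp, MvPolynomial.psum_zero]
      simp
    rw [hp, MvPolynomial.psum_eq_mul_esymm_sub_sum _ _ k hk, map_sub, map_mul, map_mul, map_sum]
    simp only [map_mul, map_pow, map_neg, map_one, map_natCast,
      MvPolynomial.aeval_esymm_eq_multiset_esymm]
    have hterm : ∀ a ∈ Finset.filter (fun a : ℕ × ℕ => a.1 ∈ Set.Ioo 0 k)
        (Finset.HasAntidiagonal.antidiagonal k), ∃ z : ℤ, (l : ℂ) ^ k * ((-1) ^ a.1 *
          ((Finset.univ : Finset (Fin n)).val.map x).esymm a.1 *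
            MvPolynomial.aeval x (MvPolynomial.psum (Fin n) ℤ a.2)) = z := by
      intro a ha
      rw [Finset.mem_filter, Finset.HasAntidiagonal.mem_antidiagonal] at ha
      obtain ⟨hak, h0, h1⟩ := ha
      obtain ⟨z1, hz1⟩ := h a.1
      obtain ⟨z2, hz2⟩ := ih a.2 (by omega)
      rw [hp] at hz2
      refine ⟨(-1) ^ a.1 * z1 * z2, ?_⟩
      push_cast
      rw [← hz1, ← hz2, ← hak, pow_add]
      ring
    choose! z hz using hterm
    obtain ⟨z0, hz0⟩ := h k
    refine ⟨(-1) ^ (k + 1) * k * z0 -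
      ∑ a ∈ Finset.filter (fun a : ℕ × ℕ => a.1 ∈ Set.Ioo 0 k) (Finset.HasAntidiagonal.antidiagonal k), z a, ?_⟩
    push_cast
    rw [← hz0, mul_sub, Finset.mul_sum, Finset.sum_congr rfl hz]
    ring

theorem P3a_swap (s : Multiset ℂ) (c : ℕ → ℂ) (n : ℕ) :
    (s.map (fun r => ∑ i ∈ Finset.range n, c i * r ^ i)).sum =
      ∑ i ∈ Finset.range n, c i * (s.map (fun r => r ^ i)).sum := by
  induction s using Multiset.induction_on with
  | empty => simp
  | cons a s ih =>
    simp only [Multiset.map_cons, Multiset.sum_cons, ih, mul_add, Finset.sum_add_distrib]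

/-- Task P3a: for an integral polynomial `f` with leading coefficient `l` and an integral polynomial `g` of degree at
most `D`, the number `l^D * ∑_{f(r)=0} g(r)` is an integer (it is an algebraic integer and it is rational, being fixed by
the Galois group; `IsIntegral` + `IsIntegrallyClosed ℤ`; `RingHom.map`/`AlgebraicClosure ℚ`). -/
theorem int_sum_aroots (f g : ℤ[X]) (D : ℕ) (hg : g.natDegree ≤ D) :
    ∃ z : ℤ, (f.leadingCoeff : ℂ) ^ D * ((f.aroots ℂ).map (fun r => aeval r g)).sum = z := by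
  by_cases hf : f = 0
  · refine ⟨0, ?_⟩
    subst hf
    simp
  have hps := P3a_psum (f.aroots ℂ) f.leadingCoeff (P3a_esymm f)
  choose z hz using hps
  have hsum : ((f.aroots ℂ).map (fun r => aeval r g)).sum =
      ∑ i ∈ Finset.range (D + 1), (g.coeff i : ℂ) * ((f.aroots ℂ).map (fun r => r ^ i)).sum := by
    have h1 : (fun r : ℂ => aeval r g) =
        fun r => ∑ i ∈ Finset.range (D + 1), (g.coeff i : ℂ) * r ^ i := by
      funext r
      rw [aeval_eq_sum_range' (Nat.lt_succ_of_le hg)]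
      refine Finset.sum_congr rfl fun i _ => ?_
      rw [zsmul_eq_mul]
    rw [h1]
    exact P3a_swap _ _ _
  rw [hsum, Finset.mul_sum]
  refine ⟨∑ i ∈ Finset.range (D + 1), f.leadingCoeff ^ (D - i) * g.coeff i * z i, ?_⟩
  push_cast
  refine Finset.sum_congr rfl fun i hi => ?_
  have hi' : i ≤ D := Nat.lt_succ_iff.1 (Finset.mem_range.1 hi)
  rw [← hz i]
  have : (f.leadingCoeff : ℂ) ^ D = (f.leadingCoeff : ℂ) ^ (D - i) * (f.leadingCoeff : ℂ) ^ i := by
    rw [← pow_add, Nat.sub_add_cancel hi']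
  rw [this]
  ring

end Pool.Agent.LibHof81
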