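import Pool.Agent.LibHof81.Defs

set_option autoImplicit false

namespace Pool.Agent.LibHof81

/-- Task V1: a valuation of `ℂ`, trivial on `K`, with `v x > 1`. -/
theorem exists_valuation {K : Type*} [Field K] [Algebra K ℂ] (x : ℂ) (hx : Transcendental K x) :
    ∃ (Γ : Type) (_ : LinearOrderedCommGroupWithZero Γ) (v : Valuation ℂ Γ),
      1 < v x ∧ ∀ k : K, k ≠ 0 → v (algebraMap K ℂ k) = 1 := by
  have hx0 : x ≠ 0 := by
    rintro rfl
    exact hx (isAlgebraic_zero)
  set A : Subring ℂ := (Algebra.adjoin K {x⁻¹}).toSubring with hA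
  have hmem : x⁻¹ ∈ A := Algebra.subset_adjoin (Set.mem_singleton _)
  have hI : Ideal.span {(⟨x⁻¹, hmem⟩ : A)} ≠ ⊤ := by
    intro htop
    rw [Ideal.eq_top_iff_one, Ideal.mem_span_singleton] at htop
    obtain ⟨a, ha⟩ := htop
    have ha1 : (1 : ℂ) = x⁻¹ * (a : ℂ) := congrArg Subtype.val ha
    have ha2 : (a : ℂ) ∈ Algebra.adjoin K {x⁻¹} := a.2
    rw [Algebra.adjoin_singleton_eq_range_aeval] at ha2
    obtain ⟨q, hq⟩ := ha2
    have hq' : Polynomial.aeval x⁻¹ q = (a : ℂ) := hq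
    have halg : IsAlgebraic K x⁻¹ := by
      refine ⟨1 - Polynomial.X * q, ?_, ?_⟩
      · intro h0
        have := congrArg (fun p => Polynomial.coeff p 0) h0
        simp at this
      · rw [map_sub, map_one, map_mul, Polynomial.aeval_X, hq', ← ha1, sub_self]
    exact hx (IsAlgebraic.inv_iff.1 halg)
  obtain ⟨B, hB1, hB2⟩ := Ideal.image_subset_nonunits_valuationSubring _ hI
  refine ⟨B.ValueGroup, inferInstance, B.valuation, ?_, ?_⟩
  · have h1 : x⁻¹ ∈ B.nonunits := hB2 ⟨⟨x⁻¹, hmem⟩, Ideal.mem_span_singleton_self _, rfl⟩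
    rw [ValuationSubring.inv_mem_nonunits_iff] at h1
    have h2 := h1.resolve_left hx0
    rw [← B.valuation_le_one_iff, not_le] at h2
    exact h2
  · intro k hk
    have hk1 : algebraMap K ℂ k ∈ B := hB1 (Subalgebra.algebraMap_mem _ k)
    have hk2 : algebraMap K ℂ k⁻¹ ∈ B := hB1 (Subalgebra.algebraMap_mem _ k⁻¹)
    rw [← B.valuation_le_one_iff] at hk1 hk2
    refine le_antisymm hk1 ?_
    have hk0 : algebraMap K ℂ k ≠ 0 := by simpa using hk
    rw [map_inv₀, map_inv₀] at hk2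
    have hv0 : B.valuation (algebraMap K ℂ k) ≠ 0 := (Valuation.ne_zero_iff _).2 hk0
    exact (inv_le_one₀ (zero_lt_iff.2 hv0)).1 hk2

end Pool.Agent.LibHof81
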