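import Pool.Agent.LibHof81.Defs

set_option autoImplicit false

namespace Pool.Agent.LibHof81

open Real

/-- The derivative of `(2x)^(k+1)/(k+1)!`. -/
private lemma z1_pow (k : ℕ) (x : ℝ) :
    HasDerivAt (fun y : ℝ => (2 * y) ^ (k + 1) / ((k + 1).factorial : ℝ))
      (2 * ((2 * x) ^ k / (k.factorial : ℝ))) x := by
  have h := ((((hasDerivAt_id x).const_mul 2).pow (k + 1)).div_const ((k + 1).factorial : ℝ))
  refine h.congr_deriv ?_
  have h1 : ((k + 1).factorial : ℝ) = (k + 1) * (k.factorial : ℝ) := by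
    rw [Nat.factorial_succ]; push_cast; ring
  have h2 : (k.factorial : ℝ) ≠ 0 := by positivity
  have h3 : (k + 1 : ℝ) ≠ 0 := by positivity
  rw [h1]
  simp only [Nat.cast_add, Nat.cast_one, id_eq, mul_one, add_tsub_cancel_right]
  field_simp

/-- The first derivative of `cos^(2n+2)`. -/
private lemma z1_cos (n : ℕ) (x : ℝ) :
    HasDerivAt (fun y : ℝ => cos y ^ (2 * (n + 1))) (-(2 * (n + 1)) * (cos x ^ (2 * n + 1) * sin x)) x := by
  have h := (Real.hasDerivAt_cos x).pow (2 * (n + 1))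
  refine h.congr_deriv ?_
  have : 2 * (n + 1) - 1 = 2 * n + 1 := by omega
  rw [this]
  push_cast
  ring

/-- The second derivative of `cos^(2n+2)`. -/
private lemma z1_cos' (n : ℕ) (x : ℝ) :
    HasDerivAt (fun y : ℝ => -(2 * ((n:ℝ) + 1)) * (cos y ^ (2 * n + 1) * sin y))
      (2 * ((n:ℝ) + 1) * (2 * (n + 1) - 1) * cos x ^ (2 * n) -
        4 * ((n:ℝ) + 1) ^ 2 * cos x ^ (2 * (n + 1))) x := by
  have h := (((Real.hasDerivAt_cos x).pow (2 * n + 1)).mul (Real.hasDerivAt_sin x)).const_mul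
    (-(2 * ((n:ℝ) + 1)))
  refine h.congr_deriv ?_
  have h1 : 2 * n + 1 - 1 = 2 * n := by omega
  rw [h1]
  have h2 : sin x * sin x = 1 - cos x ^ 2 := by
    have := Real.sin_sq_add_cos_sq x
    nlinarith
  have h3 : cos x ^ (2 * (n + 1)) = cos x ^ (2 * n) * cos x ^ 2 := by
    rw [← pow_add]; ring_nf
  have h4 : cos x ^ (2 * n + 1) = cos x ^ (2 * n) * cos x := by
    rw [pow_succ]
  simp only [Pi.pow_apply]
  rw [h3, h4]
  push_cast
  linear_combination (-(2 * ((n:ℝ) + 1))) * (-(2 * (n:ℝ) + 1) * cos x ^ (2 * n)) * h2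

private lemma z1_cos_zero (n : ℕ) : cos (π / 2) ^ (2 * (n + 1)) = 0 := by
  rw [Real.cos_pi_div_two, zero_pow (by omega)]

private lemma z1_cos_zero' (n : ℕ) : cos (π / 2) ^ (2 * n + 1) = 0 := by
  rw [Real.cos_pi_div_two, zero_pow (by omega)]

private lemma z1_int (a b : ℝ) (f : ℝ → ℝ) (hf : Continuous f) : IntervalIntegrable f MeasureTheory.volume a b :=
  hf.intervalIntegrable a b

/-- Task Z1a: two integrations by parts, with
`(cos^(2n))'' = 2n(2n-1) cos^(2n-2) - 4n^2 cos^(2n)`. -/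
theorem Ai_rec (b n : ℕ) :
    2 * (n + 1 : ℝ) * (2 * (n + 1) - 1) * Ai (b + 1) n - 4 * (n + 1 : ℝ) ^ 2 * Ai (b + 1) (n + 1) =
      4 * Ai b (n + 1) := by
  have hf0 : ∀ x : ℝ, HasDerivAt (fun y : ℝ => (2 * y) ^ (2 * (b + 1)) / ((2 * (b + 1)).factorial : ℝ))
      (2 * ((2 * x) ^ (2 * b + 1) / ((2 * b + 1).factorial : ℝ))) x := fun x => z1_pow (2 * b + 1) x
  have hf1 : ∀ x : ℝ, HasDerivAt (fun y : ℝ => 2 * ((2 * y) ^ (2 * b + 1) / ((2 * b + 1).factorial : ℝ)))
      (4 * ((2 * x) ^ (2 * b) / ((2 * b).factorial : ℝ))) x := by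
    intro x
    have := (z1_pow (2 * b) x).const_mul 2
    refine this.congr_deriv ?_
    ring
  have hF : ∀ x : ℝ, HasDerivAt (fun y : ℝ =>
      (2 * y) ^ (2 * (b + 1)) / ((2 * (b + 1)).factorial : ℝ) *
        (-(2 * ((n:ℝ) + 1)) * (cos y ^ (2 * n + 1) * sin y)) -
      2 * ((2 * y) ^ (2 * b + 1) / ((2 * b + 1).factorial : ℝ)) * cos y ^ (2 * (n + 1)))
      (2 * ((n:ℝ) + 1) * (2 * (n + 1) - 1) *
          ((2 * x) ^ (2 * (b + 1)) / ((2 * (b + 1)).factorial : ℝ) * cos x ^ (2 * n)) -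
        4 * ((n:ℝ) + 1) ^ 2 *
          ((2 * x) ^ (2 * (b + 1)) / ((2 * (b + 1)).factorial : ℝ) * cos x ^ (2 * (n + 1))) -
        4 * ((2 * x) ^ (2 * b) / ((2 * b).factorial : ℝ) * cos x ^ (2 * (n + 1)))) x := by
    intro x
    have h := ((hf0 x).mul (z1_cos' n x)).sub ((hf1 x).mul (z1_cos n x))
    refine h.congr_deriv ?_
    ring
  have hI := intervalIntegral.integral_eq_sub_of_hasDerivAt (a := 0) (b := π / 2)
    (fun x _ => hF x) (z1_int _ _ _ (by fun_prop))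
  rw [z1_cos_zero, z1_cos_zero'] at hI
  rw [intervalIntegral.integral_sub (z1_int _ _ _ (by fun_prop)) (z1_int _ _ _ (by fun_prop)),
    intervalIntegral.integral_sub (z1_int _ _ _ (by fun_prop)) (z1_int _ _ _ (by fun_prop)),
    intervalIntegral.integral_const_mul, intervalIntegral.integral_const_mul,
    intervalIntegral.integral_const_mul] at hI
  have hz : (2 * (0:ℝ)) ^ (2 * b + 1) = 0 := by simp
  rw [hz] at hI
  simp only [Real.sin_zero, mul_zero, zero_mul, zero_div, sub_zero] at hI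
  unfold Ai
  linarith

theorem Ai_rec_zero (n : ℕ) :
    2 * (n + 1 : ℝ) * (2 * (n + 1) - 1) * Ai 0 n = 4 * (n + 1 : ℝ) ^ 2 * Ai 0 (n + 1) := by
  have hI := intervalIntegral.integral_eq_sub_of_hasDerivAt (a := 0) (b := π / 2)
    (fun x _ => z1_cos' n x) (z1_int _ _ _ (by fun_prop))
  rw [z1_cos_zero'] at hI
  rw [intervalIntegral.integral_sub (z1_int _ _ _ (by fun_prop)) (z1_int _ _ _ (by fun_prop)),
    intervalIntegral.integral_const_mul, intervalIntegral.integral_const_mul] at hI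
  simp only [Real.sin_zero, mul_zero, zero_mul, sub_zero] at hI
  unfold Ai
  simp only [mul_zero, pow_zero, Nat.factorial_zero, Nat.cast_one, div_one, one_mul]
  linarith

end Pool.Agent.LibHof81
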