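import Pool.Agent.LibHof81.Z1

set_option autoImplicit false

namespace Pool.Agent.LibHof81

open Real

theorem Wn_pos (n : ℕ) : 0 < Wn n := by
  unfold Wn
  have h := Nat.centralBinom_pos n
  have h' : (0 : ℝ) < (Nat.centralBinom n : ℝ) := by exact_mod_cast h
  have := Real.pi_pos
  positivity

theorem Wn_succ (n : ℕ) : Wn (n + 1) = Wn n * (2 * (n + 1 : ℝ) / (2 * n + 1)) := by
  unfold Wn
  have h := Nat.succ_mul_centralBinom_succ n
  have h' : ((n : ℝ) + 1) * (Nat.centralBinom (n + 1) : ℝ) =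
      2 * (2 * n + 1) * (Nat.centralBinom n : ℝ) := by exact_mod_cast h
  have h0 : (0 : ℝ) < (Nat.centralBinom n : ℝ) := by exact_mod_cast Nat.centralBinom_pos n
  have h1 : (0 : ℝ) < (Nat.centralBinom (n + 1) : ℝ) := by
    exact_mod_cast Nat.centralBinom_pos (n + 1)
  have h2 : (0 : ℝ) < 2 * (n : ℝ) + 1 := by positivity
  have h3 : (Nat.centralBinom (n + 1) : ℝ) = 2 * (2 * n + 1) * (Nat.centralBinom n : ℝ) / (n + 1) := by
    rw [eq_div_iff (by positivity)]
    linarith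
  rw [h3]
  have hpi := Real.pi_pos
  field_simp
  ring

theorem Ai_nonneg (b n : ℕ) : 0 ≤ Ai b n := by
  unfold Ai
  have hpi := Real.pi_pos
  refine intervalIntegral.integral_nonneg (by positivity) (fun x hx => ?_)
  have h1 : 0 ≤ cos x ^ (2 * n) := by rw [pow_mul]; positivity
  have h2 : (0 : ℝ) ≤ x := hx.1
  positivity

theorem Jn_nonneg (b n : ℕ) : 0 ≤ Jn b n := mul_nonneg (Wn_pos n).le (Ai_nonneg b n)

theorem Jn_zero (n : ℕ) : Jn 0 n = 1 := by
  induction n with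
  | zero =>
    unfold Jn Wn Ai
    have := Real.pi_pos
    simp
  | succ n ih =>
    unfold Jn at ih ⊢
    rw [Wn_succ]
    have h := Ai_rec_zero n
    have h1 : (0 : ℝ) < (n : ℝ) + 1 := by positivity
    have h2 : Ai 0 (n + 1) = (2 * n + 1) / (2 * (n + 1 : ℝ)) * Ai 0 n := by
      have h3 : 4 * (n + 1 : ℝ) ^ 2 ≠ 0 := by positivity
      have h4 : Ai 0 (n + 1) = 2 * (n + 1 : ℝ) * (2 * (n + 1) - 1) * Ai 0 n / (4 * (n + 1 : ℝ) ^ 2) := by
        rw [eq_div_iff h3]; linarith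
      rw [h4]
      field_simp
      ring
    rw [h2]
    calc Wn n * (2 * (n + 1 : ℝ) / (2 * n + 1)) * ((2 * n + 1) / (2 * (n + 1 : ℝ)) * Ai 0 n)
        = Wn n * Ai 0 n := by
          have : (0 : ℝ) < 2 * (n : ℝ) + 1 := by positivity
          field_simp
      _ = 1 := ih

theorem Jn_sub (b n : ℕ) : Jn (b + 1) n - Jn (b + 1) (n + 1) = ((n + 1 : ℝ) ^ 2)⁻¹ * Jn b (n + 1) := by
  unfold Jn
  rw [Wn_succ]
  have h := Ai_rec b n
  have h1 : (0 : ℝ) < (n : ℝ) + 1 := by positivity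
  have h2 : (0 : ℝ) < 2 * (n : ℝ) + 1 := by positivity
  have h3 : Ai b (n + 1) = (2 * (n + 1 : ℝ) * (2 * (n + 1) - 1) * Ai (b + 1) n -
      4 * (n + 1 : ℝ) ^ 2 * Ai (b + 1) (n + 1)) / 4 := by linarith
  rw [h3]
  field_simp
  ring

theorem Jn_at_zero (b : ℕ) : Jn b 0 = π ^ (2 * b) / ((2 * b + 1).factorial : ℝ) := by
  unfold Jn Wn Ai
  have hpi := Real.pi_pos
  have h1 : ∀ x : ℝ, (2 * x) ^ (2 * b) / ((2 * b).factorial : ℝ) * cos x ^ (2 * 0) =
      2 ^ (2 * b) / ((2 * b).factorial : ℝ) * x ^ (2 * b) := by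
    intro x
    rw [mul_pow]
    simp
    ring
  simp_rw [h1]
  rw [intervalIntegral.integral_const_mul, integral_pow, Nat.factorial_succ]
  have h2 : (0 : ℝ) < ((2 * b).factorial : ℝ) := by exact_mod_cast Nat.factorial_pos _
  simp only [Nat.centralBinom_zero, Nat.cast_one, pow_zero, div_one, mul_one]
  rw [zero_pow (by omega), sub_zero, div_pow, Nat.cast_mul]
  push_cast
  field_simp
  ring

end Pool.Agent.LibHof81
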