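import Pool.Agent.LibHof81.Z2

set_option autoImplicit false

namespace Pool.Agent.LibHof81

open Real

theorem two_mul_le_pi_sin (x : ℝ) (hx : 0 ≤ x) (hx' : x ≤ π / 2) : 2 * x ≤ π * sin x := by
  have h := Real.mul_le_sin hx hx'
  have hpi := Real.pi_pos
  have : π * (2 / π * x) ≤ π * sin x := mul_le_mul_of_nonneg_left h hpi.le
  calc 2 * x = π * (2 / π * x) := by field_simp
    _ ≤ _ := this

theorem Ai_le (b n : ℕ) : Ai (b + 1) n ≤ π ^ (2 * (b + 1)) * (Ai 0 n - Ai 0 (n + 1)) := by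
  have hpi := Real.pi_pos
  have hle : (0 : ℝ) ≤ π / 2 := by positivity
  have hint : ∀ k m : ℕ, IntervalIntegrable
      (fun x : ℝ => (2 * x) ^ (2 * k) / ((2 * k).factorial : ℝ) * cos x ^ (2 * m))
      MeasureTheory.volume 0 (π / 2) := by
    intro k m
    apply Continuous.intervalIntegrable
    fun_prop
  unfold Ai
  rw [← intervalIntegral.integral_sub (hint 0 n) (hint 0 (n + 1)), ← intervalIntegral.integral_const_mul]
  refine intervalIntegral.integral_mono_on hle (hint (b + 1) n) ?_ ?_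
  · exact ((hint 0 n).sub (hint 0 (n + 1))).const_mul _
  · intro x hx
    obtain ⟨hx0, hx1⟩ := hx
    have hs := two_mul_le_pi_sin x hx0 hx1
    have hsin0 : 0 ≤ sin x := Real.sin_nonneg_of_nonneg_of_le_pi hx0 (by linarith)
    have hc : 0 ≤ cos x ^ (2 * n) := by
      rw [pow_mul]; positivity
    have hsin1 : sin x ≤ 1 := Real.sin_le_one x
    have h1 : (2 * x) ^ (2 * (b + 1)) ≤ π ^ (2 * (b + 1)) * sin x ^ 2 := by
      calc (2 * x) ^ (2 * (b + 1)) ≤ (π * sin x) ^ (2 * (b + 1)) :=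
            pow_le_pow_left₀ (by positivity) hs _
        _ = π ^ (2 * (b + 1)) * (sin x ^ 2 * sin x ^ (2 * b)) := by
            rw [mul_pow, ← pow_add]; congr 2; ring
        _ ≤ π ^ (2 * (b + 1)) * (sin x ^ 2 * 1) := by
            apply mul_le_mul_of_nonneg_left _ (by positivity)
            apply mul_le_mul_of_nonneg_left _ (by positivity)
            exact pow_le_one₀ hsin0 hsin1
        _ = _ := by ring
    have hf : (1 : ℝ) ≤ ((2 * (b + 1)).factorial : ℝ) := by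
      exact_mod_cast Nat.factorial_pos _
    have h2 : (2 * x) ^ (2 * (b + 1)) / ((2 * (b + 1)).factorial : ℝ) ≤ (2 * x) ^ (2 * (b + 1)) :=
      div_le_self (by positivity) hf
    have h3 : sin x ^ 2 = 1 - cos x ^ 2 := by
      have := Real.sin_sq_add_cos_sq x; linarith
    have key : (2 * x) ^ (2 * (b + 1)) / ((2 * (b + 1)).factorial : ℝ) * cos x ^ (2 * n) ≤
        (π ^ (2 * (b + 1)) * sin x ^ 2) * cos x ^ (2 * n) :=
      mul_le_mul_of_nonneg_right (h2.trans h1) hc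
    refine key.trans (le_of_eq ?_)
    rw [h3]
    simp only [mul_zero, pow_zero, Nat.factorial_zero, Nat.cast_one, div_one, one_mul]
    rw [show 2 * (n + 1) = 2 * n + 2 by ring, pow_add]
    ring

/-- Task Z2b: from `2x ≤ π sin x` on `[0, π/2]`: `A (b+1) n ≤ π^(2b+2) (A 0 n - A 0 (n+1))`. -/
theorem Jn_le (b n : ℕ) : Jn (b + 1) n ≤ π ^ (2 * (b + 1)) / (2 * n + 2) := by
  have hW := Wn_pos n
  have hW1 := Wn_pos (n + 1)
  have h0 := Jn_zero n
  have h1 := Jn_zero (n + 1)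
  unfold Jn at h0 h1 ⊢
  have h2 := mul_le_mul_of_nonneg_left (Ai_le b n) hW.le
  refine h2.trans (le_of_eq ?_)
  have h3 : Wn n * Ai 0 (n + 1) = (2 * n + 1) / (2 * (n + 1 : ℝ)) := by
    have h4 : Wn n = Wn (n + 1) * ((2 * n + 1) / (2 * (n + 1 : ℝ))) := by
      rw [Wn_succ]
      have : (2 * (n : ℝ) + 1) ≠ 0 := by positivity
      have : (n : ℝ) + 1 ≠ 0 := by positivity
      field_simp
    rw [h4]
    calc Wn (n + 1) * ((2 * n + 1) / (2 * (n + 1 : ℝ))) * Ai 0 (n + 1)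
        = (Wn (n + 1) * Ai 0 (n + 1)) * ((2 * n + 1) / (2 * (n + 1 : ℝ))) := by ring
      _ = _ := by rw [h1, one_mul]
  calc Wn n * (π ^ (2 * (b + 1)) * (Ai 0 n - Ai 0 (n + 1)))
      = π ^ (2 * (b + 1)) * (Wn n * Ai 0 n - Wn n * Ai 0 (n + 1)) := by ring
    _ = π ^ (2 * (b + 1)) * (1 - (2 * n + 1) / (2 * (n + 1 : ℝ))) := by rw [h0, h3]
    _ = π ^ (2 * (b + 1)) / (2 * n + 2) := by
        have : (n : ℝ) + 1 ≠ 0 := by positivity
        field_simp
        ring

end Pool.Agent.LibHof81
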