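import Pool.Agent.LibHof81.Defs

set_option autoImplicit false

namespace Pool.Agent.LibHof81

open Real

/-- `Ii h x = ∫_x^{π/2} (y - x) h(y) dy`. -/
noncomputable def Ii (h : ℝ → ℝ) (x : ℝ) : ℝ := ∫ y in x..(π / 2), (y - x) * h y

/-- `gn n x`: `g_0 = 2 (π/2 - x)^2`, `g_n = 4 n^2 e_n I(cos^(2n))`. -/
noncomputable def gn (n : ℕ) (x : ℝ) : ℝ :=
  if n = 0 then 2 * (π / 2 - x) ^ 2 else 4 * (n : ℝ) ^ 2 * en n * Ii (fun y => cos y ^ (2 * n)) x

private theorem en_rec (n : ℕ) : en (n + 1) * (2 * (n + 1 : ℝ) * (2 * n + 1)) =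
    4 ^ (n + 1) / (Nat.centralBinom n : ℝ) := by
  have h := Nat.succ_mul_centralBinom_succ n
  have h' : ((n : ℝ) + 1) * (Nat.centralBinom (n + 1) : ℝ) =
      2 * (2 * n + 1) * (Nat.centralBinom n : ℝ) := by exact_mod_cast h
  have hc : (Nat.centralBinom n : ℝ) ≠ 0 := by
    exact_mod_cast (Nat.centralBinom_pos n).ne'
  have hc' : (Nat.centralBinom (n + 1) : ℝ) ≠ 0 := by
    exact_mod_cast (Nat.centralBinom_pos (n + 1)).ne'
  have hn : ((n : ℝ) + 1) ≠ 0 := by positivity
  unfold en
  push_cast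
  rw [div_mul_eq_mul_div, div_eq_div_iff (by positivity) hc]
  linear_combination (-(4 : ℝ) ^ (n + 1) * (n + 1)) * h'

private theorem cos_ii (n : ℕ) (x : ℝ) : cos x ^ (2 * (n + 1)) =
    2 * (n + 1 : ℝ) * (2 * n + 1) * Ii (fun y => cos y ^ (2 * n)) x -
      4 * (n + 1 : ℝ) ^ 2 * Ii (fun y => cos y ^ (2 * (n + 1))) x := by
  have hd : ∀ y : ℝ, HasDerivAt (fun y => (y - x) * (-(2 * (n + 1 : ℝ)) * (cos y ^ (2 * n + 1) *
      sin y)) - cos y ^ (2 * (n + 1)))
      (2 * (n + 1 : ℝ) * (2 * n + 1) * ((y - x) * cos y ^ (2 * n)) -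
        4 * (n + 1 : ℝ) ^ 2 * ((y - x) * cos y ^ (2 * (n + 1)))) y := by
    intro y
    have h1 : HasDerivAt (fun y : ℝ => y - x) 1 y := (hasDerivAt_id y).sub_const x
    have h2 := (hasDerivAt_cos y).pow (2 * n + 1)
    have h3 := (hasDerivAt_cos y).pow (2 * (n + 1))
    have h4 := (h1.mul ((h2.mul (hasDerivAt_sin y)).const_mul (-(2 * (n + 1 : ℝ))))).sub h3
    refine h4.congr_deriv ?_
    have hs : sin y * sin y = 1 - cos y ^ 2 := by
      have := sin_sq_add_cos_sq y
      linear_combination this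
    have e1 : 2 * n + 1 - 1 = 2 * n := by omega
    have e2 : 2 * (n + 1) - 1 = 2 * n + 1 := by omega
    simp only [e1, e2, Pi.pow_apply, Pi.mul_apply]
    push_cast
    linear_combination ((y - x) * (2 * (n + 1 : ℝ)) * (2 * n + 1) * cos y ^ (2 * n)) * hs
  have hint : ∀ m : ℕ, IntervalIntegrable (fun y => (y - x) * cos y ^ m) MeasureTheory.volume
      x (π / 2) := fun m => Continuous.intervalIntegrable (by fun_prop) _ _
  have h := intervalIntegral.integral_eq_sub_of_hasDerivAt (fun y _ => hd y)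
    (a := x) (b := π / 2) (((hint (2 * n)).const_mul _).sub ((hint (2 * (n + 1))).const_mul _))
  rw [intervalIntegral.integral_sub ((hint (2 * n)).const_mul _)
    ((hint (2 * (n + 1))).const_mul _), intervalIntegral.integral_const_mul,
    intervalIntegral.integral_const_mul] at h
  simp only [cos_pi_div_two, sub_self, zero_mul] at h
  rw [Ii, Ii, h]
  simp

/-- Task Z4a: telescoping identity (`cos^(2n+2) = I((cos^(2n+2))'')`, as value and derivative vanish at `π/2`). -/
theorem en_cos (n : ℕ) (x : ℝ) : en (n + 1) * cos x ^ (2 * (n + 1)) = gn n x - gn (n + 1) x := by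
  rw [cos_ii n x]
  have h1 := en_rec n
  have h2 : gn (n + 1) x = 4 * ((n : ℝ) + 1) ^ 2 * en (n + 1) *
      Ii (fun y => cos y ^ (2 * (n + 1))) x := by
    rw [gn, if_neg (by omega)]
    push_cast
    rfl
  have h3 : gn n x = en (n + 1) * (2 * (n + 1 : ℝ) * (2 * n + 1)) *
      Ii (fun y => cos y ^ (2 * n)) x := by
    rw [h1]
    rcases n with _ | n
    · simp only [gn, if_true, Ii, mul_zero, pow_zero, mul_one, Nat.centralBinom_zero]
      have : ∫ y in x..(π / 2), (y - x) = (π / 2 - x) ^ 2 / 2 := by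
        rw [intervalIntegral.integral_sub (Continuous.intervalIntegrable (by fun_prop) _ _)
          (Continuous.intervalIntegrable (by fun_prop) _ _)]
        simp only [integral_id, intervalIntegral.integral_const, smul_eq_mul]
        ring
      rw [this]
      norm_num
      ring
    · rw [gn, if_neg (by omega)]
      congr 1
      unfold en
      have hc : (Nat.centralBinom (n + 1) : ℝ) ≠ 0 := by
        exact_mod_cast (Nat.centralBinom_pos (n + 1)).ne'
      have hn : (((n + 1 : ℕ)) : ℝ) ≠ 0 := by positivity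
      field_simp
      ring
  rw [h2, h3]
  ring

end Pool.Agent.LibHof81
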