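import Pool.Agent.LibHof81.Z4a

set_option autoImplicit false

namespace Pool.Agent.LibHof81

open Real

private theorem Ii_nonneg (n : ℕ) (x : ℝ) (hx' : x ≤ π / 2) :
    0 ≤ Ii (fun y => cos y ^ (2 * n)) x := by
  refine intervalIntegral.integral_nonneg hx' fun y hy => ?_
  refine mul_nonneg (by linarith [hy.1]) ?_
  simp only [pow_mul]
  positivity

private theorem Ii_le (n : ℕ) (x : ℝ) (hx : 0 < x) (hx' : x ≤ π / 2) :
    Ii (fun y => cos y ^ (2 * n)) x ≤ (π / 2) * (π / 2) * (cos x ^ 2) ^ n := by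
  have h1 : Ii (fun y => cos y ^ (2 * n)) x ≤
      ∫ _ in x..(π / 2), (π / 2) * (cos x ^ 2) ^ n := by
    refine intervalIntegral.integral_mono_on hx' (Continuous.intervalIntegrable (by fun_prop) _ _)
      (Continuous.intervalIntegrable (by fun_prop) _ _) fun y hy => ?_
    have hc0 : 0 ≤ cos y := cos_nonneg_of_mem_Icc ⟨by linarith [hy.1], hy.2⟩
    have hc1 : cos y ≤ cos x :=
      cos_le_cos_of_nonneg_of_le_pi hx.le (by linarith [hy.2, pi_pos]) hy.1
    show (y - x) * cos y ^ (2 * n) ≤ π / 2 * (cos x ^ 2) ^ n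
    rw [pow_mul]
    have h2 : (cos y ^ 2) ^ n ≤ (cos x ^ 2) ^ n := by gcongr
    have h3 : y - x ≤ π / 2 := by linarith [hy.2]
    have h4 : 0 ≤ (cos y ^ 2) ^ n := by positivity
    have h5 : 0 ≤ π / 2 := by positivity
    exact mul_le_mul h3 h2 h4 h5
  rw [intervalIntegral.integral_const, smul_eq_mul] at h1
  refine h1.trans ?_
  have h6 : π / 2 - x ≤ π / 2 := by linarith
  have h7 : 0 ≤ π / 2 * (cos x ^ 2) ^ n := by positivity
  calc (π / 2 - x) * (π / 2 * (cos x ^ 2) ^ n) ≤ (π / 2) * (π / 2 * (cos x ^ 2) ^ n) :=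
        mul_le_mul_of_nonneg_right h6 h7
    _ = _ := by ring

theorem gn_nonneg (n : ℕ) (x : ℝ) (hx : 0 < x) (hx' : x ≤ π / 2) : 0 ≤ gn n x := by
  unfold gn
  split_ifs
  · positivity
  · refine mul_nonneg (mul_nonneg (by positivity) ?_) (Ii_nonneg n x hx')
    unfold en
    positivity

/-- Task Z4b (use `Nat.four_pow_le_two_mul_self_mul_centralBinom`). -/
theorem gn_tendsto (x : ℝ) (hx : 0 < x) (hx' : x ≤ π / 2) :
    Filter.Tendsto (fun n => gn n x) Filter.atTop (nhds 0) := by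
  have hc0 : 0 ≤ cos x := cos_nonneg_of_mem_Icc ⟨by linarith, hx'⟩
  have hc1 : cos x < 1 := by
    have := cos_lt_cos_of_nonneg_of_le_pi_div_two (le_refl 0) hx' hx
    rwa [cos_zero] at this
  have hr : cos x ^ 2 < 1 := by nlinarith
  have h1 : Filter.Tendsto (fun n : ℕ => (n : ℝ) * (cos x ^ 2) ^ n) Filter.atTop (nhds 0) :=
    tendsto_self_mul_const_pow_of_lt_one (by positivity) hr
  have h2 : Filter.Tendsto (fun n : ℕ => 8 * ((π / 2) * (π / 2)) * ((n : ℝ) * (cos x ^ 2) ^ n))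
      Filter.atTop (nhds 0) := by
    simpa using h1.const_mul (8 * ((π / 2) * (π / 2)))
  refine squeeze_zero' (Filter.Eventually.of_forall fun n => gn_nonneg n x hx hx') ?_ h2
  filter_upwards [Filter.eventually_gt_atTop 0] with n hn
  rw [gn, if_neg hn.ne']
  have h3 : 4 * (n : ℝ) ^ 2 * en n ≤ 8 * n := by
    have h4 := Nat.four_pow_le_two_mul_self_mul_centralBinom n hn
    have h4' : (4 : ℝ) ^ n ≤ 2 * n * (Nat.centralBinom n : ℝ) := by exact_mod_cast h4
    have hc : (0 : ℝ) < (Nat.centralBinom n : ℝ) := by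
      exact_mod_cast Nat.centralBinom_pos n
    have hn' : (0 : ℝ) < n := by exact_mod_cast hn
    have e : 4 * (n : ℝ) ^ 2 * en n = 4 * (4 ^ n / (Nat.centralBinom n : ℝ)) := by
      unfold en
      field_simp
    rw [e]
    have : 4 ^ n / (Nat.centralBinom n : ℝ) ≤ 2 * n := by
      rw [div_le_iff₀ hc]
      exact h4'
    linarith
  have h5 := Ii_le n x hx hx'
  have h6 := Ii_nonneg n x hx'
  calc 4 * (n : ℝ) ^ 2 * en n * Ii (fun y => cos y ^ (2 * n)) x
      ≤ (8 * n) * ((π / 2) * (π / 2) * (cos x ^ 2) ^ n) :=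
        mul_le_mul h3 h5 h6 (by positivity)
    _ = _ := by ring

end Pool.Agent.LibHof81
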