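import Pool.Agent.LibHof81.Z4b

set_option autoImplicit false

namespace Pool.Agent.LibHof81

open Real

private theorem en_nonneg (n : ℕ) : 0 ≤ en n := by
  unfold en
  positivity

private theorem Lo_nonneg (a n : ℕ) : 0 ≤ Lo a n := by
  induction a generalizing n with
  | zero => simp [Lo]
  | succ a ih =>
    rw [Lo]
    exact Finset.sum_nonneg fun m _ => mul_nonneg (by positivity) (ih m)

private theorem hasSum_tail (m : ℕ) (x : ℝ) (hx : 0 < x) (hx' : x ≤ π / 2) :
    HasSum (fun n : ℕ => if m < n then en n * cos x ^ (2 * n) else 0) (gn m x) := by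
  set f : ℕ → ℝ := fun n => if m < n then en n * cos x ^ (2 * n) else 0 with hf
  have hnn : ∀ n, 0 ≤ f n := by
    intro n
    simp only [hf]
    split_ifs
    · rw [pow_mul]
      exact mul_nonneg (en_nonneg n) (by positivity)
    · exact le_refl _
  rw [← hasSum_nat_add_iff' (m + 1)]
  have h0 : ∑ i ∈ Finset.range (m + 1), f i = 0 := by
    refine Finset.sum_eq_zero fun i hi => ?_
    have : ¬ m < i := by
      have := Finset.mem_range.mp hi
      omega
    simp [hf, this]
  rw [h0, sub_zero, hasSum_iff_tendsto_nat_of_nonneg fun i => hnn _]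
  have h1 : ∀ i, f (i + (m + 1)) = gn (m + i) x - gn (m + (i + 1)) x := by
    intro i
    have : m < i + (m + 1) := by omega
    simp only [hf, this, if_true]
    have h2 := en_cos (m + i) x
    have e : i + (m + 1) = m + i + 1 := by omega
    rw [e, ← add_assoc, h2]
  have h2 : ∀ N, ∑ i ∈ Finset.range N, f (i + (m + 1)) = gn m x - gn (m + N) x := by
    intro N
    simp only [h1]
    rw [Finset.sum_range_sub' (fun i => gn (m + i) x)]
    simp
  simp only [h2]
  have h3 : Filter.Tendsto (fun N => gn (m + N) x) Filter.atTop (nhds 0) := by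
    have := (Filter.tendsto_add_atTop_iff_nat m).mpr (gn_tendsto x hx hx')
    simpa [add_comm] using this
  simpa using tendsto_const_nhds.sub h3

private theorem integral_poly (k : ℕ) (x : ℝ) :
    ∫ y in x..(π / 2), (y - x) * (π - 2 * y) ^ k =
      (π - 2 * x) ^ (k + 2) / (4 * ((k : ℝ) + 1) * (k + 2)) := by
  have hk1 : (k : ℝ) + 1 ≠ 0 := by positivity
  have hk2 : (k : ℝ) + 2 ≠ 0 := by positivity
  have hd : ∀ y : ℝ, HasDerivAt (fun y => -((y - x) * (π - 2 * y) ^ (k + 1)) / (2 * ((k : ℝ) + 1)) -
      (π - 2 * y) ^ (k + 2) / (4 * ((k : ℝ) + 1) * (k + 2))) ((y - x) * (π - 2 * y) ^ k) y := by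
    intro y
    have h1 : HasDerivAt (fun y : ℝ => y - x) 1 y := (hasDerivAt_id y).sub_const x
    have h2 : HasDerivAt (fun y : ℝ => π - 2 * y) (-2) y := by
      simpa using ((hasDerivAt_id y).const_mul 2).const_sub π
    have h3 := ((h1.mul (h2.pow (k + 1))).neg.div_const (2 * ((k : ℝ) + 1))).sub
      ((h2.pow (k + 2)).div_const (4 * ((k : ℝ) + 1) * (k + 2)))
    refine h3.congr_deriv ?_
    have e1 : k + 1 - 1 = k := by omega
    have e2 : k + 2 - 1 = k + 1 := by omega
    simp only [e1, e2, Pi.pow_apply]
    push_cast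
    field_simp
    ring
  rw [intervalIntegral.integral_eq_sub_of_hasDerivAt (fun y _ => hd y)
    (Continuous.intervalIntegrable (by fun_prop) _ _)]
  have e : π - 2 * (π / 2) = 0 := by ring
  simp only [e, sub_self, zero_mul, neg_zero, zero_div]
  rw [zero_pow (by omega), zero_pow (by omega)]
  simp

/-- Task Z5: the generating function in the lower sums: by induction on `a`, `S_0 = g_0` (telescoping) and
`S_(a+1)(x) = ∑_m m^-2 L_a(m) ∑_{n>m} e_n cos^(2n) x = ∑_m m^-2 L_a(m) g_m(x) = 4 I(S_a)(x)`. -/
theorem hasSum_S (a : ℕ) (x : ℝ) (hx : 0 < x) (hx' : x ≤ π / 2) :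
    HasSum (fun n : ℕ => en n * Lo a n * cos x ^ (2 * n))
      ((π - 2 * x) ^ (2 * a + 2) / ((2 * a + 2).factorial : ℝ)) := by
  induction a generalizing x with
  | zero =>
    have h := hasSum_tail 0 x hx hx'
    have e : gn 0 x = (π - 2 * x) ^ (2 * 0 + 2) / ((2 * 0 + 2).factorial : ℝ) := by
      simp only [gn, if_true, mul_zero, zero_add, Nat.factorial_two]
      push_cast
      ring
    rw [← e]
    refine h.congr_fun ?_ |> id
    intro n
    rcases Nat.eq_zero_or_pos n with rfl | hn
    · simp [en]
    · simp [Lo, hn]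
  | succ a ih =>
    -- the integrated series
    have hterm : ∀ (m : ℕ) (y : ℝ), 0 ≤ en m * Lo a m * cos y ^ (2 * m) := by
      intro m y
      rw [pow_mul]
      exact mul_nonneg (mul_nonneg (en_nonneg m) (Lo_nonneg a m)) (by positivity)
    have hI : HasSum (fun m : ℕ => ∫ y in x..(π / 2), (y - x) * (en m * Lo a m * cos y ^ (2 * m)))
        (∫ y in x..(π / 2), (y - x) * ((π - 2 * y) ^ (2 * a + 2) /
          ((2 * a + 2).factorial : ℝ))) := by
      have hmem : ∀ y ∈ Set.uIoc x (π / 2), 0 < y ∧ y ≤ π / 2 ∧ 0 ≤ y - x := by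
        intro y hy
        rw [Set.uIoc_of_le hx'] at hy
        exact ⟨hx.trans hy.1, hy.2, by linarith [hy.1]⟩
      have hs : ∀ y ∈ Set.uIoc x (π / 2), HasSum
          (fun m : ℕ => (y - x) * (en m * Lo a m * cos y ^ (2 * m)))
          ((y - x) * ((π - 2 * y) ^ (2 * a + 2) / ((2 * a + 2).factorial : ℝ))) := by
        intro y hy
        obtain ⟨h1, h2, h3⟩ := hmem y hy
        exact (ih y h1 h2).mul_left _
      refine intervalIntegral.hasSum_integral_of_dominated_convergence
        (fun m y => (y - x) * (en m * Lo a m * cos y ^ (2 * m))) ?_ ?_ ?_ ?_ ?_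
      · intro m
        exact Continuous.aestronglyMeasurable (by fun_prop)
      · intro m
        refine Filter.Eventually.of_forall fun y hy => ?_
        obtain ⟨h1, h2, h3⟩ := hmem y hy
        rw [Real.norm_of_nonneg (mul_nonneg h3 (hterm m y))]
      · exact Filter.Eventually.of_forall fun y hy => (hs y hy).summable
      · have hcont : IntervalIntegrable (fun y => (y - x) * ((π - 2 * y) ^ (2 * a + 2) /
            ((2 * a + 2).factorial : ℝ))) MeasureTheory.volume x (π / 2) :=
          Continuous.intervalIntegrable (by fun_prop) _ _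
        refine hcont.congr ?_
        intro y hy
        exact (hs y hy).tsum_eq.symm
      · exact Filter.Eventually.of_forall fun y hy => hs y hy
    -- the series over `m`
    set w : ℕ → ℝ := fun m => ((m : ℝ) ^ 2)⁻¹ * Lo a m with hw
    have hw0 : ∀ m, 0 ≤ w m := fun m => mul_nonneg (by positivity) (Lo_nonneg a m)
    have hT : HasSum (fun m => w m * gn m x)
        ((π - 2 * x) ^ (2 * (a + 1) + 2) / ((2 * (a + 1) + 2).factorial : ℝ)) := by
      have h4 := hI.mul_left 4
      have e1 : 4 * ∫ y in x..(π / 2), (y - x) * ((π - 2 * y) ^ (2 * a + 2) /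
          ((2 * a + 2).factorial : ℝ)) =
          (π - 2 * x) ^ (2 * (a + 1) + 2) / ((2 * (a + 1) + 2).factorial : ℝ) := by
        have e2 : (fun y => (y - x) * ((π - 2 * y) ^ (2 * a + 2) /
          ((2 * a + 2).factorial : ℝ))) = fun y => ((2 * a + 2).factorial : ℝ)⁻¹ *
            ((y - x) * (π - 2 * y) ^ (2 * a + 2)) := by
          funext y; ring
        rw [e2, intervalIntegral.integral_const_mul, integral_poly]
        have e3 : (2 * (a + 1) + 2).factorial = (2 * a + 4) * ((2 * a + 3) *
            (2 * a + 2).factorial) := by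
          have : 2 * (a + 1) + 2 = (2 * a + 2) + 1 + 1 := by ring
          rw [this, Nat.factorial_succ, Nat.factorial_succ]
        rw [e3]
        have hf : ((2 * a + 2).factorial : ℝ) ≠ 0 := by positivity
        push_cast
        have e4 : 2 * (a + 1) + 2 = 2 * a + 2 + 2 := by ring
        rw [e4]
        field_simp
        ring
      rw [e1] at h4
      refine h4.congr_fun ?_ |> id
      intro m
      rcases Nat.eq_zero_or_pos m with rfl | hm
      · simp [hw, en]
      · have hm' : (m : ℝ) ≠ 0 := by positivity
        rw [gn, if_neg hm.ne', Ii]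
        have e5 : (fun y => (y - x) * (en m * Lo a m * cos y ^ (2 * m))) = fun y =>
            (en m * Lo a m) * ((y - x) * cos y ^ (2 * m)) := by
          funext y; ring
        rw [e5, intervalIntegral.integral_const_mul]
        simp only [hw]
        field_simp
    -- exchange
    set h : ℕ → ℕ → ℝ := fun m n => if m < n then w m * (en n * cos x ^ (2 * n)) else 0 with hh
    have hrow : ∀ m, HasSum (h m) (w m * gn m x) := by
      intro m
      refine ((hasSum_tail m x hx hx').mul_left (w m)).congr_fun ?_ |> id
      intro n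
      simp only [hh]
      split_ifs <;> simp
    have hh0 : ∀ m n, 0 ≤ h m n := by
      intro m n
      simp only [hh]
      split_ifs
      · rw [pow_mul]
        exact mul_nonneg (hw0 m) (mul_nonneg (en_nonneg n) (by positivity))
      · exact le_refl _
    have hsummable : Summable (fun p : ℕ × ℕ => h p.1 p.2) := by
      rw [summable_prod_of_nonneg fun p => hh0 p.1 p.2]
      refine ⟨fun m => (hrow m).summable, ?_⟩
      have : (fun m => ∑' n, h m n) = fun m => w m * gn m x := by
        funext m
        exact (hrow m).tsum_eq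
      simp only [this]
      exact hT.summable
    have hprod : HasSum (fun p : ℕ × ℕ => h p.1 p.2)
        ((π - 2 * x) ^ (2 * (a + 1) + 2) / ((2 * (a + 1) + 2).factorial : ℝ)) := by
      have h1 := hsummable.hasSum.prod_fiberwise hrow
      rw [← h1.unique hT]
      exact hsummable.hasSum
    have hswap : HasSum (fun p : ℕ × ℕ => h p.2 p.1)
        ((π - 2 * x) ^ (2 * (a + 1) + 2) / ((2 * (a + 1) + 2).factorial : ℝ)) :=
      (Equiv.prodComm ℕ ℕ).hasSum_iff.mpr hprod
    have hcol : ∀ n, HasSum (fun m => h m n) (en n * Lo (a + 1) n * cos x ^ (2 * n)) := by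
      intro n
      have h1 : HasSum (fun m => h m n) (∑ m ∈ Finset.range n, h m n) := by
        refine hasSum_sum_of_ne_finset_zero fun m hm => ?_
        have : ¬ m < n := by simpa using hm
        simp [hh, this]
      have h2 : ∑ m ∈ Finset.range n, h m n = en n * Lo (a + 1) n * cos x ^ (2 * n) := by
        rw [Lo, Finset.mul_sum, Finset.sum_mul]
        refine Finset.sum_congr rfl fun m hm => ?_
        have : m < n := Finset.mem_range.mp hm
        simp only [hh, this, if_true, hw]
        ring
      rwa [h2] at h1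
    exact hswap.prod_fiberwise hcol

end Pool.Agent.LibHof81
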