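import Pool.Agent.LibHof81.Defs

set_option autoImplicit false

namespace Pool.Agent.LibHof81

open Real

/-- Task Z6a: one integration by parts. -/
theorem Ai_tan (b n : ℕ) (hn : 1 ≤ n) :
    (n : ℝ)⁻¹ * Ai b n = ∫ x in (0 : ℝ)..(π / 2),
      (2 * x) ^ (2 * b + 1) / ((2 * b + 1).factorial : ℝ) * cos x ^ (2 * n) * tan x := by
  have hn0 : (n : ℝ) ≠ 0 := by
    have : n ≠ 0 := by omega
    exact_mod_cast this
  have hu : ∀ x ∈ Set.uIcc (0 : ℝ) (π / 2), HasDerivAt
      (fun x : ℝ => (2 * x) ^ (2 * b + 1) / ((2 * b + 1).factorial : ℝ))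
      (2 * ((2 * x) ^ (2 * b) / ((2 * b).factorial : ℝ))) x := by
    intro x _
    have h1 := (((hasDerivAt_id x).const_mul 2).pow (2 * b + 1)).div_const
      ((2 * b + 1).factorial : ℝ)
    refine h1.congr_deriv ?_
    simp only [id, Nat.add_sub_cancel, mul_one]
    rw [Nat.factorial_succ]
    push_cast
    have h2 : ((2 * b).factorial : ℝ) ≠ 0 := by positivity
    have h3 : (2 * (b : ℝ) + 1) ≠ 0 := by positivity
    field_simp
  have hv : ∀ x ∈ Set.uIcc (0 : ℝ) (π / 2), HasDerivAt (fun x : ℝ => cos x ^ (2 * n))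
      (-(2 * n) * (cos x ^ (2 * n - 1) * sin x)) x := by
    intro x _
    have h1 := (Real.hasDerivAt_cos x).pow (2 * n)
    refine h1.congr_deriv ?_
    push_cast
    ring
  have hu' : IntervalIntegrable
      (fun x : ℝ => 2 * ((2 * x) ^ (2 * b) / ((2 * b).factorial : ℝ)))
      MeasureTheory.volume 0 (π / 2) := by
    apply Continuous.intervalIntegrable
    fun_prop
  have hv' : IntervalIntegrable
      (fun x : ℝ => -(2 * n : ℝ) * (cos x ^ (2 * n - 1) * sin x))
      MeasureTheory.volume 0 (π / 2) := by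
    apply Continuous.intervalIntegrable
    fun_prop
  have key := intervalIntegral.integral_mul_deriv_eq_deriv_mul hu hv hu' hv'
  simp only [cos_pi_div_two, mul_zero, zero_pow (by omega : 2 * n ≠ 0),
    zero_pow (by omega : 2 * b + 1 ≠ 0), zero_div, zero_mul, sub_zero, zero_sub] at key
  have e1 : ∀ x : ℝ, (2 * x) ^ (2 * b + 1) / ((2 * b + 1).factorial : ℝ) * cos x ^ (2 * n) *
      tan x = (-(2 * n : ℝ))⁻¹ * ((2 * x) ^ (2 * b + 1) / ((2 * b + 1).factorial : ℝ) *
      (-(2 * n) * (cos x ^ (2 * n - 1) * sin x))) := by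
    intro x
    have h1 : cos x ^ (2 * n) * tan x = cos x ^ (2 * n - 1) * sin x := by
      by_cases hc : cos x = 0
      · rw [hc, zero_pow (by omega), zero_pow (by omega)]; ring
      · rw [tan_eq_sin_div_cos]
        obtain ⟨j, rfl⟩ := Nat.exists_eq_add_of_le hn
        rw [show 2 * (1 + j) - 1 = 2 * j + 1 by omega, show 2 * (1 + j) = (2 * j + 1) + 1 by ring,
          pow_succ]
        field_simp
    rw [mul_assoc, h1]
    field_simp
  simp_rw [e1]
  rw [intervalIntegral.integral_const_mul, key, Ai]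
  have e2 : ∀ x : ℝ, 2 * ((2 * x) ^ (2 * b) / ((2 * b).factorial : ℝ)) * cos x ^ (2 * n) =
      2 * ((2 * x) ^ (2 * b) / ((2 * b).factorial : ℝ) * cos x ^ (2 * n)) := by
    intro x; ring
  simp_rw [e2]
  rw [intervalIntegral.integral_const_mul]
  field_simp

end Pool.Agent.LibHof81
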