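import Pool.Agent.LibHof81.Defs

set_option autoImplicit false

namespace Pool.Agent.LibHof81

open Real

/-- Task Z6b: the integrand is integrable (it is bounded: `0 ≤ (π/2 - x) tan x ≤ π/2` on `(0, π/2)`). -/
theorem integrable_kernel (q : ℝ → ℝ) (hq : Continuous q) :
    MeasureTheory.IntegrableOn (fun x => q x * ((π - 2 * x) * tan x)) (Set.Ioc 0 (π / 2)) := by
  obtain ⟨M, hM⟩ := (isCompact_Icc (a := (0 : ℝ)) (b := π / 2)).exists_bound_of_continuousOn
    hq.continuousOn
  apply MeasureTheory.Measure.integrableOn_of_bounded (M := M * 2)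
  · simp
  · have h1 : Measurable (fun x : ℝ => tan x) := by
      have : (fun x : ℝ => tan x) = fun x => sin x / cos x := by
        ext x; exact tan_eq_sin_div_cos x
      rw [this]
      exact measurable_sin.div measurable_cos
    exact (hq.measurable.mul (((measurable_const).sub (measurable_const.mul measurable_id)).mul
      h1)).aestronglyMeasurable
  · rw [MeasureTheory.ae_restrict_iff' measurableSet_Ioc]
    apply Filter.Eventually.of_forall
    intro x hx
    have h0 := hM x ⟨hx.1.le, hx.2⟩
    have hM0 : 0 ≤ M := (norm_nonneg _).trans h0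
    rw [norm_mul]
    apply mul_le_mul h0 _ (norm_nonneg _) hM0
    rcases eq_or_lt_of_le hx.2 with h | h
    · rw [h, show π - 2 * (π / 2) = 0 by ring, zero_mul, norm_zero]
      norm_num
    · have h1 : 0 < π / 2 - x := by linarith
      have h2 : π / 2 - x < π / 2 := by linarith [hx.1]
      have h3 := Real.lt_tan h1 h2
      rw [Real.tan_pi_div_two_sub] at h3
      have h4 : 0 < tan x := Real.tan_pos_of_pos_of_lt_pi_div_two hx.1 h
      have h5 : (π / 2 - x) * tan x < 1 := by
        calc (π / 2 - x) * tan x < (tan x)⁻¹ * tan x := by gcongr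
          _ = 1 := inv_mul_cancel₀ h4.ne'
      rw [Real.norm_eq_abs, abs_of_nonneg (mul_nonneg (by linarith) h4.le)]
      linarith

end Pool.Agent.LibHof81
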