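import Pool.Agent.LibHof81.M2b
import Pool.Agent.LibHof81.Z3
import Pool.Agent.LibHof81.Z5
import Pool.Agent.LibHof81.Z6a
import Pool.Agent.LibHof81.Z6b

set_option autoImplicit false

namespace Pool.Agent.LibHof81

open Real

theorem Z6_Lo_nonneg (a : ℕ) : ∀ n, 0 ≤ Lo a n := by
  induction a with
  | zero => intro n; simp [Lo]
  | succ a ih =>
    intro n
    rw [Lo]
    exact Finset.sum_nonneg fun m _ => mul_nonneg (by positivity) (ih m)

theorem Z6_en_nonneg (n : ℕ) : 0 ≤ en n := by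
  unfold en; positivity

/-- the integrand of one term -/
noncomputable def Z6F (a b n : ℕ) (x : ℝ) : ℝ :=
  en n * Lo a n * cos x ^ (2 * n) * ((2 * x) ^ (2 * b + 1) / ((2 * b + 1).factorial : ℝ) * tan x)

theorem Z6_cos_tan (n : ℕ) (hn : 1 ≤ n) (x : ℝ) :
    cos x ^ (2 * n) * tan x = cos x ^ (2 * n - 1) * sin x := by
  obtain ⟨m, rfl⟩ := Nat.exists_eq_add_of_le hn
  have h1 : 2 * (1 + m) - 1 = 2 * m + 1 := by omega
  have h2 : 2 * (1 + m) = 2 * m + 1 + 1 := by omega
  rw [h1, h2]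
  by_cases h : cos x = 0
  · rw [h]; simp
  · rw [tan_eq_sin_div_cos, pow_succ]
    field_simp

theorem Z6_F_zero (a b : ℕ) (x : ℝ) : Z6F a b 0 x = 0 := by
  simp [Z6F, en]

theorem Z6_F_cont (a b n : ℕ) : Continuous (Z6F a b n) := by
  rcases Nat.eq_zero_or_pos n with rfl | hn
  · have : Z6F a b 0 = fun _ => 0 := by ext x; exact Z6_F_zero a b x
    rw [this]; exact continuous_const
  · have : Z6F a b n = fun x => en n * Lo a n * (cos x ^ (2 * n - 1) * sin x) *
        ((2 * x) ^ (2 * b + 1) / ((2 * b + 1).factorial : ℝ)) := by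
      ext x
      unfold Z6F
      rw [← Z6_cos_tan n hn x]
      ring
    rw [this]
    fun_prop

theorem Z6_tan_nonneg {x : ℝ} (hx : x ∈ Set.Ioc 0 (π / 2)) : 0 ≤ tan x := by
  rcases hx.2.eq_or_lt with h | h
  · rw [h, tan_pi_div_two]
  · exact tan_nonneg_of_nonneg_of_le_pi_div_two hx.1.le hx.2

theorem Z6_F_nonneg (a b n : ℕ) {x : ℝ} (hx : x ∈ Set.Ioc 0 (π / 2)) : 0 ≤ Z6F a b n x := by
  unfold Z6F
  have h1 := Z6_tan_nonneg hx
  have h2 := Z6_Lo_nonneg a n
  have h3 := Z6_en_nonneg n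
  have h4 : 0 ≤ cos x := cos_nonneg_of_neg_pi_div_two_le_of_le (by linarith [hx.1, pi_pos]) hx.2
  have h5 := hx.1
  positivity

theorem Z6_term (a b n : ℕ) :
    ENNReal.ofReal (((n : ℝ) ^ 3)⁻¹ * Lo a n) * Up b n = ENNReal.ofReal (2 / π) *
      ∫⁻ x in Set.Ioc 0 (π / 2), ENNReal.ofReal (Z6F a b n x) := by
  rcases Nat.eq_zero_or_pos n with rfl | hn
  · simp [Z6_F_zero]
  have hn0 : (0 : ℝ) < n := by exact_mod_cast hn
  have hint : MeasureTheory.Integrable (Z6F a b n)
      (MeasureTheory.volume.restrict (Set.Ioc 0 (π / 2))) := by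
    have := (Z6_F_cont a b n).intervalIntegrable (μ := MeasureTheory.volume) 0 (π / 2)
    rw [intervalIntegrable_iff_integrableOn_Ioc_of_le (by positivity)] at this
    exact this
  have hnn : 0 ≤ᵐ[MeasureTheory.volume.restrict (Set.Ioc 0 (π / 2))] (Z6F a b n) :=
    (MeasureTheory.ae_restrict_iff' measurableSet_Ioc).2
      (Filter.Eventually.of_forall fun x hx => Z6_F_nonneg a b n hx)
  have h2 := MeasureTheory.ofReal_integral_eq_lintegral_ofReal hint hnn
  rw [Up_eq, ← ENNReal.ofReal_mul (by have := Z6_Lo_nonneg a n; positivity), ← h2,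
    ← ENNReal.ofReal_mul (by positivity)]
  congr 1
  have h3 := Ai_tan b n hn
  rw [← intervalIntegral.integral_of_le (by positivity)]
  have h4 : ∫ x in (0:ℝ)..(π / 2), Z6F a b n x = en n * Lo a n * ((n : ℝ)⁻¹ * Ai b n) := by
    rw [h3, ← intervalIntegral.integral_const_mul]
    apply intervalIntegral.integral_congr
    intro x _
    simp only [Z6F]
    ring
  rw [h4]
  unfold Jn Wn en
  have h5 : (Nat.centralBinom n : ℝ) ≠ 0 := by exact_mod_cast Nat.centralBinom_ne_zero n
  have hpi := pi_pos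
  field_simp

theorem Z6_sum (a b : ℕ) {x : ℝ} (hx : x ∈ Set.Ioc 0 (π / 2)) :
    ∑' n, ENNReal.ofReal (Z6F a b n x) = ENNReal.ofReal
      ((2 * x) ^ (2 * b + 1) / ((2 * b + 1).factorial : ℝ) *
        ((π - 2 * x) ^ (2 * a + 2) / ((2 * a + 2).factorial : ℝ)) * tan x) := by
  have h := (hasSum_S a x hx.1 hx.2).mul_right
    ((2 * x) ^ (2 * b + 1) / ((2 * b + 1).factorial : ℝ) * tan x)
  have h' : HasSum (fun n => Z6F a b n x) _ := h
  rw [← ENNReal.ofReal_tsum_of_nonneg (fun n => Z6_F_nonneg a b n hx) h'.summable, h'.tsum_eq]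
  congr 1
  ring

/-- Task Z6: the integral representation (`levelOne = (∑' n, n^-3 L_a(n) J_b(n)).toReal`, `W_n / n^2 = (2/π) e_n`,
`Ai_tan`, exchange of sum and integral of nonnegative terms, `hasSum_S`). -/
theorem levelOne_integral (a b : ℕ) :
    levelOne (a, b) = 2 / π * ∫ x in (0 : ℝ)..(π / 2),
      (2 * x) ^ (2 * b + 1) / ((2 * b + 1).factorial : ℝ) *
        ((π - 2 * x) ^ (2 * a + 2) / ((2 * a + 2).factorial : ℝ)) * tan x := by
  have h1 : levelOne (a, b) = (Full (b + 1 + a) (fun i => if i = b then 3 else 2)).toReal :=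
    mzv_eq_full (b + 1 + a) (fun i => if i = b then 3 else 2) (fun i => by split_ifs <;> norm_num)
  rw [h1, full_levelOne]
  simp_rw [Z6_term]
  rw [ENNReal.tsum_mul_left, ← MeasureTheory.lintegral_tsum
    (fun n => ((Z6_F_cont a b n).measurable.ennreal_ofReal).aemeasurable)]
  rw [MeasureTheory.setLIntegral_congr_fun measurableSet_Ioc (fun x hx => Z6_sum a b hx)]
  rw [ENNReal.toReal_mul, ENNReal.toReal_ofReal (by positivity)]
  congr 1
  rw [intervalIntegral.integral_of_le (by positivity)]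
  rw [MeasureTheory.integral_eq_lintegral_of_nonneg_ae]
  · refine (MeasureTheory.ae_restrict_iff' measurableSet_Ioc).2
      (Filter.Eventually.of_forall fun x hx => ?_)
    have h2 := Z6_tan_nonneg hx
    have h3 := hx.1
    have h4 : 0 ≤ π - 2 * x := by linarith [hx.2]
    simp only [Pi.zero_apply]
    positivity
  · apply Measurable.aestronglyMeasurable
    have : Measurable tan := by
      have h5 : tan = fun x => sin x / cos x := by ext x; exact tan_eq_sin_div_cos x
      rw [h5]; fun_prop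
    fun_prop

end Pool.Agent.LibHof81
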